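import Mathlib
import Pool.Agent.H2.F2.Ifu

/-!
The statement of the block GA2 (colours and blocked sets of the vertices, uniformly in `p ≥ 2`).
-/

set_option autoImplicit false

namespace Pool.Agent.H46.G2

open Finset Classical
open Pool.Agent.H71.DN Pool.Agent.H71.DX Pool.Agent.H71.DR Pool.Agent.H71.HL Pool.Agent.H71.DC
open Pool.Agent.H71.TD Pool.Agent.H90.TDP Pool.Agent.H2.F2

/-- The units `un` exist, and for all quarters, classes (constant on the units) and colourings `φ` of the defect edges the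
colours and holes of the vertices exist; `s`, `g0` depend only on `c`, `x`, and all constants are independent of `p`. -/
def GaSt2 (c x : ℝ) : Prop :=
  ∃ s g0 : ℕ, ∀ g : ℕ, g0 ≤ g → ∀ (K1 : ℕ) (κ : ℝ), 0 < κ → ∃ ξ0 : ℝ, 0 < ξ0 ∧
    ∀ ξ ζ : ℝ, 0 < ξ → ξ ≤ ξ0 → 0 < ζ →
      ∃ (e0 δ ε f0 : ℝ) (n0 : ℕ), 0 < e0 ∧ 0 < δ ∧ 0 < ε ∧ 0 < f0 ∧
        ∀ (V : Type) [Fintype V] (G : SimpleGraph V) (Δ p k : ℕ) (f : ℝ) (ty : ℕ → Prop)
          (nd : V → ℕ) (sf : ℕ → Finset V), n0 ≤ Fintype.card V → c * Fintype.card V ≤ Δ →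
          2 ≤ p → (p : ℝ) ≤ ε * Fintype.card V → 0 ≤ f → f ≤ f0 →
          Str G Δ c x ξ ζ f k ty nd sf →
          ∃ un : V → ℕ, (∀ a b, un a = un b → nd a = nd b ∧ ¬ G.Adj a b) ∧
            (∀ u, (univ.filter fun v => un v = u).card ≤ s) ∧
            ∀ (KE KB : ℕ) (η f1 e1 : ℝ) (qt cl : V → ℕ) (φ : ℕ → V → V) (c0 : V → ℕ),
              η ≤ 1 / 100 → e1 ≤ e0 → Spl G k ty nd qt η KE KB f1 →
              Spl2 G k ty nd qt cl un e1 f1 →
              FcU G Δ p k ty nd qt cl ((Δ + 2 * p - 2) / (12 * g)) K1 δ φ c0 →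
              ∃ (cc : V → ℕ) (S : V → Finset ℕ),
                GaP G Δ p k ty nd qt ((Δ + 2 * p - 2) / (12 * g)) κ φ cc S

end Pool.Agent.H46.G2
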