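import Mathlib
import Pool.Agent.H46.GP.Defs
import Pool.Agent.H2.F2.Ifu

/-!
Definitions for the block GA2 (colours and holes of the vertices, uniformly in `p ≥ 2`). Compare `Pool/Agent/H46/GP/Defs.lean`;
`BB`, `bw`, `sw`, `gp` are defined there; `bx L j` is by definition `Pool.Agent.H2.F2.bt L j`.
-/

set_option autoImplicit false

namespace Pool.Agent.H46.G2

open Finset Classical
open Pool.Agent.H71.DN Pool.Agent.H71.DX Pool.Agent.H71.DR Pool.Agent.H71.HL Pool.Agent.H71.DC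
open Pool.Agent.H71.TD Pool.Agent.H90.TDP Pool.Agent.H46.GA Pool.Agent.H46.GP

/-- The first label of the block `j` (the same as `Pool.Agent.H2.F2.bt`). -/
def bx (L j : ℕ) : ℕ := j * L / 8

/-- The first label that may be used by the class `j`. -/
def lo (p L j : ℕ) : ℕ := if j = 0 then 0 else bx L j + p

/-- The labels of the class `j` are smaller than this. -/
def hi (p L j : ℕ) : ℕ := if j = 6 then L else bx L (j + 2) - p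

/-- The facts about the graph, the pieces, the quarters, the classes and the colouring `φ` of the defect edges. -/
structure Fz {V : Type} [Fintype V] (G : SimpleGraph V) (Δ p k : ℕ) (ty : ℕ → Prop)
    (nd qt cl un : V → ℕ) (sf : ℕ → Finset V) (t : ℕ) (φ : ℕ → V → V) (c0 : V → ℕ)
    (d D r z e E kap K1 : ℕ) : Prop where
  le : ∀ v, nd v ≤ 2 * k
  odd : ∀ i < k, ty i → pt nd (2 * i + 1) = ∅
  even : ∀ i < k, ty i → Even (pt nd (2 * i)).card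
  bal : ∀ i < k, ¬ ty i → (pt nd (2 * i)).card = (pt nd (2 * i + 1)).card
  big : ∀ i < k, 9 * Δ ≤ 10 * (pt nd (2 * i)).card
  clt : ∀ v, cl v < 7
  cu : ∀ a b, un a = un b → cl a = cl b
  half : ∀ v, nd v < 2 * k → Δ ≤ 4 * (univ.filter fun u => nd u = nd v ∧ qt u < 2).card ∧
    Δ ≤ 4 * (univ.filter fun u => nd u = nd v ∧ ¬ qt u < 2).card
  halfc : ∀ v, nd v < 2 * k →
    Δ ≤ 40 * (univ.filter fun u => nd u = nd v ∧ cl u = cl v ∧ qt u < 2).card ∧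
    Δ ≤ 40 * (univ.filter fun u => nd u = nd v ∧ cl u = cl v ∧ ¬ qt u < 2).card
  szc : ∀ P < 2 * k, ∀ j < 7,
    7 * ((pt nd P).filter fun v => cl v = j).card ≤ (pt nd P).card + 7 * E ∧
    (pt nd P).card ≤ 7 * ((pt nd P).filter fun v => cl v = j).card + 7 * E
  szu : ∀ i < k, ty i → ∀ j < 7,
    7 * (((pt nd (2 * i)).filter fun v => cl v = j).image un).card ≤
      ((pt nd (2 * i)).image un).card + 7 * E
  dF : ∀ v, nd v < 2 * k → dg (Fg G k ty nd) v ≤ d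
  hi : (univ.filter fun v => nd v < 2 * k ∧ e < dg (Fg G k ty nd) v).card ≤ e
  lo : (pt nd (2 * k)).card ≤ r
  sf1 : ∀ i < k, ty i → (sf i).card ≤ 1
  nn : ∀ i < k, ty i → ∀ w ∈ pt nd (2 * k), w ∉ sf i →
    z ≤ ((pt nd (2 * i)).filter fun v => cl v = 6 ∧ ¬ G.Adj w v).card
  cnt : ∀ v, ((range (Δ + 2 * p)).filter fun ℓ => φ ℓ v ≠ v).card = dg (Fg G k ty nd) v
  av : ∀ v, nd v < 2 * k → ∀ ℓ, bx (Δ + 2 * p) (cl v) ≤ ℓ → ℓ < bx (Δ + 2 * p) (cl v + 2) →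
    φ ℓ v = v
  t1 : ∀ ℓ, T1 p t ℓ → ∀ v, nd v < 2 * k → qt v < 2 → φ ℓ v = v
  t2 : ∀ ℓ, T2 p t ℓ → ∀ v, nd v < 2 * k → 2 ≤ qt v → φ ℓ v = v
  c1 : ∀ w ∈ pt nd (2 * k), bx (Δ + 2 * p) 7 + 2 * p ≤ c0 w ∧
    c0 w < bx (Δ + 2 * p) 7 + 2 * p + kap
  c2 : ∀ w ∈ pt nd (2 * k), ∀ w' ∈ pt nd (2 * k), c0 w = c0 w' → w = w'
  c3 : ∀ w ∈ pt nd (2 * k), ∀ ℓ, c0 w < ℓ + p → ℓ ≤ c0 w + p → φ ℓ w = w
  dlo : ∀ w ∈ pt nd (2 * k), dg (Fg G k ty nd) w = Δ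
  sm : ∀ ℓ < Δ + 2 * p, (univ.filter fun v => nd v < 2 * k ∧ φ ℓ v ≠ v).card ≤ D
  ub : ∀ i < k, ¬ ty i → ∀ ℓ < bx (Δ + 2 * p) 7, |uu nd (φ ℓ) i| ≤ 3
  uK : ∀ i < k, ¬ ty i → ∀ ℓ < Δ + 2 * p, |uu nd (φ ℓ) i| ≤ K1
  us : ∀ i < k, ¬ ty i → 5 * ∑ ℓ ∈ range (Δ + 2 * p), max 0 (-uu nd (φ ℓ) i) ≤ 4 * Δ
  sE : ∀ i < k, ty i → Even (∑ ℓ ∈ range (Δ + 2 * p), cv nd (φ ℓ) (2 * i))
  sB : ∀ i < k, ¬ ty i → ∑ ℓ ∈ range (Δ + 2 * p), uu nd (φ ℓ) i = 0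

/-- The classes of vertices with the same colour in the expanding parts (chosen before the classes `cl` and before `φ`). The
vertices of `W` are coloured in groups given by `un`; the other vertices are single units. For an expanding part either all
vertices are in `W`, the part has at least `Δ + 2 p` vertices and at most `Δ - q` groups, or there are exactly
`#C - (Δ + 2 p - 1)` groups, which have two elements. -/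
structure Uz {V : Type} [Fintype V] (G : SimpleGraph V) (Δ p k : ℕ) (ty : ℕ → Prop)
    (nd : V → ℕ) (s q z : ℕ) (W : Finset V) (un : V → ℕ) : Prop where
  sub : ∀ v ∈ W, nd v < 2 * k ∧ ty (nd v / 2)
  nu : ∀ a b, un a = un b → nd a = nd b
  si : ∀ a b, un a = un b → a ∉ W → a = b
  pr : ∀ a b, un a = un b → ¬ G.Adj a b
  sz : ∀ a, (univ.filter fun b => un b = un a).card ≤ s
  alt : ∀ i < k, ty i →
    (pt nd (2 * i) ⊆ W ∧ Δ + 2 * p ≤ (pt nd (2 * i)).card ∧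
      ((pt nd (2 * i)).image un).card + q ≤ Δ) ∨
    (8 * (W.filter fun v => nd v = 2 * i).card ≤ z ∧
      ((W.filter fun v => nd v = 2 * i).image un).card =
        (pt nd (2 * i)).card - (Δ + 2 * p - 1) ∧
      ∀ v ∈ W, nd v = 2 * i → (univ.filter fun u => un u = un v).card = 2)

/-- The vertices of `W` are coloured by `lam`. -/
structure Wz {V : Type} [Fintype V] (G : SimpleGraph V) (Δ p k : ℕ) (ty : ℕ → Prop)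
    (nd cl : V → ℕ) (t : ℕ) (c0 : V → ℕ) (zi : ℕ → ℕ) (s z : ℕ)
    (W : Finset V) (lam : V → ℕ) : Prop where
  sub : ∀ v ∈ W, nd v < 2 * k ∧ ty (nd v / 2)
  rg : ∀ v ∈ W, 6 * p + 2 * t ≤ lam v ∧ lam v < Δ + 2 * p
  rc : ∀ v ∈ W, lo p (Δ + 2 * p) (cl v) ≤ lam v ∧ lam v < hi p (Δ + 2 * p) (cl v)
  sp : ∀ v ∈ W, ∀ w ∈ pt nd (2 * k), lam v ≠ c0 w
  pr : ∀ a ∈ W, ∀ b ∈ W, G.Adj a b → lam a ≠ lam b
  sz : ∀ j ℓ, wn nd W lam j ℓ ≤ s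
  alt : ∀ i < k, ty i → (pt nd (2 * i) ⊆ W ∧ Δ + 2 * p ≤ (pt nd (2 * i)).card) ∨
    (8 * (W.filter fun v => nd v = 2 * i).card ≤ z ∧
      ∃ Λ : Finset ℕ, Λ ⊆ range (Δ + 2 * p) ∧ zi i ∉ Λ ∧
        Λ.card = (pt nd (2 * i)).card - (Δ + 2 * p - 1) ∧
        (∀ v ∈ W, nd v = 2 * i → lam v ∈ Λ) ∧ ∀ ℓ ∈ Λ, wn nd W lam (2 * i) ℓ = 2)

/-- Numbers `a j ℓ` of vertices of the piece `j` outside `W` that shall get the label `ℓ`. -/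
structure Dn {V : Type} [Fintype V] (G : SimpleGraph V) (Δ p k : ℕ) (ty : ℕ → Prop)
    (nd cl : V → ℕ) (t : ℕ) (c0 : V → ℕ) (z E0 K : ℕ) (W : Finset V) (lam : V → ℕ)
    (a : ℕ → ℕ → ℕ) : Prop where
  sum : ∀ j < 2 * k, ∑ ℓ ∈ range (Δ + 2 * p), a j ℓ = ((pt nd j).filter fun v => v ∉ W).card
  le : ∀ j ℓ, a j ℓ ≤ K
  e1 : ∀ i < k, ty i → ∀ ℓ, a (2 * i) ℓ ≤ 1
  e2 : ∀ i < k, ty i → ∀ v ∈ W, nd v = 2 * i → a (2 * i) (lam v) = 0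
  b1 : ∀ i < k, ¬ ty i → ∀ ℓ, a (2 * i) ℓ = 0 ∨ a (2 * i + 1) ℓ = 0
  wl : ∀ j < 2 * k, (∃ v, nd v = j ∧ v ∉ W) → 8 * (W.filter fun v => nd v = j).card ≤ z
  cd : ∀ w ∈ pt nd (2 * k), ∀ j < 2 * k, 0 < a j (c0 w) →
    z ≤ 2 * ((pt nd j).filter fun v => v ∉ W ∧ cl v = 6 ∧ ¬ G.Adj w v).card
  s1 : ∀ w ∈ pt nd (2 * k), ∀ j < 2 * k, a j (c0 w) ≤ 1
  t1 : ∀ j < 2 * k, ∀ m ≤ 6 * p + 2 * t, a j m ≤ 1
  l1 : ∀ j < 2 * k, (∃ v, nd v = j ∧ v ∉ W) → ∀ b < 8,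
    8 * ∑ x ∈ range (bx (Δ + 2 * p) b + p), a j x ≤ b * (pt nd j).card + 8 * E0
  l2 : ∀ j < 2 * k, (∃ v, nd v = j ∧ v ∉ W) → ∀ b < 8,
    b * (pt nd j).card ≤ 8 * ∑ x ∈ range (bx (Δ + 2 * p) b - p), a j x + 8 * E0

/-- The numbers for the pieces `j` and the classes `c`. -/
structure Dc {V : Type} [Fintype V] (Δ p k : ℕ) (nd cl : V → ℕ) (W : Finset V)
    (a : ℕ → ℕ → ℕ) (ac : ℕ → ℕ → ℕ → ℕ) : Prop where
  sum : ∀ j < 2 * k, ∀ c < 7, ∑ ℓ ∈ range (Δ + 2 * p), ac j c ℓ =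
    ((pt nd j).filter fun v => v ∉ W ∧ cl v = c).card
  le : ∀ j c ℓ, ac j c ℓ ≤ a j ℓ
  tot : ∀ j < 2 * k, ∀ ℓ < Δ + 2 * p, ∑ c ∈ range 7, ac j c ℓ = a j ℓ
  rg : ∀ j < 2 * k, ∀ c < 7, ∀ ℓ < Δ + 2 * p, ac j c ℓ ≠ 0 →
    lo p (Δ + 2 * p) c ≤ ℓ ∧ ℓ < hi p (Δ + 2 * p) c

/-- Colours `cc` of the vertices that fit to `φ`, such that holes can be found. -/
structure Cz {V : Type} [Fintype V] (G : SimpleGraph V) (Δ p k : ℕ) (ty : ℕ → Prop)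
    (nd qt : V → ℕ) (t Kb Kg : ℕ) (φ : ℕ → V → V) (cc : V → ℕ) : Prop where
  lt : ∀ v, cc v < Δ + 2 * p
  fr : ∀ v, ∀ ℓ ∈ BB p (Δ + 2 * p) (cc v), φ ℓ v = v
  pr : ∀ a b, G.Adj a b → cc a ≠ cc b
  t1 : ∀ v, nd v < 2 * k → qt v < 2 → ∀ ℓ ∈ BB p (Δ + 2 * p) (cc v), ¬ T1 p t ℓ
  t2 : ∀ v, nd v < 2 * k → 2 ≤ qt v → ∀ ℓ ∈ BB p (Δ + 2 * p) (cc v), ¬ T2 p t ℓ
  ct : ∀ j < 2 * k, ∀ ℓ < Δ + 2 * p, bw p (Δ + 2 * p) nd cc j ℓ ≤ Kb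
  kg : ∀ i < k, ¬ ty i → ∀ ℓ < Δ + 2 * p, |gp p (Δ + 2 * p) nd φ cc i ℓ| ≤ Kg
  ev : ∀ i < k, ty i → ((range (Δ + 2 * p)).filter fun ℓ =>
    ¬ Even ((pt nd (2 * i)).card + cv nd (φ ℓ) (2 * i) +
      bw p (Δ + 2 * p) nd cc (2 * i) ℓ)).card ≤ (pt nd (2 * i)).card
  ba : ∀ i < k, ¬ ty i → ∑ ℓ ∈ range (Δ + 2 * p),
    max 0 (gp p (Δ + 2 * p) nd φ cc i ℓ) ≤ ((pt nd (2 * i)).card : ℤ)
  bt : ∀ i < k, ¬ ty i → ∀ ℓ, (T1 p t ℓ ∨ T2 p t ℓ) → |gp p (Δ + 2 * p) nd φ cc i ℓ| ≤ 3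
  cl : ∀ w ∈ pt nd (2 * k), p ≤ cc w ∧ cc w + p < Δ + 2 * p ∧
    ∀ ℓ, cc w < ℓ + p → ℓ ≤ cc w + p → φ ℓ w = w

end Pool.Agent.H46.G2
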