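import Mathlib
import Pool.Agent.H46.GP.Bbl
import Pool.Agent.H46.G2.Defs

/-!
BCL: simple facts about `lo`, `hi`, `bx` (see `G2/Defs.lean`); `bx L j = j * L / 8`. Use the STATEMENTS of `GP/Bbl.lean`.

Proof.  `bb_cls`: `BB p L x = Ico m (m + (2 p - 1))`, `m = min (x - (p - 1)) (L - (2 p - 1))`. `c = 0`: `x < bx L 2 - p`, `bx L 0 = 0 ≤ m`, and `m + (2 p - 1) ≤ max (x + p) (2 p - 1) ≤ bx L 2` (`2 p - 1 ≤ L / 4`). `1 ≤ c ≤ 5`: `bx L c + p ≤ x < bx L (c + 2) - p`, so `bx L c ≤ x - (p - 1)`, `bx L c ≤ L - (2 p - 1)`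
 (`bx L c ≤ 5 L / 8`, `16 p ≤ L`), `m + (2 p - 1) ≤ x + p ≤ bx L (c + 2)`. `c = 6`: `bx L 6 + p ≤ x < L`, `bx L 6 ≤ m` (`6 L / 8 ≤ L - (2 p - 1)`), `m + (2 p - 1) ≤ L = bx L 8`. (`interval_cases c`, then `unfold lo hi bx BB at *`, `simp only [mem_Ico]`, `omega` works for literal `c`.)
 `lo_T`: if `x ≤ 6 p + 2 t` and `lo p L c ≤ x` then `c = 0`, since `bx L c + p ≥ L / 8 - 1 + p > 6 p + 2 t` for `1 ≤ c`. `hi_K`: if `bx L 7 + 2 p ≤ x < hi p L c` then `c = 6` (`hi p L c ≤ bx L (c + 2) ≤ bx L 7` for `c ≤ 5`).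
-/

set_option autoImplicit false

namespace Pool.Agent.H46.G2

open Finset Classical
open Pool.Agent.H71.DN Pool.Agent.H71.DX Pool.Agent.H71.DR Pool.Agent.H71.HL Pool.Agent.H71.DC
open Pool.Agent.H71.TD Pool.Agent.H90.TDP Pool.Agent.H46.GA Pool.Agent.H46.GP

theorem bb_cls (p L c x ℓ : ℕ) (hp : 1 ≤ p) (hL : 16 * p ≤ L) (hc : c < 7)
    (h1 : lo p L c ≤ x) (h2 : x < hi p L c) (h : ℓ ∈ BB p L x) :
    bx L c ≤ ℓ ∧ ℓ < bx L (c + 2) := by
  unfold BB at h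
  rw [mem_Ico] at h
  obtain ⟨h3, h4⟩ := h
  have h5 := min_le_left (x - (p - 1)) (L - (2 * p - 1))
  have h6 := min_le_right (x - (p - 1)) (L - (2 * p - 1))
  have h7 : min (x - (p - 1)) (L - (2 * p - 1)) = x - (p - 1) ∨
      min (x - (p - 1)) (L - (2 * p - 1)) = L - (2 * p - 1) := by
    rcases le_total (x - (p - 1)) (L - (2 * p - 1)) with h8 | h8
    · exact Or.inl (min_eq_left h8)
    · exact Or.inr (min_eq_right h8)
  revert h3 h4 h5 h6 h7
  generalize min (x - (p - 1)) (L - (2 * p - 1)) = m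
  intro h3 h4 h5 h6 h7
  unfold lo at h1
  unfold hi at h2
  unfold bx at *
  have h8 : c = 0 ∨ c = 1 ∨ c = 2 ∨ c = 3 ∨ c = 4 ∨ c = 5 ∨ c = 6 := by omega
  rcases h8 with rfl | rfl | rfl | rfl | rfl | rfl | rfl
  · rw [if_pos rfl] at h1
    rw [if_neg (by omega)] at h2
    omega
  · rw [if_neg (by omega)] at h1
    rw [if_neg (by omega)] at h2
    omega
  · rw [if_neg (by omega)] at h1
    rw [if_neg (by omega)] at h2
    omega
  · rw [if_neg (by omega)] at h1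
    rw [if_neg (by omega)] at h2
    omega
  · rw [if_neg (by omega)] at h1
    rw [if_neg (by omega)] at h2
    omega
  · rw [if_neg (by omega)] at h1
    rw [if_neg (by omega)] at h2
    omega
  · rw [if_neg (by omega)] at h1
    rw [if_pos rfl] at h2
    omega

theorem lo_T (p L t c x : ℕ) (hL : 48 * p + 16 * t + 16 ≤ L) (hx : x ≤ 6 * p + 2 * t)
    (h : lo p L c ≤ x) : c = 0 := by
  by_contra h1
  unfold lo at h
  rw [if_neg h1] at h
  unfold bx at h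
  have h2 : 1 * L / 8 ≤ c * L / 8 := Nat.div_le_div_right (Nat.mul_le_mul_right _ (by omega))
  omega

theorem hi_K (p L c x : ℕ) (hc : c < 7) (hp : 1 ≤ p) (hx : bx L 7 + 2 * p ≤ x)
    (h : x < hi p L c) : c = 6 := by
  by_contra h1
  unfold hi at h
  rw [if_neg h1] at h
  unfold bx at h hx
  have h2 : (c + 2) * L / 8 ≤ 7 * L / 8 :=
    Nat.div_le_div_right (Nat.mul_le_mul_right _ (by omega))
  omega

end Pool.Agent.H46.G2
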