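import Mathlib

/-!
THR: a sequence of numbers `a x`, `x < L`, is cut into `R` parts with prescribed sums `n j`, in the given order.

Proof.  `U x := ∑_{y < x} a y`, `S j := ∑_{i < j} n i`, `U L = S R` (`hsum`). `b j x := min (U (x + 1)) (S (j + 1)) - max (U x) (S j)` (natural subtraction), the number of elements of `Ico (U x) (U (x + 1)) ∩ Ico (S j) (S (j + 1))` (one may define `b j x` as this cardinality: `Finset.card_eq_sum_card_fiberwise`-style arguments become easy).
 `∑_{j < R} b j x = #(Ico (U x) (U (x + 1))) = a x` for `x < L` since the intervals `Ico (S j) (S (j + 1))`, `j < R`, are a partition of `Ico 0 (S R)` and `U (x + 1) ≤ U L = S R`. `∑_{x < L} b j x = #(Ico (S j) (S (j + 1))) = n j` in the same way. `b j x ≤ a x`: clear.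
 If `b j x ≠ 0`, `x < L`, then `max (U x) (S j) < min (U (x + 1)) (S (j + 1))`: `S j < U (x + 1)` and `U (lo j) ≤ S j` give `U (lo j) < U (x + 1)`, so `lo j < x + 1` (`U` is monotone); `U x < S (j + 1) ≤ U (hi j)` gives `x < hi j`.
-/

set_option autoImplicit false

namespace Pool.Agent.H46.G2

open Finset Classical

private noncomputable def thr_f (A : Finset ℕ) (P : ℕ → Prop) : Finset ℕ := A.filter P

private theorem thr_mem {A : Finset ℕ} {P : ℕ → Prop} {t : ℕ} :
    t ∈ thr_f A P ↔ t ∈ A ∧ P t := by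
  unfold thr_f
  exact mem_filter

private noncomputable def thr_cf (A : Finset ℕ) (P : ℕ → Prop) : ℕ := (thr_f A P).card

private theorem thr_congr {A : Finset ℕ} {P Q : ℕ → Prop} (h : ∀ t ∈ A, P t ↔ Q t) :
    thr_cf A P = thr_cf A Q := by
  unfold thr_cf thr_f
  rw [filter_congr h]

private theorem thr_part (S : ℕ → ℕ) (hS0 : S 0 = 0) (hS : ∀ j, S j ≤ S (j + 1))
    (A : Finset ℕ) (P : ℕ → Prop) (R : ℕ) :
    ∑ j ∈ range R, thr_cf A (fun t => P t ∧ (S j ≤ t ∧ t < S (j + 1))) =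
      thr_cf A (fun t => P t ∧ t < S R) := by
  unfold thr_cf
  induction R with
  | zero =>
    rw [sum_range_zero, eq_comm, card_eq_zero, eq_empty_iff_forall_notMem]
    intro t ht
    have h := (thr_mem.mp ht).2.2
    rw [hS0] at h
    exact absurd h (Nat.not_lt_zero t)
  | succ R ih =>
    rw [sum_range_succ, ih, ← card_union_of_disjoint]
    · congr 1
      ext t
      have h := hS R
      simp only [mem_union, thr_mem]
      constructor
      · rintro (⟨h1, h4, h2⟩ | ⟨h1, h4, h2, h3⟩)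
        · exact ⟨h1, h4, by omega⟩
        · exact ⟨h1, h4, h3⟩
      · rintro ⟨h1, h4, h2⟩
        by_cases h3 : t < S R
        · exact Or.inl ⟨h1, h4, h3⟩
        · exact Or.inr ⟨h1, h4, by omega, h2⟩
    · rw [disjoint_left]
      intro t h1 h2
      rw [thr_mem] at h1 h2
      omega

private theorem thr_mono (a : ℕ → ℕ) {x y : ℕ} (h : x ≤ y) :
    ∑ i ∈ range x, a i ≤ ∑ i ∈ range y, a i :=
  sum_le_sum_of_subset (range_mono h)

private theorem thr_ico (a : ℕ → ℕ) (A : Finset ℕ) (x : ℕ)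
    (hA : ∀ t, t < ∑ i ∈ range (x + 1), a i → t ∈ A) :
    thr_cf A (fun t => ∑ i ∈ range x, a i ≤ t ∧ t < ∑ i ∈ range (x + 1), a i) = a x := by
  have h : thr_f A (fun t => ∑ i ∈ range x, a i ≤ t ∧ t < ∑ i ∈ range (x + 1), a i) =
      Ico (∑ i ∈ range x, a i) (∑ i ∈ range (x + 1), a i) := by
    ext t
    rw [thr_mem, mem_Ico]
    exact ⟨fun h => h.2, fun h => ⟨hA t h.2, h⟩⟩
  have h2 : (Ico (∑ i ∈ range x, a i) (∑ i ∈ range (x + 1), a i)).card = a x := by
    rw [Nat.card_Ico, sum_range_succ, Nat.add_sub_cancel_left]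
  unfold thr_cf
  rw [h, h2]

theorem thr (L R : ℕ) (a n lo hi : ℕ → ℕ)
    (hsum : ∑ x ∈ range L, a x = ∑ j ∈ range R, n j)
    (hlo : ∀ j < R, ∑ x ∈ range (lo j), a x ≤ ∑ i ∈ range j, n i)
    (hhi : ∀ j < R, ∑ i ∈ range (j + 1), n i ≤ ∑ x ∈ range (hi j), a x) :
    ∃ b : ℕ → ℕ → ℕ, (∀ x < L, ∑ j ∈ range R, b j x = a x) ∧
      (∀ j < R, ∑ x ∈ range L, b j x = n j) ∧ (∀ j x, b j x ≤ a x) ∧
      ∀ j < R, ∀ x < L, b j x ≠ 0 → lo j ≤ x ∧ x < hi j := by
  have hU : ∀ x, ∑ i ∈ range x, a i ≤ ∑ i ∈ range (x + 1), a i :=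
    fun x => thr_mono a (Nat.le_succ x)
  have hS : ∀ x, ∑ i ∈ range x, n i ≤ ∑ i ∈ range (x + 1), n i :=
    fun x => thr_mono n (Nat.le_succ x)
  refine ⟨fun j x => thr_cf (range (∑ i ∈ range L, a i)) (fun t =>
    (∑ i ∈ range x, a i ≤ t ∧ t < ∑ i ∈ range (x + 1), a i) ∧
      (∑ i ∈ range j, n i ≤ t ∧ t < ∑ i ∈ range (j + 1), n i)), ?_, ?_, ?_, ?_⟩
  · intro x hx
    refine Eq.trans (thr_part (fun j => ∑ i ∈ range j, n i) (by simp) hS
      (range (∑ i ∈ range L, a i))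
      (fun t => ∑ i ∈ range x, a i ≤ t ∧ t < ∑ i ∈ range (x + 1), a i) R) ?_
    refine Eq.trans (thr_congr fun t ht => ?_) (thr_ico a (range (∑ i ∈ range L, a i)) x
      fun t ht => ?_)
    · rw [mem_range, hsum] at ht
      exact ⟨fun h => h.1, fun h => ⟨h, ht⟩⟩
    · rw [mem_range]
      exact lt_of_lt_of_le ht (thr_mono a hx)
  · intro j hj
    refine Eq.trans (sum_congr rfl fun x _ => thr_congr fun t _ => and_comm) ?_
    refine Eq.trans (thr_part (fun j => ∑ i ∈ range j, a i) (by simp) hU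
      (range (∑ i ∈ range L, a i))
      (fun t => ∑ i ∈ range j, n i ≤ t ∧ t < ∑ i ∈ range (j + 1), n i) L) ?_
    refine Eq.trans (thr_congr fun t ht => ?_) (thr_ico n (range (∑ i ∈ range L, a i)) j
      fun t ht => ?_)
    · rw [mem_range] at ht
      exact ⟨fun h => h.1, fun h => ⟨h, ht⟩⟩
    · rw [mem_range, hsum]
      exact lt_of_lt_of_le ht (thr_mono n hj)
  · intro j x
    have h1 : (Ico (∑ i ∈ range x, a i) (∑ i ∈ range (x + 1), a i)).card = a x := by
      rw [Nat.card_Ico, sum_range_succ, Nat.add_sub_cancel_left]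
    refine le_trans (card_le_card ?_) h1.le
    intro t ht
    rw [thr_mem] at ht
    rw [mem_Ico]
    exact ht.2.1
  · intro j hj x hx hb
    obtain ⟨t, ht⟩ := card_pos.mp (Nat.pos_of_ne_zero hb)
    rw [thr_mem] at ht
    obtain ⟨_, ⟨h1, h2⟩, h3, h4⟩ := ht
    constructor
    · by_contra hc
      have h5 : ∑ i ∈ range (x + 1), a i ≤ ∑ i ∈ range (lo j), a i := thr_mono a (by omega)
      have h6 := hlo j hj
      omega
    · by_contra hc
      have h5 : ∑ i ∈ range (hi j), a i ≤ ∑ i ∈ range x, a i := thr_mono a (by omega)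
      have h6 := hhi j hj
      omega

end Pool.Agent.H46.G2
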