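import Mathlib
import Pool.Agent.H46.G2.Thr
import Pool.Agent.H46.G2.Bcl

/-!
DCZ: the numbers are distributed to the seven classes. Use the STATEMENT of `thr` (`G2/Thr.lean`).

Proof.  `L := Δ + 2 p`. Let `j < 2 k` be a piece, `N := #pt nd j`, `n c := #{v ∈ pt nd j : v ∉ W, cl v = c}`. If all `v` with `nd v = j` are in `W` then `∑_{ℓ < L} a j ℓ = 0` and `n c = 0`; put `ac j c ℓ := 0`. Otherwise apply `thr L 7 (a j) n (lo p L) (hi p L)`:
 * `hsum`: `hA.sum` and `hF.clt` (the classes `c < 7` are a partition of the `v ∈ pt nd j`, `v ∉ W`).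
 * `hlo`: `c = 0`: `lo p L 0 = 0`. `1 ≤ c < 7`: `lo p L c = bx L c + p`, `8 U (lo c) ≤ c N + 8 E0` (`hA.l1`). `S c := ∑_{i < c} n i ≥ ∑_{i < c} #{v ∈ pt nd j : cl v = i} - #{v ∈ W : nd v = j}`, `7 #{cl = i} ≥ N - 7 E` (`hF.szc`), `8 #{v ∈ W : nd v = j} ≤ z` (`hA.wl`): `7 S c ≥ c N - 7 c E - z`. So `56 U ≤ 7 c N + 56 E0 ≤ 8 c N - 56 c E - 8 z ≤ 56 S c` since
   `c N ≥ N ≥ (9/10) Δ` (`hF.big`, `hF.bal`; `j = 2 i` or `j = 2 i + 1`; for `ty i` the piece `2 i + 1` is empty) and `hN`; more precisely `c N ≥ 56 E0 + 56 c E + 8 z` follows from `N ≥ 56 (E0 + E + z)`.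
 * `hhi`: `c ≤ 5`: `hi p L c = bx L (c + 2) - p`, `(c + 2) N ≤ 8 U (hi c) + 8 E0` (`hA.l2`), `7 S (c + 1) ≤ (c + 1) (N + 7 E)`, so `56 S (c + 1) ≤ 8 (c + 1) (N + 7 E) ≤ 7 (c + 2) N - 56 E0 ≤ 56 U` since `(6 - c) N ≥ 56 E0 + 56 (c + 1) E`. `c = 6`: `hi p L 6 = L`, equality by `hsum`.
-/

set_option autoImplicit false

namespace Pool.Agent.H46.G2

open Finset Classical
open Pool.Agent.H71.DN Pool.Agent.H71.DX Pool.Agent.H71.DR Pool.Agent.H71.HL Pool.Agent.H71.DC
open Pool.Agent.H71.TD Pool.Agent.H90.TDP Pool.Agent.H46.GA Pool.Agent.H46.GP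

/-- The sum over the first `c` classes of the vertices of `A` is at most `#A`. -/
theorem dcz_fib {V : Type} (A : Finset V) (cl : V → ℕ) (c : ℕ) :
    ∑ i ∈ range c, (A.filter fun v => cl v = i).card ≤ A.card := by
  have h1 : ∑ i ∈ range c, (A.filter fun v => cl v = i).card =
      (A.filter fun v => cl v ∈ range c).card := by
    rw [Finset.card_eq_sum_card_fiberwise (f := cl) (t := range c)
      (s := A.filter fun v => cl v ∈ range c)]
    · refine Finset.sum_congr rfl fun i hi => ?_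
      congr 1
      ext v
      simp only [Finset.mem_filter]
      constructor
      · rintro ⟨h1, h2⟩
        exact ⟨⟨h1, by rw [h2]; exact hi⟩, h2⟩
      · rintro ⟨⟨h1, _⟩, h2⟩
        exact ⟨h1, h2⟩
    · intro v hv
      have := (Finset.mem_filter.1 (Finset.mem_coe.1 hv)).2
      exact this
  rw [h1]
  exact Finset.card_le_card (Finset.filter_subset _ _)

theorem dcz_all {V : Type} (A : Finset V) (cl : V → ℕ) (c : ℕ) (h : ∀ v ∈ A, cl v < c) :
    ∑ i ∈ range c, (A.filter fun v => cl v = i).card = A.card := by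
  rw [Finset.card_eq_sum_card_fiberwise (f := cl) (t := range c) (s := A)]
  intro v hv
  exact Finset.mem_coe.2 (Finset.mem_range.2 (h v (Finset.mem_coe.1 hv)))

/-- One piece. -/
theorem dcz_one {V : Type} [Fintype V] (G : SimpleGraph V) (Δ p k : ℕ) (ty : ℕ → Prop)
    (nd qt cl un : V → ℕ) (sf : ℕ → Finset V) (t : ℕ) (φ : ℕ → V → V) (c0 : V → ℕ)
    (d D r z e E kap K1 : ℕ)
    (hF : Fz G Δ p k ty nd qt cl un sf t φ c0 d D r z e E kap K1) (E0 K : ℕ)
    (W : Finset V) (lam : V → ℕ) (a : ℕ → ℕ → ℕ)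
    (hA : Dn G Δ p k ty nd cl t c0 z E0 K W lam a)
    (hN : 70 * (7 * E + z + E0) ≤ Δ) (j : ℕ) (hj : j < 2 * k)
    (hex : ∃ v, nd v = j ∧ v ∉ W) :
    ∃ b : ℕ → ℕ → ℕ, (∀ c ℓ, b c ℓ ≤ a j ℓ) ∧
      (∀ c < 7, ∑ ℓ ∈ range (Δ + 2 * p), b c ℓ =
        ((pt nd j).filter fun v => v ∉ W ∧ cl v = c).card) ∧
      (∀ ℓ < Δ + 2 * p, ∑ c ∈ range 7, b c ℓ = a j ℓ) ∧
      ∀ c < 7, ∀ ℓ < Δ + 2 * p, b c ℓ ≠ 0 →
        lo p (Δ + 2 * p) c ≤ ℓ ∧ ℓ < hi p (Δ + 2 * p) c := by
  set n : ℕ → ℕ := fun c => ((pt nd j).filter fun v => v ∉ W ∧ cl v = c).card with hn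
  set w : ℕ → ℕ := fun c => ((W.filter fun v => nd v = j).filter fun v => cl v = c).card with hw
  set m : ℕ → ℕ := fun c => ((pt nd j).filter fun v => cl v = c).card with hm
  set N : ℕ := (pt nd j).card with hNN
  have hmn : ∀ c, m c ≤ n c + w c := by
    intro c
    have h1 : (pt nd j).filter (fun v => cl v = c) ⊆
        ((pt nd j).filter fun v => v ∉ W ∧ cl v = c) ∪
          ((W.filter fun v => nd v = j).filter fun v => cl v = c) := by
      intro v hv
      rw [Finset.mem_filter] at hv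
      have hnd : nd v = j := (Finset.mem_filter.1 hv.1).2
      by_cases hvW : v ∈ W
      · exact Finset.mem_union_right _
          (Finset.mem_filter.2 ⟨Finset.mem_filter.2 ⟨hvW, hnd⟩, hv.2⟩)
      · exact Finset.mem_union_left _ (Finset.mem_filter.2 ⟨hv.1, hvW, hv.2⟩)
    exact (Finset.card_le_card h1).trans (Finset.card_union_le _ _)
  have hnm : ∀ c, n c ≤ m c := by
    intro c
    refine Finset.card_le_card ?_
    intro v hv
    rw [Finset.mem_filter] at hv
    exact Finset.mem_filter.2 ⟨hv.1, hv.2.2⟩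
  have hw8 : ∀ c, 8 * ∑ i ∈ range c, w i ≤ z := by
    intro c
    have h1 := dcz_fib (W.filter fun v => nd v = j) cl c
    have h2 := hA.wl j hj hex
    exact (Nat.mul_le_mul_left 8 h1).trans h2
  have hNbig : 63 * (7 * E + z + E0) ≤ N := by
    have h9 : 9 * Δ ≤ 10 * N := by
      rcases Nat.even_or_odd' j with ⟨i, hi | hi⟩
      · have hik : i < k := by omega
        have := hF.big i hik
        rw [hNN, hi]
        exact this
      · have hik : i < k := by omega
        have hty : ¬ ty i := by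
          intro hty
          have h1 := hF.odd i hik hty
          obtain ⟨v, hv1, _⟩ := hex
          have h2 : v ∈ pt nd (2 * i + 1) := by
            unfold pt
            exact Finset.mem_filter.2 ⟨Finset.mem_univ _, by rw [hv1, hi]⟩
          rw [h1] at h2
          exact absurd h2 (Finset.notMem_empty _)
        have h1 := hF.big i hik
        rw [hF.bal i hik hty] at h1
        rw [hNN, hi]
        exact h1
    omega
  have hmlo : ∀ c ≤ 7, c * N ≤ 7 * ∑ i ∈ range c, m i + 7 * (c * E) := by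
    intro c
    induction c with
    | zero => intro _; simp
    | succ c ih =>
      intro hc
      have h1 := ih (by omega)
      have h2 := (hF.szc j hj c (by omega)).2
      have h3 : N ≤ 7 * m c + 7 * E := h2
      rw [Finset.sum_range_succ]
      have e1 : (c + 1) * N = c * N + N := by ring
      have e2 : 7 * ((c + 1) * E) = 7 * (c * E) + 7 * E := by ring
      rw [e1, e2]
      omega
  have hmhi : ∀ c ≤ 7, 7 * ∑ i ∈ range c, m i ≤ c * N + 7 * (c * E) := by
    intro c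
    induction c with
    | zero => intro _; simp
    | succ c ih =>
      intro hc
      have h1 := ih (by omega)
      have h2 := (hF.szc j hj c (by omega)).1
      have h3 : 7 * m c ≤ N + 7 * E := h2
      rw [Finset.sum_range_succ]
      have e1 : (c + 1) * N = c * N + N := by ring
      have e2 : 7 * ((c + 1) * E) = 7 * (c * E) + 7 * E := by ring
      rw [e1, e2]
      omega
  have hSn : ∀ c, ∑ i ∈ range c, m i ≤ ∑ i ∈ range c, n i + ∑ i ∈ range c, w i := by
    intro c
    rw [← Finset.sum_add_distrib]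
    exact Finset.sum_le_sum fun i _ => hmn i
  have hSm : ∀ c, ∑ i ∈ range c, n i ≤ ∑ i ∈ range c, m i := by
    intro c
    exact Finset.sum_le_sum fun i _ => hnm i
  have hsum : ∑ x ∈ range (Δ + 2 * p), a j x = ∑ i ∈ range 7, n i := by
    rw [hA.sum j hj]
    have h1 := dcz_all ((pt nd j).filter fun v => v ∉ W) cl 7 (fun v _ => hF.clt v)
    rw [← h1]
    refine Finset.sum_congr rfl fun i _ => ?_
    rw [hn]
    simp only [Finset.filter_filter]
  obtain ⟨b, hb1, hb2, hb3, hb4⟩ := thr (Δ + 2 * p) 7 (a j) n (lo p (Δ + 2 * p))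
    (hi p (Δ + 2 * p)) hsum
    (by
      intro c hc
      rcases Nat.eq_zero_or_pos c with h0 | hpos
      · subst h0
        simp [lo]
      · have hlo : lo p (Δ + 2 * p) c = bx (Δ + 2 * p) c + p := by
          unfold lo
          rw [if_neg (by omega)]
        rw [hlo]
        have h1 := hA.l1 j hj hex c (by omega)
        rw [← hNN] at h1
        have h2 := hmlo c (by omega)
        have h3 := hSn c
        have h4 := hw8 c
        have h5 : c * (56 * E + 7 * z + 56 * E0) ≤ c * N := Nat.mul_le_mul_left c (by omega)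
        have h6 : 1 * (7 * z + 56 * E0) ≤ c * (7 * z + 56 * E0) :=
          Nat.mul_le_mul_right _ (by omega)
        have e1 : c * (56 * E + 7 * z + 56 * E0) = 56 * (c * E) + c * (7 * z + 56 * E0) := by
          ring
        rw [e1] at h5
        omega)
    (by
      intro c hc
      rcases Nat.lt_or_ge c 6 with h6 | h6
      · have hhi : hi p (Δ + 2 * p) c = bx (Δ + 2 * p) (c + 2) - p := by
          unfold hi
          rw [if_neg (by omega)]
        rw [hhi]
        have h1 := hA.l2 j hj hex (c + 2) (by omega)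
        rw [← hNN] at h1
        have h2 := hmhi (c + 1) (by omega)
        have h3 := hSm (c + 1)
        interval_cases c <;> omega
      · have hc6 : c = 6 := by omega
        subst hc6
        have hhi : hi p (Δ + 2 * p) 6 = Δ + 2 * p := by
          unfold hi
          rw [if_pos rfl]
        rw [hhi, hsum])
  refine ⟨b, ?_, ?_, ?_, ?_⟩
  · exact fun c ℓ => hb3 c ℓ
  · intro c hc
    exact hb2 c hc
  · intro ℓ hℓ
    exact hb1 ℓ hℓ
  · intro c hc ℓ hℓ h
    exact hb4 c hc ℓ hℓ h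

theorem dcz {V : Type} [Fintype V] (G : SimpleGraph V) (Δ p k : ℕ) (ty : ℕ → Prop)
    (nd qt cl un : V → ℕ) (sf : ℕ → Finset V) (t : ℕ) (φ : ℕ → V → V) (c0 : V → ℕ)
    (d D r z e E kap K1 : ℕ)
    (hF : Fz G Δ p k ty nd qt cl un sf t φ c0 d D r z e E kap K1) (E0 K : ℕ)
    (W : Finset V) (lam : V → ℕ) (a : ℕ → ℕ → ℕ)
    (hA : Dn G Δ p k ty nd cl t c0 z E0 K W lam a)
    (hN : 70 * (7 * E + z + E0) ≤ Δ) :
    ∃ ac : ℕ → ℕ → ℕ → ℕ, Dc Δ p k nd cl W a ac := by
  have key : ∀ j, ∃ b : ℕ → ℕ → ℕ, (∀ c ℓ, b c ℓ ≤ a j ℓ) ∧ (j < 2 * k →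
      (∀ c < 7, ∑ ℓ ∈ range (Δ + 2 * p), b c ℓ =
        ((pt nd j).filter fun v => v ∉ W ∧ cl v = c).card) ∧
      (∀ ℓ < Δ + 2 * p, ∑ c ∈ range 7, b c ℓ = a j ℓ) ∧
      ∀ c < 7, ∀ ℓ < Δ + 2 * p, b c ℓ ≠ 0 →
        lo p (Δ + 2 * p) c ≤ ℓ ∧ ℓ < hi p (Δ + 2 * p) c) := by
    intro j
    by_cases hj : j < 2 * k
    · by_cases hex : ∃ v, nd v = j ∧ v ∉ W
      · obtain ⟨b, h1, h2, h3, h4⟩ := dcz_one G Δ p k ty nd qt cl un sf t φ c0 d D r z e E kap K1
          hF E0 K W lam a hA hN j hj hex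
        exact ⟨b, h1, fun _ => ⟨h2, h3, h4⟩⟩
      · refine ⟨fun _ _ => 0, fun c ℓ => Nat.zero_le _, fun _ => ⟨?_, ?_, ?_⟩⟩
        · intro c hc
          rw [Finset.sum_const_zero]
          symm
          rw [Finset.card_eq_zero, Finset.filter_eq_empty_iff]
          intro v hv h
          exact hex ⟨v, (Finset.mem_filter.1 hv).2, h.1⟩
        · intro ℓ hℓ
          rw [Finset.sum_const_zero]
          have h0 : ((pt nd j).filter fun v => v ∉ W).card = 0 := by
            rw [Finset.card_eq_zero, Finset.filter_eq_empty_iff]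
            intro v hv h
            exact hex ⟨v, (Finset.mem_filter.1 hv).2, h⟩
          have h1 := hA.sum j hj
          rw [h0, Finset.sum_eq_zero_iff] at h1
          exact (h1 ℓ (Finset.mem_range.2 hℓ)).symm
        · intro c hc ℓ hℓ h
          exact absurd rfl h
    · exact ⟨fun _ _ => 0, fun c ℓ => Nat.zero_le _, fun h => absurd h hj⟩
  choose ac h1 h2 using key
  refine ⟨ac, ⟨?_, ?_, ?_, ?_⟩⟩
  · intro j hj c hc
    exact (h2 j hj).1 c hc
  · intro j c ℓ
    exact h1 j c ℓ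
  · intro j hj ℓ hℓ
    exact (h2 j hj).2.1 ℓ hℓ
  · intro j hj c hc ℓ hℓ h
    exact (h2 j hj).2.2 c hc ℓ hℓ h

end Pool.Agent.H46.G2
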