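import Mathlib
import Pool.Agent.H46.GP.Bbl

/-!
NMU: numbers of colours for a nearly bipartite part on one run of labels `[s1, s1 + (2 p - 1) n1)`, periodic modulo `2 p - 1` and evenly spread in every period (`p ≥ 2`). Use the STATEMENTS of `GP/Bbl.lean`.

Proof.  `m := 2 p - 1`. `σ b := h / n1 + (if b < h % n1 then 1 else 0)` for `b < n1`; `∑_{b < n1} σ b = h`. Inside the period `b` (labels `s1 + m b + o`, `o < m`): `al` at `o = 2 i`, `i < p`: `(i + 1) σ b / p - i σ b / p` (natural division), `be` at `o = 2 i + 1`, `i < p - 1`: `(i + 1) σ b / (p - 1) - i σ b / (p - 1)`; all other values `0`. They are at most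
 `σ b / (p - 1) + 1 ≤ K` (`hK`: `σ b ≤ h / n1 + 1 ≤ (K - 1) (p - 1)`), their sums over the period are `σ b`.
 Let `C x := ∑_{y < x} (al y - be y)` (in `ℤ`). At the ends of the periods `C = 0`, and inside a period `C (s1 + m b + o) = a - b'` with `a = ⌈o / 2⌉ σ b / p`, `b' = ⌊o / 2⌋ σ b / (p - 1)` (floors of the products): `|C| ≤ K` (for `o = 2 i`: `i σ / (p - 1) - i σ / p = i σ / (p (p - 1)) ≤ σ / (p - 1)` up to rounding by less than `1`; for `o = 2 i + 1`: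
 `(i + 1) σ / p - i σ / (p - 1) = σ (p - 1 - i) / (p (p - 1))` up to rounding). So `|C x| ≤ K` for all `x`.
 For `ℓ < L`: if `al j ≠ 0` or `be j ≠ 0` then `p ≤ j`, `j + p ≤ L`, and `ℓ ∈ BB p L j ↔ Nr p j ℓ ↔ ℓ + 1 - p ≤ j < ℓ + p` (`bb_mid`); so `sw p L al ℓ - sw p L be ℓ = C (ℓ + p) - C (ℓ + 1 - p)` (natural subtraction; `C = 0` on `[0, s1]`, `p ≤ s1`). Hence its absolute value is at most `2 K`.
 With `y := ℓ + 1 - p`, `ℓ + p = y + m`: if `y = s1 + m b + o`, `b + 1 < n1` and `σ b = σ (b + 1)` then `C (y + m) = C y`, so the value is `0`. It is `0` also if `y + m ≤ s1` or `s1 + m n1 ≤ y`. The remaining `ℓ` have `s1 - m < y < s1`, or `y` in the period `n1 - 1`, or `y` in the period `b` with `σ b ≠ σ (b + 1)` (one `b`, `b + 1 = h % n1`): at most `3 m`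
 labels: the sum of the absolute values is at most `3 m * 2 K ≤ 12 p K`.
-/

set_option autoImplicit false

namespace Pool.Agent.H46.G2

open Finset Classical
open Pool.Agent.H71.DN Pool.Agent.H71.DX Pool.Agent.H71.DR Pool.Agent.H71.HL Pool.Agent.H71.DC
open Pool.Agent.H71.TD Pool.Agent.H90.TDP Pool.Agent.H46.GA Pool.Agent.H46.GP

/-- The numbers of the periods. -/
def NmU_sg (n1 h b : ℕ) : ℕ := h / n1 + if b < h % n1 then 1 else 0

/-- The cumulative function of the first kind in a period. -/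
def NmU_TA (q σ o : ℕ) : ℕ := (o + 1) / 2 * σ / (q + 1)

/-- The cumulative function of the second kind in a period. -/
def NmU_TB (q σ o : ℕ) : ℕ := o / 2 * σ / q

/-- The cumulative function on the run. -/
def NmU_G (m : ℕ) (sg : ℕ → ℕ) (T : ℕ → ℕ → ℕ) (y : ℕ) : ℕ :=
  ∑ b ∈ range (y / m), sg b + T (sg (y / m)) (y % m)

/-- The cumulative function. -/
def NmU_F (m s1 n1 : ℕ) (sg : ℕ → ℕ) (T : ℕ → ℕ → ℕ) (x : ℕ) : ℕ :=
  NmU_G m sg T (min (x - s1) (m * n1))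

theorem NmU_G_eq {m : ℕ} (hm : 0 < m) {sg : ℕ → ℕ} {T : ℕ → ℕ → ℕ} (h0 : ∀ σ, T σ 0 = 0)
    (h1 : ∀ σ, T σ m = σ) (b o : ℕ) (ho : o ≤ m) :
    NmU_G m sg T (m * b + o) = ∑ b' ∈ range b, sg b' + T (sg b) o := by
  rcases lt_or_eq_of_le ho with h | h
  · unfold NmU_G
    rw [Nat.mul_add_div hm, Nat.div_eq_of_lt h, add_zero, Nat.mul_add_mod, Nat.mod_eq_of_lt h]
  · subst h
    unfold NmU_G
    have h2 : o * b + o = o * (b + 1) := by ring
    rw [h2, Nat.mul_div_cancel_left _ hm, Nat.mul_mod_right, h0, h1, sum_range_succ, add_zero]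

theorem NmU_F_in {m : ℕ} (hm : 0 < m) {sg : ℕ → ℕ} {T : ℕ → ℕ → ℕ} (h0 : ∀ σ, T σ 0 = 0)
    (h1 : ∀ σ, T σ m = σ) {s1 n1 b o : ℕ} (hb : b < n1) (ho : o ≤ m) :
    NmU_F m s1 n1 sg T (s1 + (m * b + o)) = ∑ b' ∈ range b, sg b' + T (sg b) o := by
  unfold NmU_F
  have h2 : m * b + o ≤ m * n1 := by
    have h3 : m * (b + 1) ≤ m * n1 := Nat.mul_le_mul_left _ hb
    rw [mul_add, mul_one] at h3
    omega
  rw [Nat.add_sub_cancel_left, min_eq_left h2, NmU_G_eq hm h0 h1 b o ho]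

theorem NmU_F_lo {m : ℕ} (hm : 0 < m) {sg : ℕ → ℕ} {T : ℕ → ℕ → ℕ} (h0 : ∀ σ, T σ 0 = 0)
    {s1 n1 x : ℕ} (hx : x ≤ s1) : NmU_F m s1 n1 sg T x = 0 := by
  unfold NmU_F NmU_G
  rw [Nat.sub_eq_zero_of_le hx, Nat.zero_min, Nat.zero_div, Nat.zero_mod, h0]
  rfl

theorem NmU_F_hi {m : ℕ} (hm : 0 < m) {sg : ℕ → ℕ} {T : ℕ → ℕ → ℕ} (h0 : ∀ σ, T σ 0 = 0)
    {s1 n1 x : ℕ} (hx : s1 + m * n1 ≤ x) :
    NmU_F m s1 n1 sg T x = ∑ b ∈ range n1, sg b := by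
  unfold NmU_F NmU_G
  rw [min_eq_right (by omega), Nat.mul_div_cancel_left _ hm, Nat.mul_mod_right, h0, add_zero]

theorem NmU_dec {m : ℕ} (hm : 0 < m) {s1 n1 j : ℕ} (h1 : s1 ≤ j) (h2 : j < s1 + m * n1) :
    ∃ b < n1, ∃ o < m, j = s1 + (m * b + o) := by
  refine ⟨(j - s1) / m, ?_, (j - s1) % m, Nat.mod_lt _ hm, ?_⟩
  · rw [Nat.div_lt_iff_lt_mul hm, mul_comm]
    omega
  · rw [Nat.div_add_mod]
    omega

theorem NmU_F_mono {m : ℕ} (hm : 0 < m) {sg : ℕ → ℕ} {T : ℕ → ℕ → ℕ} (h0 : ∀ σ, T σ 0 = 0)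
    (h1 : ∀ σ, T σ m = σ) (hT : ∀ σ o, T σ o ≤ T σ (o + 1)) (s1 n1 : ℕ) :
    Monotone (NmU_F m s1 n1 sg T) := by
  refine monotone_nat_of_le_succ fun x => ?_
  by_cases hx : x < s1
  · rw [NmU_F_lo hm h0 hx.le]
    exact Nat.zero_le _
  by_cases hx' : s1 + m * n1 ≤ x
  · rw [NmU_F_hi hm h0 hx', NmU_F_hi hm h0 (by omega)]
  obtain ⟨b, hb, o, ho, rfl⟩ := NmU_dec hm (by omega : s1 ≤ x) (by omega : x < s1 + m * n1)
  have h2 : s1 + (m * b + o) + 1 = s1 + (m * b + (o + 1)) := by ring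
  rw [h2, NmU_F_in hm h0 h1 hb ho.le, NmU_F_in hm h0 h1 hb ho]
  exact Nat.add_le_add_left (hT _ _) _

/-- The increments of the cumulative function. -/
def NmU_a (m s1 n1 : ℕ) (sg : ℕ → ℕ) (T : ℕ → ℕ → ℕ) (j : ℕ) : ℕ :=
  NmU_F m s1 n1 sg T (j + 1) - NmU_F m s1 n1 sg T j

theorem NmU_a_out {m : ℕ} (hm : 0 < m) {sg : ℕ → ℕ} {T : ℕ → ℕ → ℕ} (h0 : ∀ σ, T σ 0 = 0)
    {s1 n1 j : ℕ} (hj : j < s1 ∨ s1 + m * n1 ≤ j) : NmU_a m s1 n1 sg T j = 0 := by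
  unfold NmU_a
  rcases hj with hj | hj
  · rw [NmU_F_lo hm h0 hj, Nat.zero_sub]
  · rw [NmU_F_hi hm h0 hj, NmU_F_hi hm h0 (by omega), Nat.sub_self]

theorem NmU_a_in {m : ℕ} (hm : 0 < m) {sg : ℕ → ℕ} {T : ℕ → ℕ → ℕ} (h0 : ∀ σ, T σ 0 = 0)
    (h1 : ∀ σ, T σ m = σ) {s1 n1 b o : ℕ} (hb : b < n1) (ho : o < m) :
    NmU_a m s1 n1 sg T (s1 + (m * b + o)) = T (sg b) (o + 1) - T (sg b) o := by
  unfold NmU_a
  have h2 : s1 + (m * b + o) + 1 = s1 + (m * b + (o + 1)) := by ring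
  rw [h2, NmU_F_in hm h0 h1 hb ho.le, NmU_F_in hm h0 h1 hb ho]
  exact Nat.add_sub_add_left _ _ _

theorem NmU_sum {m : ℕ} (hm : 0 < m) {sg : ℕ → ℕ} {T : ℕ → ℕ → ℕ} (h0 : ∀ σ, T σ 0 = 0)
    (h1 : ∀ σ, T σ m = σ) (hT : ∀ σ o, T σ o ≤ T σ (o + 1)) {s1 n1 : ℕ} (x : ℕ) :
    ∑ j ∈ range x, NmU_a m s1 n1 sg T j = NmU_F m s1 n1 sg T x := by
  unfold NmU_a
  rw [sum_range_tsub (NmU_F_mono hm h0 h1 hT s1 n1), NmU_F_lo hm h0 (Nat.zero_le _), Nat.sub_zero]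

theorem NmU_sw {p L s1 n1 : ℕ} (hp : 1 ≤ p) (hs : p ≤ s1) (hL : s1 + (2 * p - 1) * n1 + p ≤ L)
    {sg : ℕ → ℕ} {T : ℕ → ℕ → ℕ} (h0 : ∀ σ, T σ 0 = 0)
    (h1 : ∀ σ, T σ (2 * p - 1) = σ) (hT : ∀ σ o, T σ o ≤ T σ (o + 1)) {ℓ : ℕ} (hℓ : ℓ < L) :
    sw p L (NmU_a (2 * p - 1) s1 n1 sg T) ℓ + NmU_F (2 * p - 1) s1 n1 sg T (ℓ + 1 - p) =
      NmU_F (2 * p - 1) s1 n1 sg T (ℓ + p) := by
  have hm : 0 < 2 * p - 1 := by omega
  have e1 : sw p L (NmU_a (2 * p - 1) s1 n1 sg T) ℓ =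
      ∑ j ∈ range (ℓ + p), if Nr p j ℓ then NmU_a (2 * p - 1) s1 n1 sg T j else 0 := by
    unfold sw
    rw [sum_filter]
    have e2 : ∀ j, (if ℓ ∈ BB p L j then NmU_a (2 * p - 1) s1 n1 sg T j else 0) =
        if Nr p j ℓ then NmU_a (2 * p - 1) s1 n1 sg T j else 0 := by
      intro j
      by_cases hj : j < s1 ∨ s1 + (2 * p - 1) * n1 ≤ j
      · rw [NmU_a_out hm h0 hj, ite_self, ite_self]
      · push Not at hj
        have h3 := bb_mid p L j ℓ hp (by omega) (by omega)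
        simp only [h3]
    rw [sum_congr rfl fun j _ => e2 j]
    rcases le_total L (ℓ + p) with h | h
    · refine sum_subset (range_subset_range.2 h) fun j _ hj => ?_
      rw [mem_range] at hj
      rw [NmU_a_out hm h0 (Or.inr (by omega)), ite_self]
    · symm
      refine sum_subset (range_subset_range.2 h) fun j _ hj => ?_
      rw [mem_range] at hj
      refine if_neg fun h4 => hj h4.1
  have e3 : ∑ j ∈ range (ℓ + 1 - p), NmU_a (2 * p - 1) s1 n1 sg T j =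
      ∑ j ∈ range (ℓ + p), if ¬ Nr p j ℓ then NmU_a (2 * p - 1) s1 n1 sg T j else 0 := by
    rw [← sum_filter]
    refine sum_congr ?_ fun _ _ => rfl
    ext j
    rw [mem_filter, mem_range, mem_range]
    unfold Nr
    omega
  rw [← NmU_sum hm h0 h1 hT, ← NmU_sum hm h0 h1 hT, e1, e3, ← sum_add_distrib]
  refine sum_congr rfl fun j _ => ?_
  by_cases h : Nr p j ℓ
  · rw [if_pos h, if_neg (not_not.2 h), add_zero]
  · rw [if_neg h, if_pos h, zero_add]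

theorem NmU_TA_zero (q σ : ℕ) : NmU_TA q σ 0 = 0 := by
  unfold NmU_TA
  norm_num

theorem NmU_TB_zero (q σ : ℕ) : NmU_TB q σ 0 = 0 := by
  unfold NmU_TB
  norm_num

theorem NmU_TA_top (q σ : ℕ) : NmU_TA q σ (2 * q + 1) = σ := by
  unfold NmU_TA
  have h : (2 * q + 1 + 1) / 2 = q + 1 := by omega
  rw [h, Nat.mul_div_cancel_left _ (Nat.succ_pos q)]

theorem NmU_TB_top {q : ℕ} (hq : 0 < q) (σ : ℕ) : NmU_TB q σ (2 * q + 1) = σ := by
  unfold NmU_TB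
  have h : (2 * q + 1) / 2 = q := by omega
  rw [h, Nat.mul_div_cancel_left _ hq]

theorem NmU_TA_mono (q σ o : ℕ) : NmU_TA q σ o ≤ NmU_TA q σ (o + 1) := by
  unfold NmU_TA
  exact Nat.div_le_div_right (Nat.mul_le_mul_right _ (by omega))

theorem NmU_TB_mono (q σ o : ℕ) : NmU_TB q σ o ≤ NmU_TB q σ (o + 1) := by
  unfold NmU_TB
  exact Nat.div_le_div_right (Nat.mul_le_mul_right _ (by omega))

theorem NmU_TA_even (q σ i : ℕ) : NmU_TA q σ (2 * i) = i * σ / (q + 1) := by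
  unfold NmU_TA
  rw [show (2 * i + 1) / 2 = i by omega]

theorem NmU_TA_odd (q σ i : ℕ) : NmU_TA q σ (2 * i + 1) = (i + 1) * σ / (q + 1) := by
  unfold NmU_TA
  rw [show (2 * i + 1 + 1) / 2 = i + 1 by omega]

theorem NmU_TB_even (q σ i : ℕ) : NmU_TB q σ (2 * i) = i * σ / q := by
  unfold NmU_TB
  rw [show 2 * i / 2 = i by omega]

theorem NmU_TB_odd (q σ i : ℕ) : NmU_TB q σ (2 * i + 1) = i * σ / q := by
  unfold NmU_TB
  rw [show (2 * i + 1) / 2 = i by omega]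

theorem NmU_qA {q σ K i : ℕ} (hK : 1 ≤ K) (hσ : σ ≤ (K - 1) * q) :
    (i + 1) * σ / (q + 1) ≤ i * σ / (q + 1) + K := by
  obtain ⟨k, rfl⟩ : ∃ k, K = k + 1 := ⟨K - 1, by omega⟩
  rw [Nat.add_sub_cancel] at hσ
  have h1 : i * σ < (q + 1) * (i * σ / (q + 1) + 1) := Nat.lt_mul_div_succ _ (Nat.succ_pos q)
  set u := i * σ / (q + 1)
  have h2 : (i + 1) * σ < (u + (k + 1)) * (q + 1) := by nlinarith
  exact (Nat.div_lt_iff_lt_mul (Nat.succ_pos q)).2 h2 |>.le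

theorem NmU_qB {q σ K i : ℕ} (hq : 0 < q) (hK : 1 ≤ K) (hσ : σ ≤ (K - 1) * q) :
    (i + 1) * σ / q ≤ i * σ / q + K := by
  obtain ⟨k, rfl⟩ : ∃ k, K = k + 1 := ⟨K - 1, by omega⟩
  rw [Nat.add_sub_cancel] at hσ
  have h1 : i * σ < q * (i * σ / q + 1) := Nat.lt_mul_div_succ _ hq
  set u := i * σ / q
  have h2 : (i + 1) * σ < (u + (k + 1)) * q := by nlinarith
  exact (Nat.div_lt_iff_lt_mul hq).2 h2 |>.le

theorem NmU_qC {q σ K i : ℕ} (hq : 0 < q) (hK : 1 ≤ K) (hσ : σ ≤ (K - 1) * q) (hi : i ≤ q) :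
    i * σ / (q + 1) ≤ i * σ / q ∧ i * σ / q ≤ i * σ / (q + 1) + K := by
  refine ⟨Nat.div_le_div_left (Nat.le_succ q) hq, ?_⟩
  obtain ⟨k, rfl⟩ : ∃ k, K = k + 1 := ⟨K - 1, by omega⟩
  rw [Nat.add_sub_cancel] at hσ
  have h1 : i * σ < (q + 1) * (i * σ / (q + 1) + 1) := Nat.lt_mul_div_succ _ (Nat.succ_pos q)
  set u := i * σ / (q + 1)
  have h3 : i * σ ≤ q * (k * q) := Nat.mul_le_mul hi hσ
  have h2 : i * σ < (u + (k + 1)) * q := by
    by_contra hcon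
    push Not at hcon
    have h4 : (q + 1) * ((u + (k + 1)) * q) ≤ (q + 1) * (i * σ) := Nat.mul_le_mul_left _ hcon
    have h5 : q * (i * σ) < q * ((q + 1) * (u + 1)) := Nat.mul_lt_mul_of_pos_left h1 hq
    have h6 : (q + 1) * (i * σ) = q * (i * σ) + i * σ := by ring
    have h7 : (q + 1) * ((u + (k + 1)) * q) = q * ((q + 1) * (u + 1)) + q * (k * q) + k * q := by ring
    have h8 := Nat.zero_le (k * q)
    omega
  exact (Nat.div_lt_iff_lt_mul hq).2 h2 |>.le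

theorem NmU_qD {q σ K i : ℕ} (hq : 0 < q) (hK : 1 ≤ K) (hσ : σ ≤ (K - 1) * q) (hi : i ≤ q) :
    i * σ / q ≤ (i + 1) * σ / (q + 1) ∧ (i + 1) * σ / (q + 1) ≤ i * σ / q + K := by
  obtain ⟨k, rfl⟩ : ∃ k, K = k + 1 := ⟨K - 1, by omega⟩
  rw [Nat.add_sub_cancel] at hσ
  constructor
  · rw [Nat.le_div_iff_mul_le (by omega : 0 < q + 1)]
    have h1 : i * σ / q * q ≤ i * σ := Nat.div_mul_le_self _ _
    have h2 : i * σ / q ≤ σ := by
      have h3 : i * σ / q ≤ q * σ / q := Nat.div_le_div_right (Nat.mul_le_mul_right _ hi)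
      rwa [Nat.mul_div_cancel_left _ hq] at h3
    generalize i * σ / q = w at *
    have h4 : w * (q + 1) = w * q + w := by ring
    have h5 : (i + 1) * σ = i * σ + σ := by ring
    omega
  · have h1 : i * σ < q * (i * σ / q + 1) := Nat.lt_mul_div_succ _ hq
    generalize i * σ / q = w at *
    have h2 : (i + 1) * σ < (w + (k + 1)) * (q + 1) := by
      have h4 : (w + (k + 1)) * (q + 1) = q * (w + 1) + k * q + w + k + 1 := by ring
      have h5 : (i + 1) * σ = i * σ + σ := by ring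
      omega
    exact (Nat.div_lt_iff_lt_mul (Nat.succ_pos q)).2 h2 |>.le

theorem NmU_TAB {q σ K o : ℕ} (hq : 0 < q) (hK : 1 ≤ K) (hσ : σ ≤ (K - 1) * q)
    (ho : o ≤ 2 * q + 1) : |(NmU_TA q σ o : ℤ) - NmU_TB q σ o| ≤ K := by
  rcases Nat.even_or_odd' o with ⟨i, rfl | rfl⟩
  · rw [NmU_TA_even, NmU_TB_even, abs_le]
    have h := NmU_qC hq hK hσ (i := i) (by omega)
    omega
  · rw [NmU_TA_odd, NmU_TB_odd, abs_le]
    have h := NmU_qD hq hK hσ (i := i) (by omega)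
    omega

theorem NmU_inc {q σ K : ℕ} (hq : 0 < q) (hK : 1 ≤ K) (hσ : σ ≤ (K - 1) * q) (o : ℕ) :
    (NmU_TA q σ (o + 1) - NmU_TA q σ o = 0 ∨ NmU_TB q σ (o + 1) - NmU_TB q σ o = 0) ∧
    NmU_TA q σ (o + 1) - NmU_TA q σ o ≤ K ∧ NmU_TB q σ (o + 1) - NmU_TB q σ o ≤ K := by
  rcases Nat.even_or_odd' o with ⟨i, rfl | rfl⟩
  · rw [NmU_TA_even, NmU_TB_even, NmU_TA_odd, NmU_TB_odd, Nat.sub_self]
    have h := NmU_qA (q := q) (i := i) hK hσ
    refine ⟨Or.inr rfl, ?_, Nat.zero_le _⟩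
    omega
  · rw [show 2 * i + 1 + 1 = 2 * (i + 1) by ring, NmU_TA_even, NmU_TB_even, NmU_TA_odd, NmU_TB_odd,
      Nat.sub_self]
    have h := NmU_qB (i := i) hq hK hσ
    refine ⟨Or.inl rfl, Nat.zero_le _, ?_⟩
    omega

theorem NmU_sg_sum {n1 h : ℕ} (hn : 0 < n1) : ∑ b ∈ range n1, NmU_sg n1 h b = h := by
  unfold NmU_sg
  rw [sum_add_distrib, sum_const, card_range, smul_eq_mul, ← sum_filter, sum_const, smul_eq_mul,
    mul_one]
  have h1 : (range n1).filter (fun b => b < h % n1) = range (h % n1) := by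
    ext b
    rw [mem_filter, mem_range, mem_range]
    have := Nat.mod_lt h hn
    omega
  rw [h1, card_range, Nat.div_add_mod]

theorem nmU (p s1 n1 h K : ℕ) (hp : 2 ≤ p) (hs : p ≤ s1) (hn : 0 < n1)
    (hK : h / n1 + 1 ≤ (K - 1) * (p - 1)) :
    ∃ al be : ℕ → ℕ, (∀ j, al j = 0 ∨ be j = 0) ∧ (∀ j, al j ≤ K ∧ be j ≤ K) ∧
      (∀ j, (j < s1 ∨ s1 + (2 * p - 1) * n1 ≤ j) → al j = 0 ∧ be j = 0) ∧
      ∀ L, s1 + (2 * p - 1) * n1 + p ≤ L →
        ∑ j ∈ range L, al j = h ∧ ∑ j ∈ range L, be j = h ∧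
        (∀ ℓ < L, |(sw p L al ℓ : ℤ) - sw p L be ℓ| ≤ 2 * K) ∧
        ∑ ℓ ∈ range L, |(sw p L al ℓ : ℤ) - sw p L be ℓ| ≤ 12 * p * K := by
  have hK1 : 1 ≤ K := by
    rcases Nat.eq_zero_or_pos K with h0 | h0
    · rw [h0, Nat.zero_sub, Nat.zero_mul] at hK
      exact absurd hK (Nat.not_succ_le_zero _)
    · exact h0
  obtain ⟨q, rfl⟩ : ∃ q, p = q + 1 := ⟨p - 1, by omega⟩
  rw [Nat.add_sub_cancel] at hK
  have hq : 0 < q := by omega
  have hm : 2 * (q + 1) - 1 = 2 * q + 1 := by omega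
  have hm0 : 0 < 2 * (q + 1) - 1 := by omega
  have hσ : ∀ b, NmU_sg n1 h b ≤ (K - 1) * q := by
    intro b
    unfold NmU_sg
    split_ifs <;> omega
  have A0 : ∀ σ, NmU_TA q σ 0 = 0 := NmU_TA_zero q
  have B0 : ∀ σ, NmU_TB q σ 0 = 0 := NmU_TB_zero q
  have A1 : ∀ σ, NmU_TA q σ (2 * (q + 1) - 1) = σ := by rw [hm]; exact NmU_TA_top q
  have B1 : ∀ σ, NmU_TB q σ (2 * (q + 1) - 1) = σ := by rw [hm]; exact NmU_TB_top hq
  have AM : ∀ σ o, NmU_TA q σ o ≤ NmU_TA q σ (o + 1) := NmU_TA_mono q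
  have BM : ∀ σ o, NmU_TB q σ o ≤ NmU_TB q σ (o + 1) := NmU_TB_mono q
  set m := 2 * (q + 1) - 1 with hmd
  set sg := NmU_sg n1 h with hsg
  set al := NmU_a m s1 n1 sg (NmU_TA q) with hal
  set be := NmU_a m s1 n1 sg (NmU_TB q) with hbe
  have hout : ∀ j, (j < s1 ∨ s1 + m * n1 ≤ j) → al j = 0 ∧ be j = 0 := fun j hj =>
    ⟨NmU_a_out hm0 A0 hj, NmU_a_out hm0 B0 hj⟩
  have hin : ∀ j, (al j = 0 ∨ be j = 0) ∧ al j ≤ K ∧ be j ≤ K := by
    intro j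
    by_cases hj : j < s1 ∨ s1 + m * n1 ≤ j
    · obtain ⟨h1, h2⟩ := hout j hj
      rw [h1, h2]
      exact ⟨Or.inl rfl, Nat.zero_le _, Nat.zero_le _⟩
    · push Not at hj
      obtain ⟨b, hb, o, ho, rfl⟩ := NmU_dec hm0 hj.1 hj.2
      rw [hal, hbe, NmU_a_in hm0 A0 A1 hb ho, NmU_a_in hm0 B0 B1 hb ho]
      exact NmU_inc hq hK1 (hσ b) o
  refine ⟨al, be, fun j => (hin j).1, fun j => (hin j).2, hout, fun L hL => ?_⟩
  set C : ℕ → ℤ := fun x => (NmU_F m s1 n1 sg (NmU_TA q) x : ℤ) - NmU_F m s1 n1 sg (NmU_TB q) x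
    with hC
  have Clo : ∀ x, x ≤ s1 → C x = 0 := by
    intro x hx
    rw [hC]
    simp only
    rw [NmU_F_lo hm0 A0 hx, NmU_F_lo hm0 B0 hx, sub_self]
  have Chi : ∀ x, s1 + m * n1 ≤ x → C x = 0 := by
    intro x hx
    rw [hC]
    simp only
    rw [NmU_F_hi hm0 A0 hx, NmU_F_hi hm0 B0 hx, sub_self]
  have Cin : ∀ b < n1, ∀ o ≤ m, C (s1 + (m * b + o)) =
      (NmU_TA q (sg b) o : ℤ) - NmU_TB q (sg b) o := by
    intro b hb o ho
    rw [hC]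
    simp only
    rw [NmU_F_in hm0 A0 A1 hb ho, NmU_F_in hm0 B0 B1 hb ho]
    push_cast
    ring
  have CK : ∀ x, |C x| ≤ K := by
    intro x
    by_cases hx : x ≤ s1
    · rw [Clo x hx, abs_zero]
      exact Int.natCast_nonneg _
    by_cases hx' : s1 + m * n1 ≤ x
    · rw [Chi x hx', abs_zero]
      exact Int.natCast_nonneg _
    push Not at hx hx'
    obtain ⟨b, hb, o, ho, rfl⟩ := NmU_dec hm0 hx.le hx'
    rw [Cin b hb o ho.le]
    exact NmU_TAB hq hK1 (hσ b) (by omega)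
  have hsw : ∀ ℓ < L, (sw (q + 1) L al ℓ : ℤ) - sw (q + 1) L be ℓ = C (ℓ + (q + 1)) -
      C (ℓ + 1 - (q + 1)) := by
    intro ℓ hℓ
    have e1 := NmU_sw (p := q + 1) (by omega) hs hL (sg := sg) A0 A1 AM hℓ
    have e2 := NmU_sw (p := q + 1) (by omega) hs hL (sg := sg) B0 B1 BM hℓ
    rw [← hmd] at e1 e2
    rw [← hal] at e1
    rw [← hbe] at e2
    rw [hC]
    simp only
    omega
  have h2K : ∀ ℓ < L, |(sw (q + 1) L al ℓ : ℤ) - sw (q + 1) L be ℓ| ≤ 2 * K := by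
    intro ℓ hℓ
    rw [hsw ℓ hℓ]
    have h1 := CK (ℓ + (q + 1))
    have h2 := CK (ℓ + 1 - (q + 1))
    rw [abs_le] at h1 h2 ⊢
    constructor <;> omega
  refine ⟨?_, ?_, h2K, ?_⟩
  · rw [hal, NmU_sum hm0 A0 A1 AM, NmU_F_hi hm0 A0 (by omega), hsg, NmU_sg_sum hn]
  · rw [hbe, NmU_sum hm0 B0 B1 BM, NmU_F_hi hm0 B0 (by omega), hsg, NmU_sg_sum hn]
  · set r := h % n1 with hr
    set E : Finset ℕ := (Ico (s1 + 1 - (q + 1)) (s1 + (q + 1) - 1) ∪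
      Ico (s1 + q + m * (n1 - 1)) (s1 + q + m * (n1 - 1) + m)) ∪
      Ico (s1 + q + m * (r - 1)) (s1 + q + m * (r - 1) + m) with hE
    have hcE : E.card ≤ 3 * m := by
      have c1 := card_union_le (Ico (s1 + 1 - (q + 1)) (s1 + (q + 1) - 1) ∪
        Ico (s1 + q + m * (n1 - 1)) (s1 + q + m * (n1 - 1) + m))
        (Ico (s1 + q + m * (r - 1)) (s1 + q + m * (r - 1) + m))
      have c2 := card_union_le (Ico (s1 + 1 - (q + 1)) (s1 + (q + 1) - 1))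
        (Ico (s1 + q + m * (n1 - 1)) (s1 + q + m * (n1 - 1) + m))
      rw [Nat.card_Ico, Nat.card_Ico] at c2
      rw [Nat.card_Ico, ← hE] at c1
      omega
    have hz : ∀ ℓ < L, ℓ ∉ E → (sw (q + 1) L al ℓ : ℤ) - sw (q + 1) L be ℓ = 0 := by
      intro ℓ hℓ hE'
      rw [hE, mem_union, mem_union, mem_Ico, mem_Ico, mem_Ico] at hE'
      push Not at hE'
      obtain ⟨⟨h1, h2⟩, h3⟩ := hE'
      rw [hsw ℓ hℓ]
      by_cases hl : ℓ + (q + 1) ≤ s1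
      · rw [Clo _ hl, Clo _ (by omega), sub_self]
      have h4 : s1 + q ≤ ℓ := by
        by_contra hcon
        have := h1 (by omega)
        omega
      obtain ⟨y, rfl⟩ : ∃ y, ℓ = s1 + q + y := ⟨ℓ - (s1 + q), by omega⟩
      have e1 : s1 + q + y + (q + 1) = s1 + (y + m) := by omega
      have e2 : s1 + q + y + 1 - (q + 1) = s1 + y := by omega
      rw [e1, e2]
      by_cases hy : m * n1 ≤ y
      · rw [Chi _ (by omega), Chi _ (by omega), sub_self]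
      push Not at hy
      obtain ⟨b, hb, o, ho, hyo⟩ := NmU_dec (s1 := 0) (n1 := n1) hm0 (Nat.zero_le y) (by omega)
      rw [zero_add] at hyo
      subst hyo
      have hb1 : b + 1 < n1 := by
        by_contra hcon
        have hb2 : b = n1 - 1 := by omega
        rw [← hb2] at h2
        have := h2 (by omega)
        omega
      have hb3 : b ≠ r - 1 := by
        intro hb2
        rw [← hb2] at h3
        have := h3 (by omega)
        omega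
      have hs2 : sg b = sg (b + 1) := by
        rw [hsg]
        unfold NmU_sg
        rw [← hr]
        have : (b < r) ↔ (b + 1 < r) := by omega
        simp only [this]
      have e3 : m * b + o + m = m * (b + 1) + o := by ring
      rw [e3, Cin b hb o ho.le, Cin (b + 1) hb1 o ho.le, hs2, sub_self]
    have hle : ∀ ℓ ∈ range L, |(sw (q + 1) L al ℓ : ℤ) - sw (q + 1) L be ℓ| ≤
        if ℓ ∈ E then (2 * K : ℤ) else 0 := by
      intro ℓ hℓ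
      rw [mem_range] at hℓ
      by_cases h1 : ℓ ∈ E
      · rw [if_pos h1]
        exact h2K ℓ hℓ
      · rw [if_neg h1, hz ℓ hℓ h1, abs_zero]
    refine (sum_le_sum hle).trans ?_
    rw [← sum_filter, sum_const, nsmul_eq_mul]
    have h5 : ((range L).filter (fun ℓ => ℓ ∈ E)).card ≤ 3 * m := by
      refine le_trans (card_le_card ?_) hcE
      intro x hx
      exact (mem_filter.1 hx).2
    have h6 : (((range L).filter (fun ℓ => ℓ ∈ E)).card : ℤ) ≤ 3 * (2 * (q + 1)) := by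
      have : 3 * m ≤ 3 * (2 * (q + 1)) := by omega
      exact_mod_cast h5.trans this
    have h7 : (0 : ℤ) ≤ K := Int.natCast_nonneg _
    push_cast
    nlinarith

end Pool.Agent.H46.G2
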