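import Mathlib
import Pool.Agent.H46.G2.NmU
import Pool.Agent.H46.G2.Bcl

/-!
DBZ: the numbers of colours in one nearly bipartite part, uniformly in `p ≥ 2`: one run of labels in every block. Use the STATEMENTS of `nmU` (`G2/NmU.lean`), `GP/Bbl.lean`, `G2/Bcl.lean`. Compare `dbp` (`Pool/Agent/H46/GP/Dbp.lean`, proved).

Proof.  `L := Δ + 2 p`, `bx c` for `bx L c`, `h := #(pt nd (2 i)) = #(pt nd (2 i + 1))`, `Of := 8 p + 2 t + kap + 2`, `n1 := (L / 8 - Of - 2 p) / (2 p - 1)`, `st b := bx b + Of`. `st b + (2 p - 1) n1 ≤ bx b + L / 8 - 2 p ≤ bx (b + 1) - 2 p + 1`, `16 (2 p - 1) n1 ≥ Δ` (`hΔ`), `0 < n1`.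
 `hb b := (b + 1) h / 8 - b h / 8` (`∑_{b < c} hb b = c h / 8`, `hb b ≤ h / 8 + 1 ≤ M Δ / 8 + 1 ≤ 2 M (2 p - 1) n1 + 1`), so `hb b / n1 + 1 ≤ 2 M (2 p - 1) + 2 ≤ (6 M + 2) (p - 1) ≤ (K - 1) (p - 1)` (`2 p - 1 ≤ 3 (p - 1)`).
 `nmU p (st b) n1 (hb b) K` gives `al b, be b` for `b < 8`, zero outside the run of the block `b`. `bA x := ∑_{b < 8} al b x`, `bB x := ∑_{b < 8} be b x`. The runs are disjoint, so for every `x` at most one `b` gives something that is not zero: the first two claims. Sums: `∑_b hb b = 8 h / 8 = h`.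
 `c0 w ∈ [bx 7 + 2 p, bx 7 + 2 p + kap)` is in no run (`st 7 > bx 7 + 2 p + kap`, run 6 ends before `bx 7`). Labels `x ≤ 6 p + 2 t < st 0` are in no run. `ℓ ∈ T1` or `T2`: `sw = 0` by `zz1, zz2`.
 `sw` is additive (`sw_add` or directly by the definition and `Finset.sum_comm`), so `|sw bA ℓ - sw bB ℓ| ≤ 8 * 2 K` and `∑_{ℓ < L} |sw bA ℓ - sw bB ℓ| ≤ 8 * 12 p K = 96 p K`. So `∑ max 0 (sw bB - sw bA - uu) ≤ 96 p K + ∑ max 0 (- uu) ≤ 96 p K + (4/5) Δ ≤ h` (`hF.us`, `10 h ≥ 9 Δ`, `960 p K ≤ Δ`).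
 Last claims: for `c < 8` the runs `b < c` end before `bx c - p` and the runs `b ≥ c` start after `bx c + p`, so both sums are `∑_{b < c} hb b = c h / 8` (for `c = 0` they are `0`), and `c h - 8 < 8 (c h / 8) ≤ c h`.
-/

set_option autoImplicit false

namespace Pool.Agent.H46.G2

open Finset Classical
open Pool.Agent.H71.DN Pool.Agent.H71.DX Pool.Agent.H71.DR Pool.Agent.H71.HL Pool.Agent.H71.DC
open Pool.Agent.H71.TD Pool.Agent.H90.TDP Pool.Agent.H46.GA Pool.Agent.H46.GP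

private theorem Dbz_bx (L b : ℕ) : bx L b + L / 8 ≤ bx L (b + 1) := by
  unfold bx
  have h1 : (b + 1) * L = b * L + L := by ring
  rw [h1]
  omega

private theorem Dbz_bxm (L b c : ℕ) (h : b ≤ c) : bx L b ≤ bx L c := by
  unfold bx
  exact Nat.div_le_div_right (Nat.mul_le_mul_right L h)

private theorem Dbz_bx8 (L : ℕ) : bx L 8 = L := by
  unfold bx
  omega

private theorem Dbz_num (p Δ t kap M K h n1 : ℕ) (hp : 2 ≤ p)
    (hn1 : n1 = ((Δ + 2 * p) / 8 - (8 * p + 2 * t + kap + 2) - 2 * p) / (2 * p - 1))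
    (hK : 6 * M + 4 ≤ K) (hΔ : 400 * p + 40 * t + 20 * kap + 200 ≤ Δ) (hh : h ≤ M * Δ) :
    (8 * p + 2 * t + kap + 2) + (2 * p - 1) * n1 + 2 * p ≤ (Δ + 2 * p) / 8 ∧ 0 < n1 ∧
      ∀ g, g ≤ h / 8 + 1 → g / n1 + 1 ≤ (K - 1) * (p - 1) := by
  obtain ⟨m, hm⟩ : ∃ m : ℕ, m = 2 * p - 1 := ⟨_, rfl⟩
  obtain ⟨X, hX⟩ : ∃ X : ℕ, X = (Δ + 2 * p) / 8 - (8 * p + 2 * t + kap + 2) - 2 * p := ⟨_, rfl⟩
  rw [← hm, ← hX] at hn1
  rw [← hm]
  have h1 : m * n1 ≤ X := by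
    rw [hn1]
    exact Nat.mul_div_le X m
  have h2 : X < m * n1 + m := by
    have := Nat.lt_mul_div_succ X (show 0 < m by omega)
    rw [← hn1, Nat.mul_add, Nat.mul_one] at this
    exact this
  have h3 : Δ ≤ 16 * (m * n1) := by omega
  have h4 : 0 < n1 := by
    rcases Nat.eq_zero_or_pos n1 with h | h
    · rw [h, Nat.mul_zero] at h3
      omega
    · exact h
  refine ⟨by omega, h4, ?_⟩
  intro g hg
  have h5 : M * Δ ≤ M * (16 * (m * n1)) := Nat.mul_le_mul_left _ h3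
  have h6 : h / 8 ≤ 2 * M * m * n1 := by
    have h7 : h ≤ 8 * (2 * M * m * n1) := by
      calc h ≤ M * (16 * (m * n1)) := hh.trans h5
        _ = 8 * (2 * M * m * n1) := by ring
    omega
  have h7 : g / n1 ≤ 2 * M * m + 1 := by
    have h8 : g ≤ (2 * M * m + 1) * n1 := by
      have h9 : (2 * M * m + 1) * n1 = 2 * M * m * n1 + n1 := by ring
      omega
    exact Nat.div_le_of_le_mul (by rw [Nat.mul_comm]; exact h8)
  obtain ⟨q, rfl⟩ : ∃ q, p = q + 2 := ⟨p - 2, by omega⟩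
  have h8 : m = 2 * q + 3 := by omega
  have h9 : q + 2 - 1 = q + 1 := by omega
  rw [h9]
  obtain ⟨K', rfl⟩ : ∃ K', K = 6 * M + 4 + K' := ⟨K - (6 * M + 4), by omega⟩
  have h10 : 6 * M + 4 + K' - 1 = 6 * M + 3 + K' := by omega
  rw [h10]
  rw [h8] at h7
  have h11 : 2 * M * (2 * q + 3) + 1 + 1 ≤ (6 * M + 3 + K') * (q + 1) := by
    nlinarith [Nat.zero_le (M * q), Nat.zero_le (K' * q), Nat.zero_le q, Nat.zero_le K']
  omega

private theorem Dbz_tel (h c : ℕ) :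
    ∑ b ∈ range c, ((b + 1) * h / 8 - b * h / 8) = c * h / 8 := by
  induction c with
  | zero => simp
  | succ c ih =>
    rw [sum_range_succ, ih]
    have h1 : c * h / 8 ≤ (c + 1) * h / 8 :=
      Nat.div_le_div_right (Nat.mul_le_mul_right h (Nat.le_succ c))
    omega

private theorem Dbz_fam (L h : ℕ) (st en : ℕ → ℕ) (α : ℕ → ℕ → ℕ)
    (hz : ∀ b < 8, ∀ x, (x < st b ∨ en b ≤ x) → α b x = 0)
    (hs : ∀ b < 8, ∑ x ∈ range L, α b x = (b + 1) * h / 8 - b * h / 8) :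
    ∑ x ∈ range L, ∑ b ∈ range 8, α b x = h ∧
    (∀ c ≤ 8, ∀ y ≤ L, (∀ b < 8, c ≤ b → y ≤ st b) →
      8 * ∑ x ∈ range y, ∑ b ∈ range 8, α b x ≤ c * h) ∧
    (∀ c ≤ 8, ∀ y ≤ L, (∀ b < c, en b ≤ y) →
      c * h ≤ 8 * ∑ x ∈ range y, ∑ b ∈ range 8, α b x + 8) := by
  refine ⟨?_, ?_, ?_⟩
  · rw [sum_comm, sum_congr rfl fun b hb => hs b (mem_range.mp hb), Dbz_tel]
    omega
  · intro c hc y hy hst
    rw [sum_comm]
    have h1 : ∑ b ∈ range 8, ∑ x ∈ range y, α b x = ∑ b ∈ range c, ∑ x ∈ range y, α b x := by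
      symm
      refine sum_subset (range_subset_range.2 hc) ?_
      intro b hb hbc
      rw [mem_range] at hb
      rw [mem_range, not_lt] at hbc
      refine sum_eq_zero fun x hx => hz b hb x (Or.inl ?_)
      rw [mem_range] at hx
      have := hst b hb hbc
      omega
    have h2 : ∑ b ∈ range c, ∑ x ∈ range y, α b x ≤
        ∑ b ∈ range c, ((b + 1) * h / 8 - b * h / 8) := by
      refine sum_le_sum fun b hb => ?_
      rw [mem_range] at hb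
      rw [← hs b (by omega)]
      exact sum_le_sum_of_subset (range_subset_range.2 hy)
    rw [Dbz_tel] at h2
    rw [h1]
    omega
  · intro c hc y hy hen
    rw [sum_comm]
    have h1 : ∑ b ∈ range c, ∑ x ∈ range y, α b x ≤ ∑ b ∈ range 8, ∑ x ∈ range y, α b x :=
      sum_le_sum_of_subset (range_subset_range.2 hc)
    have h2 : ∑ b ∈ range c, ∑ x ∈ range y, α b x =
        ∑ b ∈ range c, ((b + 1) * h / 8 - b * h / 8) := by
      refine sum_congr rfl fun b hb => ?_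
      rw [mem_range] at hb
      rw [← hs b (by omega)]
      refine sum_subset (range_subset_range.2 hy) ?_
      intro x _ hx
      rw [mem_range, not_lt] at hx
      exact hz b (by omega) x (Or.inr ((hen b hb).trans hx))
    rw [Dbz_tel] at h2
    omega

private theorem Dbz_sw (p L : ℕ) (α : ℕ → ℕ → ℕ) (ℓ : ℕ) :
    sw p L (fun x => ∑ b ∈ range 8, α b x) ℓ = ∑ b ∈ range 8, sw p L (α b) ℓ := by
  unfold sw
  exact sum_comm

private theorem Dbz_zero (p L t ℓ : ℕ) (hp : 1 ≤ p) (hL : 6 * p + 2 * t ≤ L)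
    (al : ℕ → ℕ) (hz : ∀ j ≤ 6 * p + 2 * t, al j = 0) (hT : T1 p t ℓ ∨ T2 p t ℓ) :
    sw p L al ℓ = 0 := by
  unfold sw
  refine Finset.sum_eq_zero fun j hj => ?_
  rw [Finset.mem_filter] at hj
  refine hz j ?_
  rcases hT with h | h
  · have := zz1 p L t j ℓ hp hL hj.2 h
    omega
  · have := zz2 p L t j ℓ hp hL hj.2 h
    omega

theorem dbz {V : Type} [Fintype V] (G : SimpleGraph V) (Δ p k : ℕ) (ty : ℕ → Prop)
    (nd qt cl un : V → ℕ) (sf : ℕ → Finset V) (t : ℕ) (φ : ℕ → V → V) (c0 : V → ℕ)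
    (d D r z e E kap K1 : ℕ)
    (hF : Fz G Δ p k ty nd qt cl un sf t φ c0 d D r z e E kap K1) (hp : 2 ≤ p)
    (M K : ℕ) (hM : Fintype.card V ≤ M * Δ) (hK : 6 * M + 4 ≤ K)
    (hΔ : 400 * p + 40 * t + 20 * kap + 200 ≤ Δ) (hKΔ : 960 * p * K ≤ Δ)
    (i : ℕ) (hi : i < k) (hty : ¬ ty i) :
    ∃ bA bB : ℕ → ℕ, (∀ j, bA j = 0 ∨ bB j = 0) ∧ (∀ j, bA j ≤ K ∧ bB j ≤ K) ∧
      ∑ j ∈ range (Δ + 2 * p), bA j = (pt nd (2 * i)).card ∧
      ∑ j ∈ range (Δ + 2 * p), bB j = (pt nd (2 * i + 1)).card ∧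
      (∀ w ∈ pt nd (2 * k), bA (c0 w) = 0 ∧ bB (c0 w) = 0) ∧
      (∀ j ≤ 6 * p + 2 * t, bA j = 0 ∧ bB j = 0) ∧
      (∀ ℓ, (T1 p t ℓ ∨ T2 p t ℓ) →
        sw p (Δ + 2 * p) bA ℓ = 0 ∧ sw p (Δ + 2 * p) bB ℓ = 0) ∧
      (∀ ℓ < Δ + 2 * p, |(sw p (Δ + 2 * p) bB ℓ : ℤ) - sw p (Δ + 2 * p) bA ℓ| ≤ 16 * K) ∧
      ∑ ℓ ∈ range (Δ + 2 * p), max 0 ((sw p (Δ + 2 * p) bB ℓ : ℤ) - sw p (Δ + 2 * p) bA ℓ -
        uu nd (φ ℓ) i) ≤ ((pt nd (2 * i)).card : ℤ) ∧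
      (∀ c < 8, 8 * ∑ x ∈ range (bx (Δ + 2 * p) c + p), bA x ≤ c * (pt nd (2 * i)).card ∧
        8 * ∑ x ∈ range (bx (Δ + 2 * p) c + p), bB x ≤ c * (pt nd (2 * i + 1)).card ∧
        c * (pt nd (2 * i)).card ≤ 8 * ∑ x ∈ range (bx (Δ + 2 * p) c - p), bA x + 8 ∧
        c * (pt nd (2 * i + 1)).card ≤ 8 * ∑ x ∈ range (bx (Δ + 2 * p) c - p), bB x + 8) := by
  obtain ⟨h, hh⟩ : ∃ h : ℕ, h = (pt nd (2 * i)).card := ⟨_, rfl⟩
  have hbal := hF.bal i hi hty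
  rw [← hbal, ← hh]
  have hbig := hF.big i hi
  rw [← hh] at hbig
  have hcV : h ≤ M * Δ := by
    rw [hh]
    exact (Finset.card_le_univ _).trans hM
  obtain ⟨n1, hn1⟩ : ∃ n1 : ℕ,
      n1 = ((Δ + 2 * p) / 8 - (8 * p + 2 * t + kap + 2) - 2 * p) / (2 * p - 1) := ⟨_, rfl⟩
  obtain ⟨a1, a2, a3⟩ := Dbz_num p Δ t kap M K h n1 hp hn1 hK hΔ hcV
  obtain ⟨L, hL⟩ : ∃ L : ℕ, L = Δ + 2 * p := ⟨_, rfl⟩
  rw [← hL] at a1 ⊢
  obtain ⟨N, hN⟩ : ∃ N : ℕ, N = (2 * p - 1) * n1 := ⟨_, rfl⟩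
  obtain ⟨Of, hOf⟩ : ∃ Of : ℕ, Of = 8 * p + 2 * t + kap + 2 := ⟨_, rfl⟩
  have hrun : ∀ b < 8, bx L b + Of + N + 2 * p ≤ bx L (b + 1) ∧ bx L (b + 1) ≤ L := by
    intro b hb
    have h1 := Dbz_bx L b
    have h2 := Dbz_bxm L (b + 1) 8 (by omega)
    rw [Dbz_bx8] at h2
    rw [← hN, ← hOf] at a1
    exact ⟨by omega, h2⟩
  have hex : ∀ b : ℕ, ∃ al be : ℕ → ℕ, (∀ j, al j = 0 ∨ be j = 0) ∧ (∀ j, al j ≤ K ∧ be j ≤ K) ∧
      (∀ j, (j < bx L b + Of ∨ bx L b + Of + (2 * p - 1) * n1 ≤ j) → al j = 0 ∧ be j = 0) ∧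
      ∀ L', bx L b + Of + (2 * p - 1) * n1 + p ≤ L' →
        ∑ j ∈ range L', al j = ((b + 1) * h / 8 - b * h / 8) ∧
        ∑ j ∈ range L', be j = ((b + 1) * h / 8 - b * h / 8) ∧
        (∀ ℓ < L', |(sw p L' al ℓ : ℤ) - sw p L' be ℓ| ≤ 2 * K) ∧
        ∑ ℓ ∈ range L', |(sw p L' al ℓ : ℤ) - sw p L' be ℓ| ≤ 12 * p * K := by
    intro b
    refine nmU p (bx L b + Of) n1 ((b + 1) * h / 8 - b * h / 8) K hp (by omega) a2 (a3 _ ?_)
    have h1 : (b + 1) * h = b * h + h := by ring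
    rw [h1]
    omega
  choose al be q1 q2 q3 q4 using hex
  rw [← hN] at q3 q4
  have hz : ∀ b x, (x < bx L b + Of ∨ bx L b + Of + N ≤ x) → al b x = 0 ∧ be b x = 0 :=
    fun b x hx => q3 b x hx
  have q5 : ∀ b < 8, _ := fun b hb => q4 b L (by have := hrun b hb; omega)
  -- at most one block
  have hone : ∀ x, ∃ b0 < 8, ∀ b < 8, b ≠ b0 → al b x = 0 ∧ be b x = 0 := by
    intro x
    by_cases hx : ∃ b < 8, bx L b + Of ≤ x ∧ x < bx L b + Of + N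
    · obtain ⟨b0, hb0, hx1, hx2⟩ := hx
      refine ⟨b0, hb0, ?_⟩
      intro b hb hne
      refine hz b x ?_
      rcases Nat.lt_or_gt_of_ne hne with h1 | h1
      · right
        have h2 := (hrun b hb).1
        have h3 := Dbz_bxm L (b + 1) b0 (by omega)
        omega
      · left
        have h2 := (hrun b0 hb0).1
        have h3 := Dbz_bxm L (b0 + 1) b (by omega)
        omega
    · refine ⟨0, by omega, ?_⟩
      intro b hb _
      refine hz b x ?_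
      by_contra hcon
      rw [not_or, not_lt, not_le] at hcon
      exact hx ⟨b, hb, hcon.1, hcon.2⟩
  have hsing : ∀ x, ∃ b0 < 8, ∑ b ∈ range 8, al b x = al b0 x ∧
      ∑ b ∈ range 8, be b x = be b0 x := by
    intro x
    obtain ⟨b0, hb0, h1⟩ := hone x
    refine ⟨b0, hb0, ?_, ?_⟩
    · refine sum_eq_single b0 (fun b hb hne => (h1 b (mem_range.mp hb) hne).1) ?_
      intro h2
      exact absurd (mem_range.mpr hb0) h2
    · refine sum_eq_single b0 (fun b hb hne => (h1 b (mem_range.mp hb) hne).2) ?_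
      intro h2
      exact absurd (mem_range.mpr hb0) h2
  have hlow : ∀ b, ∀ x ≤ 6 * p + 2 * t, al b x = 0 ∧ be b x = 0 := by
    intro b x hx
    exact hz b x (Or.inl (by omega))
  obtain ⟨fa1, fa2, fa3⟩ := Dbz_fam L h (fun b => bx L b + Of) (fun b => bx L b + Of + N) al
    (fun b _ x hx => (hz b x hx).1) (fun b hb => (q5 b hb).1)
  obtain ⟨fb1, fb2, fb3⟩ := Dbz_fam L h (fun b => bx L b + Of) (fun b => bx L b + Of + N) be
    (fun b _ x hx => (hz b x hx).2) (fun b hb => (q5 b hb).2.1)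
  have hdif : ∀ ℓ, |(sw p L (fun x => ∑ b ∈ range 8, be b x) ℓ : ℤ) -
      sw p L (fun x => ∑ b ∈ range 8, al b x) ℓ| ≤
      ∑ b ∈ range 8, |(sw p L (al b) ℓ : ℤ) - sw p L (be b) ℓ| := by
    intro ℓ
    rw [Dbz_sw, Dbz_sw, Nat.cast_sum, Nat.cast_sum, ← sum_sub_distrib]
    refine (abs_sum_le_sum_abs _ _).trans (le_of_eq ?_)
    exact sum_congr rfl fun b _ => abs_sub_comm _ _
  refine ⟨fun x => ∑ b ∈ range 8, al b x, fun x => ∑ b ∈ range 8, be b x, ?_, ?_, fa1, fb1, ?_, ?_,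
    ?_, ?_, ?_, ?_⟩
  · intro x
    obtain ⟨b0, _, h1, h2⟩ := hsing x
    show ∑ b ∈ range 8, al b x = 0 ∨ ∑ b ∈ range 8, be b x = 0
    rw [h1, h2]
    exact q1 b0 x
  · intro x
    obtain ⟨b0, _, h1, h2⟩ := hsing x
    show ∑ b ∈ range 8, al b x ≤ K ∧ ∑ b ∈ range 8, be b x ≤ K
    rw [h1, h2]
    exact q2 b0 x
  · intro w hw
    obtain ⟨h1, h2⟩ := hF.c1 w hw
    rw [← hL] at h1 h2
    have h3 : ∀ b < 8, al b (c0 w) = 0 ∧ be b (c0 w) = 0 := by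
      intro b hb
      refine hz b _ ?_
      rcases Nat.lt_or_ge b 7 with h4 | h4
      · right
        have h5 := (hrun b hb).1
        have h6 := Dbz_bxm L (b + 1) 7 (by omega)
        omega
      · left
        have h5 : b = 7 := by omega
        rw [h5]
        omega
    exact ⟨sum_eq_zero fun b hb => (h3 b (mem_range.mp hb)).1,
      sum_eq_zero fun b hb => (h3 b (mem_range.mp hb)).2⟩
  · intro j hj
    exact ⟨sum_eq_zero fun b _ => (hlow b j hj).1, sum_eq_zero fun b _ => (hlow b j hj).2⟩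
  · intro ℓ hT
    exact ⟨Dbz_zero p L t ℓ (by omega) (by omega) _
        (fun j hj => sum_eq_zero fun b _ => (hlow b j hj).1) hT,
      Dbz_zero p L t ℓ (by omega) (by omega) _
        (fun j hj => sum_eq_zero fun b _ => (hlow b j hj).2) hT⟩
  · intro ℓ hℓ
    refine (hdif ℓ).trans ?_
    have h1 : ∑ b ∈ range 8, |(sw p L (al b) ℓ : ℤ) - sw p L (be b) ℓ| ≤
        ∑ b ∈ range 8, (2 * (K : ℤ)) :=
      sum_le_sum fun b hb => (q5 b (mem_range.mp hb)).2.2.1 ℓ hℓ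
    rw [sum_const, card_range] at h1
    refine h1.trans (le_of_eq ?_)
    rw [nsmul_eq_mul]
    push_cast
    ring
  · have hus := hF.us i hi hty
    rw [← hL] at hus
    have h1 : ∑ ℓ ∈ range L, max 0 ((sw p L (fun x => ∑ b ∈ range 8, be b x) ℓ : ℤ) -
        sw p L (fun x => ∑ b ∈ range 8, al b x) ℓ - uu nd (φ ℓ) i) ≤
        ∑ ℓ ∈ range L, (∑ b ∈ range 8, |(sw p L (al b) ℓ : ℤ) - sw p L (be b) ℓ| +
          max 0 (-uu nd (φ ℓ) i)) := by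
      refine Finset.sum_le_sum fun ℓ _ => ?_
      have h2 := hdif ℓ
      have h3 := le_abs_self ((sw p L (fun x => ∑ b ∈ range 8, be b x) ℓ : ℤ) -
        sw p L (fun x => ∑ b ∈ range 8, al b x) ℓ)
      have h4 := abs_nonneg ((sw p L (fun x => ∑ b ∈ range 8, be b x) ℓ : ℤ) -
        sw p L (fun x => ∑ b ∈ range 8, al b x) ℓ)
      have h5 := le_max_left (0 : ℤ) (-uu nd (φ ℓ) i)
      have h6 := le_max_right (0 : ℤ) (-uu nd (φ ℓ) i)
      refine max_le ?_ ?_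
      · linarith
      · linarith
    rw [Finset.sum_add_distrib, Finset.sum_comm] at h1
    have h7 : ∑ b ∈ range 8, ∑ ℓ ∈ range L, |(sw p L (al b) ℓ : ℤ) - sw p L (be b) ℓ| ≤
        ∑ b ∈ range 8, (12 * (p : ℤ) * K) :=
      sum_le_sum fun b hb => (q5 b (mem_range.mp hb)).2.2.2
    rw [sum_const, card_range, nsmul_eq_mul] at h7
    have h8 : (9 : ℤ) * Δ ≤ 10 * h := by exact_mod_cast hbig
    have h9 : (960 : ℤ) * p * K ≤ Δ := by exact_mod_cast hKΔ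
    refine h1.trans ?_
    push_cast at h7
    nlinarith
  · intro c hc
    have h0 := hrun c hc
    have h1 : ∀ b < 8, c ≤ b → bx L c + p ≤ bx L b + Of := by
      intro b _ hcb
      have := Dbz_bxm L c b hcb
      omega
    have h2 : ∀ b < c, bx L b + Of + N ≤ bx L c - p := by
      intro b hb
      have h3 := (hrun b (by omega)).1
      have h4 := Dbz_bxm L (b + 1) c (by omega)
      omega
    exact ⟨fa2 c hc.le _ (by omega) h1, fb2 c hc.le _ (by omega) h1,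
      fa3 c hc.le _ (by omega) h2, fb3 c hc.le _ (by omega) h2⟩


end Pool.Agent.H46.G2
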