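import Mathlib
import Pool.Agent.H46.GP.Bbl

/-!
NMG: choice of `N` labels out of `0, ..., L - 1`, not `z`, such that at most `N + 1` parities are odd afterwards. Variant of `nmEp` (`Pool/Agent/H90/TDP/NmE.lean`, proved) with arbitrary gadget positions `Gd` (even numbers) and with `BB p L j` instead of the window of `j`. Use the STATEMENTS of `GP/Bbl.lean`.

Proof.  For `T ⊆ Gd` let `U T := {z} ∪ {u + (if u ∈ T then 1 else 0) : u ∈ Gd}`, `Λ T := range L \ U T`. The elements of `Gd` are even, so the pairs `{u, u + 1}`, `u ∈ Gd`, are disjoint, they do not contain `z`, and `u + 1 < L`: `#(U T) = 1 + #Gd = L - N`, so `#(Λ T) = N`. `z ∉ Λ T`; every `j < L`, `j ≠ z`, not in a pair is in `Λ T`; exactly one of `u, u + 1` is in `Λ T`.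
 `c T ℓ := #{j ∈ Λ T : ℓ ∈ BB p L j}`. For `u ∈ Gd` we have `p ≤ u`, `u + 1 + p ≤ L`, so `ℓ ∈ BB p L u ↔ Nr p u ℓ` and `ℓ ∈ BB p L (u + 1) ↔ Nr p (u + 1) ℓ` (`bb_mid`). `c T ℓ = #{j < L : j ≠ z, ℓ ∈ BB p L j} - #{u ∈ Gd : ℓ ∈ BB p L (u + [u ∈ T])}`. Put `x u := u + 1 - p`, `y u := u + p` (both `< L`).
 `[Nr p (u + 1) ℓ] - [Nr p u ℓ]` is `1` for `ℓ = y u`, `-1` for `ℓ = x u`, `0` otherwise. Hence the parity of `c T ℓ - c ∅ ℓ` is odd iff `ℓ = x u` or `ℓ = y u` for some `u ∈ T`; for `u, u' ∈ Gd`: `x u = x u'` or `y u = y u'` implies `u = u'`, and `x u = y u'` is impossible (`u - u' = 2 p - 1` is odd).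
 Choose `T := {u ∈ Gd : ¬ Even (o (x u) + c ∅ (x u))}`. Then `o (x u) + c T (x u)` is even for every `u ∈ Gd`, so there are at least `#Gd = L - N - 1` even labels and at most `N + 1` odd ones.
-/

set_option autoImplicit false

namespace Pool.Agent.H46.G2

open Finset Classical
open Pool.Agent.H71.DN Pool.Agent.H71.DX Pool.Agent.H71.DR Pool.Agent.H71.HL Pool.Agent.H71.DC
open Pool.Agent.H71.TD Pool.Agent.H90.TDP Pool.Agent.H46.GA Pool.Agent.H46.GP

private theorem NmG_term (p L u u' a : ℕ) (hp : 1 ≤ p) (hu : Even u) (hu' : Even u')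
    (h1 : p ≤ u') (h2 : u' + 1 + p ≤ L) (h3 : p ≤ u) (ha : a ≤ 1) (hne : u' ≠ u) :
    (u + 1 - p ∈ BB p L (u' + a) ↔ u + 1 - p ∈ BB p L (u' + 0)) := by
  rw [bb_mid p L (u' + a) _ hp (by omega) (by omega),
    bb_mid p L (u' + 0) _ hp (by omega) (by omega)]
  obtain ⟨k, hk⟩ := hu
  obtain ⟨l, hl⟩ := hu'
  unfold Nr
  constructor <;> intro h <;> constructor <;> omega

private theorem NmG_F (p L : ℕ) (Gd : Finset ℕ) (e : ℕ → ℕ) (he : ∀ s, e s ≤ 1) (hp : 1 ≤ p)
    (hG : ∀ u ∈ Gd, Even u ∧ p ≤ u ∧ u + 1 + p ≤ L) {u : ℕ} (hu : u ∈ Gd) :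
    (Gd.filter fun u' => u + 1 - p ∈ BB p L (u' + e u')).card + e u =
      (Gd.filter fun u' => u + 1 - p ∈ BB p L (u' + 0)).card := by
  simp only [card_filter]
  have hes := he u
  obtain ⟨g1, g2, g3⟩ := hG u hu
  rw [← add_sum_erase Gd _ hu,
    ← add_sum_erase Gd (fun u' => if u + 1 - p ∈ BB p L (u' + 0) then 1 else 0) hu]
  have h1 : ∑ u' ∈ Gd.erase u, (if u + 1 - p ∈ BB p L (u' + e u') then 1 else 0) =
      ∑ u' ∈ Gd.erase u, (if u + 1 - p ∈ BB p L (u' + 0) then 1 else 0) := by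
    refine sum_congr rfl fun u' hs' => ?_
    obtain ⟨k1, k2, k3⟩ := hG u' (mem_of_mem_erase hs')
    exact if_congr (NmG_term p L u u' (e u') hp g1 k1 k2 k3 g2 (he u') (ne_of_mem_erase hs'))
      rfl rfl
  rw [h1]
  have h2 : (if u + 1 - p ∈ BB p L (u + 0) then 1 else 0) = 1 := by
    rw [if_pos]
    rw [bb_mid p L (u + 0) _ hp (by omega) (by omega)]
    unfold Nr
    constructor <;> omega
  have h3 : (if u + 1 - p ∈ BB p L (u + e u) then 1 else 0) + e u = 1 := by
    rcases Nat.eq_zero_or_pos (e u) with h | h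
    · rw [h, h2]
    · have h' : e u = 1 := by omega
      rw [h', if_neg]
      rw [bb_mid p L (u + 1) _ hp (by omega) (by omega)]
      unfold Nr
      omega
  rw [h2]
  omega

theorem nmG (p L N z : ℕ) (Gd : Finset ℕ) (o : ℕ → ℕ) (hp : 1 ≤ p) (hN : N + 1 ≤ L)
    (hz : z < L)
    (hG : ∀ u ∈ Gd, Even u ∧ p ≤ u ∧ u + 1 + p ≤ L ∧ z ≠ u ∧ z ≠ u + 1)
    (hc : Gd.card = L - N - 1) :
    ∃ Λ : Finset ℕ, Λ ⊆ range L ∧ z ∉ Λ ∧ Λ.card = N ∧
      (∀ j < L, j ≠ z → (∀ u ∈ Gd, j ≠ u ∧ j ≠ u + 1) → j ∈ Λ) ∧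
      (∀ u ∈ Gd, (u ∈ Λ ↔ u + 1 ∉ Λ)) ∧
      ((range L).filter fun ℓ => ¬ Even (o ℓ + (Λ.filter fun j => ℓ ∈ BB p L j).card)).card ≤
        N + 1 := by
  -- the sets
  set Λ : (ℕ → ℕ) → Finset ℕ := fun e => (range L).filter fun j => j ≠ z ∧ ∀ u ∈ Gd, j ≠ u + e u
    with hΛ
  have hinj : ∀ e : ℕ → ℕ, (∀ s, e s ≤ 1) → ∀ a ∈ Gd, ∀ b ∈ Gd, a + e a = b + e b → a = b := by
    intro e he a ha b hb hab
    have h1 := he a
    have h2 := he b
    obtain ⟨k, hk⟩ := (hG a ha).1
    obtain ⟨l, hl⟩ := (hG b hb).1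
    omega
  have hinj' : ∀ e : ℕ → ℕ, (∀ s, e s ≤ 1) → Set.InjOn (fun s => s + e s) (Gd : Set ℕ) := by
    intro e he a ha b hb hab
    exact hinj e he a ha b hb hab
  have hcard : ∀ e : ℕ → ℕ, (∀ s, e s ≤ 1) → (Λ e).card = N := by
    intro e he
    have h1 : (Λ e) ∪ Gd.image (fun s => s + e s) = (range L).erase z := by
      ext j
      simp only [hΛ, mem_union, mem_filter, mem_range, mem_image, mem_erase]
      constructor
      · rintro (⟨h1, h2, -⟩ | ⟨s, h1, h2⟩)
        · exact ⟨h2, h1⟩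
        · have h3 := he s
          obtain ⟨-, h4, h5, h6, h7⟩ := hG s h1
          constructor <;> omega
      · rintro ⟨h1, h2⟩
        by_cases h3 : ∃ s ∈ Gd, j = s + e s
        · obtain ⟨s, h4, h5⟩ := h3
          right; exact ⟨s, h4, h5.symm⟩
        · left
          push Not at h3
          exact ⟨h2, h1, h3⟩
    have h2 : Disjoint (Λ e) (Gd.image (fun s => s + e s)) := by
      rw [disjoint_left]
      intro j hj hj2
      simp only [hΛ, mem_filter] at hj
      rw [mem_image] at hj2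
      obtain ⟨s, hs, h3⟩ := hj2
      exact hj.2.2 s hs h3.symm
    have h3 : (Gd.image (fun s => s + e s)).card = L - N - 1 := by
      rw [card_image_of_injOn (hinj' e he), hc]
    have h4 := card_union_of_disjoint h2
    rw [h1, h3, card_erase_of_mem (mem_range.2 hz), card_range] at h4
    omega
  have hsum : ∀ e : ℕ → ℕ, (∀ s, e s ≤ 1) → ∀ ℓ, ((Λ e).filter fun j => ℓ ∈ BB p L j).card +
      (Gd.filter fun s' => ℓ ∈ BB p L (s' + e s')).card =
        ((range L).filter fun j => j ≠ z ∧ ℓ ∈ BB p L j).card := by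
    intro e he ℓ
    have h1 : ((Λ e).filter fun j => ℓ ∈ BB p L j) ∪
        (Gd.filter fun s' => ℓ ∈ BB p L (s' + e s')).image (fun s => s + e s) =
        (range L).filter fun j => j ≠ z ∧ ℓ ∈ BB p L j := by
      ext j
      simp only [hΛ, mem_union, mem_filter, mem_range, mem_image]
      constructor
      · rintro (⟨⟨h1, h2, -⟩, h4⟩ | ⟨s, ⟨h1, h2⟩, h3⟩)
        · exact ⟨h1, h2, h4⟩
        · have h8 := he s
          obtain ⟨-, h4, h5, h6, h7⟩ := hG s h1
          refine ⟨by omega, by omega, ?_⟩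
          rw [← h3]; exact h2
      · rintro ⟨h1, h2, h4⟩
        by_cases h3 : ∃ s ∈ Gd, j = s + e s
        · obtain ⟨s, h5, h6⟩ := h3
          right; exact ⟨s, ⟨h5, by rw [← h6]; exact h4⟩, h6.symm⟩
        · left
          push Not at h3
          exact ⟨⟨h1, h2, h3⟩, h4⟩
    have h2 : Disjoint ((Λ e).filter fun j => ℓ ∈ BB p L j)
        ((Gd.filter fun s' => ℓ ∈ BB p L (s' + e s')).image (fun s => s + e s)) := by
      rw [disjoint_left]
      intro j hj hj2
      rw [mem_filter] at hj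
      have hj1 := hj.1
      simp only [hΛ, mem_filter] at hj1
      rw [mem_image] at hj2
      obtain ⟨s, hs, h3⟩ := hj2
      rw [mem_filter] at hs
      exact hj1.2.2 s hs.1 h3.symm
    rw [← h1, card_union_of_disjoint h2, card_image_of_injOn]
    intro a ha b hb hab
    exact hinj e he a (mem_filter.1 ha).1 b (mem_filter.1 hb).1 hab
  -- the choice
  set f : ℕ → ℕ := fun ℓ => o ℓ + ((Λ fun _ => 0).filter fun j => ℓ ∈ BB p L j).card with hf
  set e : ℕ → ℕ := fun s => if ¬ Even (f (s + 1 - p)) then 1 else 0 with he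
  have he1 : ∀ s, e s ≤ 1 := by
    intro s; rw [he]; dsimp only; split_ifs <;> omega
  have hG' : ∀ u ∈ Gd, Even u ∧ p ≤ u ∧ u + 1 + p ≤ L := fun u hu =>
    ⟨(hG u hu).1, (hG u hu).2.1, (hG u hu).2.2.1⟩
  refine ⟨Λ e, filter_subset _ _, ?_, hcard e he1, ?_, ?_, ?_⟩
  · simp only [hΛ, mem_filter]
    rintro ⟨-, h, -⟩
    exact h rfl
  · intro j hj hjz hj2
    simp only [hΛ, mem_filter, mem_range]
    refine ⟨hj, hjz, fun s hs h => ?_⟩
    have h1 := he1 s
    obtain ⟨h2, h3⟩ := hj2 s hs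
    omega
  · intro u hu
    obtain ⟨g1, g2, g3, g4, g5⟩ := hG u hu
    obtain ⟨k, hk⟩ := g1
    have hm1 : u ∈ Λ e ↔ e u ≠ 0 := by
      simp only [hΛ, mem_filter, mem_range]
      constructor
      · rintro ⟨-, -, h⟩ h0
        exact h u hu (by omega)
      · intro h0
        refine ⟨by omega, fun h => g4 h.symm, fun s hs h => ?_⟩
        have h1 := he1 s
        obtain ⟨l, hl⟩ := (hG s hs).1
        have h2 : s = u := by omega
        rw [h2] at h
        omega
    have hm2 : u + 1 ∈ Λ e ↔ e u = 0 := by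
      simp only [hΛ, mem_filter, mem_range]
      constructor
      · rintro ⟨-, -, h⟩
        by_contra h0
        have h1 := he1 u
        exact h u hu (by omega)
      · intro h0
        refine ⟨by omega, fun h => g5 h.symm, fun s hs h => ?_⟩
        have h1 := he1 s
        obtain ⟨l, hl⟩ := (hG s hs).1
        have h2 : s = u := by omega
        rw [h2] at h
        omega
    rw [hm1, hm2]
  -- parities
  set g : ℕ → ℕ := fun ℓ => o ℓ + ((Λ e).filter fun j => ℓ ∈ BB p L j).card with hgd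
  have hx : ∀ s ∈ Gd, g (s + 1 - p) = f (s + 1 - p) + e s := by
    intro s hs
    have a1 := hsum e he1 (s + 1 - p)
    have a2 := hsum (fun _ => 0) (fun _ => by omega) (s + 1 - p)
    have a3 := NmG_F p L Gd e he1 hp hG' hs
    simp only [hgd, hf]
    omega
  have hev : ∀ s ∈ Gd, Even (g (s + 1 - p)) := by
    intro s hs
    rw [hx s hs]
    by_cases hc : ¬ Even (f (s + 1 - p))
    · have b3 : e s = 1 := by rw [he]; dsimp only; rw [if_pos hc]
      rw [b3]
      exact Odd.add_one (Nat.not_even_iff_odd.1 hc)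
    · have b3 : e s = 0 := by rw [he]; dsimp only; rw [if_neg hc]
      rw [b3, add_zero]
      exact not_not.1 hc
  have hsub : Gd.image (fun s => s + 1 - p) ⊆ (range L).filter fun ℓ => Even (g ℓ) := by
    intro ℓ hℓ
    rw [mem_image] at hℓ
    obtain ⟨s, hs, h1⟩ := hℓ
    rw [mem_filter, mem_range, ← h1]
    obtain ⟨g1, g2, g3⟩ := hG' s hs
    exact ⟨by omega, hev s hs⟩
  have hci : (Gd.image (fun s => s + 1 - p)).card = L - N - 1 := by
    rw [card_image_of_injOn, hc]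
    intro s hs s' hs' hss
    have k1 := (hG' s hs).2.1
    have k2 := (hG' s' hs').2.1
    simp only at hss
    omega
  have h1 := card_le_card hsub
  rw [hci] at h1
  have h2 : ((range L).filter fun ℓ => Even (g ℓ)).card +
      ((range L).filter fun ℓ => ¬ Even (g ℓ)).card = L := by
    rw [card_filter_add_card_filter_not, card_range]
  show ((range L).filter fun ℓ => ¬ Even (g ℓ)).card ≤ N + 1
  omega

end Pool.Agent.H46.G2
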