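import Mathlib
import Pool.Agent.H46.G2.NmG
import Pool.Agent.H46.G2.Bcl

/-!
DEZ: the numbers of colours in one expanding part, uniformly in `p ≥ 1`. Adaptation of `dep` (`Pool/Agent/H46/GP/Dep.lean`, proved) with gadgets in all eight blocks. Use the STATEMENTS of `nmG` (`G2/NmG.lean`), `GP/Bbl.lean`, `G2/Bcl.lean`.

Proof.  `C := pt nd (2 i)`, `N := #C` (even), `L := Δ + 2 p`, `bx c` for `bx L c = c * L / 8`. Cases A (`C ⊆ W`, `L ≤ N`) and C (`L ≤ N`, second alternative of `hW.alt` with `Λ`) as for `dep`; in case C `b x = 1` for `x < L`, `x ∉ Λ`, `x ≠ zi i`, so `8 ∑_{x < bx c + p} b x ≤ 8 (bx c + p) ≤ c L + 8 p ≤ c N + 8 p`, and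
 `8 ∑_{x < bx c - p} b x ≥ 8 (bx c - p - #Λ - 1) ≥ c L - 8 p - 8 #Λ - 16` while `c N = c (L - 1 + #Λ) ≤ c L + 7 #Λ`, `16 #Λ = 8 #{v ∈ W : nd v = 2 i} ≤ z`, `p + z + 3 ≤ E0`.
 Case B: `N + 1 ≤ L`: `Λ = ∅`, no vertex of `W` is in `C`. `m := L - N - 1`, `10 m ≤ Δ + 20 p`. `Of := 8 p + 2 t + kap + 2`, `mb b := (b + 1) m / 8 - b m / 8` (`∑_{b < c} mb b = c m / 8`, `mb b ≤ m / 8 + 1`), `G b := 2 ((bx b + Of) / 2)`, `Gd := {G b + 2 s : b < 8, s < mb b}`. For `u = G b + 2 s ∈ Gd`: `bx b + Of - 1 ≤ u` and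
 `u + 2 ≤ G b + 2 mb b ≤ bx b + Of + m / 4 + 2 ≤ bx (b + 1) - 2 p` (`hΔ`: `L / 8 - 1 - m / 4 ≥ Δ / 10 - ...`). So the elements are different for different `(b, s)`, `#Gd = m`, `p ≤ u`, `u + 1 + p ≤ L`, and `zi i ∈ [bx 7 + 2 p, bx 7 + 2 p + kap)` is not `u` or `u + 1` (`b ≤ 6`: `u + 1 < bx 7`; `b = 7`: `u ≥ bx 7 + Of - 1`).
 `nmG p L N (zi i) Gd (fun ℓ => N + cv nd (φ ℓ) (2 i))` gives `Λ'`; `b j := if j ∈ Λ' then 1 else 0`; `sw p L b ℓ = #{j ∈ Λ' : ℓ ∈ BB p L j}`. The number of odd labels is at most `N + 1`, and it has the parity of `∑_{ℓ < L} (N + cv + sw p L b ℓ) = L N + ∑ cv + (2 p - 1) N`, which is even; `N + 1` is odd.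
 The last claims: for `1 ≤ c ≤ 7` the labels `x < bx c + p` not in `Λ'` are one of `u, u + 1` for every `u = G b + 2 s ∈ Gd` with `b < c` (all these `u + 1 < bx c - 2 p`; `u ≥ bx c + p` for `b ≥ c`; `zi i ≥ bx c + p`), so `∑_{x < bx c + p} b x = bx c + p - c m / 8` and `∑_{x < bx c - p} b x = bx c - p - c m / 8`; `c (L - m) = c (N + 1)`. For `c = 0` the first sum is at most `p`.
-/

set_option autoImplicit false

namespace Pool.Agent.H46.G2

open Finset Classical
open Pool.Agent.H71.DN Pool.Agent.H71.DX Pool.Agent.H71.DR Pool.Agent.H71.HL Pool.Agent.H71.DC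
open Pool.Agent.H71.TD Pool.Agent.H90.TDP Pool.Agent.H46.GA Pool.Agent.H46.GP

private theorem Dez_bxm (L b c : ℕ) (h : b ≤ c) : bx L b ≤ bx L c :=
  Nat.div_le_div_right (Nat.mul_le_mul_right _ h)

private theorem Dez_bxs (L b : ℕ) : bx L b + L / 8 ≤ bx L (b + 1) := by
  unfold bx
  rw [Nat.add_mul, one_mul]
  generalize b * L = X
  omega

private theorem Dez_mb (m b : ℕ) : (b + 1) * m / 8 - b * m / 8 ≤ m / 8 + 1 := by
  rw [Nat.add_mul, one_mul]
  generalize b * m = X
  omega

private noncomputable def Dez_G (L m Of c : ℕ) : Finset ℕ :=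
  (range c).biUnion fun b => (range ((b + 1) * m / 8 - b * m / 8)).image fun s =>
    2 * ((bx L b + Of) / 2) + 2 * s

private theorem Dez_Gmem (L m Of c u : ℕ) : u ∈ Dez_G L m Of c ↔
    ∃ b < c, ∃ s < (b + 1) * m / 8 - b * m / 8, 2 * ((bx L b + Of) / 2) + 2 * s = u := by
  unfold Dez_G
  simp only [mem_biUnion, mem_range, mem_image]

private theorem Dez_blk (L m Of q b s : ℕ) (H : Of + 2 * (m / 8) + 2 + q ≤ L / 8)
    (hs : s < (b + 1) * m / 8 - b * m / 8) :
    bx L b + Of ≤ 2 * ((bx L b + Of) / 2) + 2 * s + 1 ∧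
      2 * ((bx L b + Of) / 2) + 2 * s + 2 + q ≤ bx L (b + 1) := by
  have h1 := Dez_mb m b
  have h2 := Dez_bxs L b
  omega

private theorem Dez_Gbd (L m Of q c u : ℕ) (H : Of + 2 * (m / 8) + 2 + q ≤ L / 8)
    (hu : u ∈ Dez_G L m Of c) : Even u ∧ ∃ b < c, bx L b + Of ≤ u + 1 ∧
      u + 2 + q ≤ bx L (b + 1) := by
  rw [Dez_Gmem] at hu
  obtain ⟨b, hb, s, hs, rfl⟩ := hu
  refine ⟨⟨(bx L b + Of) / 2 + s, by omega⟩, b, hb, Dez_blk L m Of q b s H hs⟩

private theorem Dez_Gcard (L m Of q : ℕ) (H : Of + 2 * (m / 8) + 2 + q ≤ L / 8) (c : ℕ) :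
    (Dez_G L m Of c).card = c * m / 8 := by
  induction c with
  | zero => simp [Dez_G]
  | succ c ih =>
    have h1 : Dez_G L m Of (c + 1) = Dez_G L m Of c ∪
        (range ((c + 1) * m / 8 - c * m / 8)).image fun s =>
          2 * ((bx L c + Of) / 2) + 2 * s := by
      ext u
      simp only [Dez_Gmem, mem_union, mem_image, mem_range]
      constructor
      · rintro ⟨b, hb, s, hs, h⟩
        rcases Nat.lt_succ_iff_lt_or_eq.1 hb with h2 | h2
        · exact Or.inl ⟨b, h2, s, hs, h⟩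
        · subst h2
          exact Or.inr ⟨s, hs, h⟩
      · rintro (⟨b, hb, s, hs, h⟩ | ⟨s, hs, h⟩)
        · exact ⟨b, by omega, s, hs, h⟩
        · exact ⟨c, by omega, s, hs, h⟩
    have h2 : Disjoint (Dez_G L m Of c) ((range ((c + 1) * m / 8 - c * m / 8)).image fun s =>
          2 * ((bx L c + Of) / 2) + 2 * s) := by
      rw [disjoint_left]
      intro u hu hu2
      obtain ⟨-, b, hb, h3, h4⟩ := Dez_Gbd L m Of q c u H hu
      rw [mem_image] at hu2
      obtain ⟨s, hs, h5⟩ := hu2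
      have h6 := Dez_bxm L (b + 1) c (by omega)
      omega
    rw [h1, card_union_of_disjoint h2, ih, card_image_of_injective _ (fun a b hab => by
      have h9 : 2 * ((bx L c + Of) / 2) + 2 * a = 2 * ((bx L c + Of) / 2) + 2 * b := hab
      omega), card_range]
    have h3 : c * m / 8 ≤ (c + 1) * m / 8 :=
      Nat.div_le_div_right (Nat.mul_le_mul_right _ (by omega))
    omega

private theorem Dez_Gfilt (L m Of q n c : ℕ) (H : Of + 2 * (m / 8) + 2 + q ≤ L / 8)
    (hc : c ≤ 8) (h1 : bx L c ≤ n + q) (h2 : n + 1 ≤ bx L c + Of) :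
    ((Dez_G L m Of 8).filter fun u => u < n) = Dez_G L m Of c := by
  ext u
  rw [mem_filter]
  constructor
  · rintro ⟨h3, h4⟩
    rw [Dez_Gmem] at h3 ⊢
    obtain ⟨b, hb, s, hs, h5⟩ := h3
    refine ⟨b, ?_, s, hs, h5⟩
    by_contra h6
    have h7 := Dez_bxm L c b (by omega)
    have h8 := (Dez_blk L m Of q b s H hs).1
    omega
  · intro h3
    obtain ⟨-, b, hb, h5, h6⟩ := Dez_Gbd L m Of q c u H h3
    have h7 := Dez_bxm L (b + 1) c (by omega)
    refine ⟨?_, by omega⟩
    rw [Dez_Gmem] at h3 ⊢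
    obtain ⟨b', hb', s, hs, h8⟩ := h3
    exact ⟨b', by omega, s, hs, h8⟩

private theorem Dez_sep (L m Of q n c : ℕ) (H : Of + 2 * (m / 8) + 2 + q ≤ L / 8)
    (h1 : bx L c ≤ n + q) (h2 : n + 1 ≤ bx L c + Of) :
    ∀ u ∈ Dez_G L m Of 8, u + 1 < n ∨ n ≤ u := by
  intro u hu
  obtain ⟨-, b, hb, h5, h6⟩ := Dez_Gbd L m Of q 8 u H hu
  rcases lt_or_ge b c with h7 | h7
  · have h8 := Dez_bxm L (b + 1) c (by omega)
    left
    omega
  · have h8 := Dez_bxm L c b h7
    right
    omega

private theorem Dez_miss (L z n : ℕ) (Gd Λ : Finset ℕ) (hev : ∀ u ∈ Gd, Even u)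
    (hn : ∀ u ∈ Gd, u + 1 < n ∨ n ≤ u) (hz : n ≤ z) (hnL : n ≤ L)
    (h1 : ∀ j < L, j ≠ z → (∀ u ∈ Gd, j ≠ u ∧ j ≠ u + 1) → j ∈ Λ)
    (h2 : ∀ u ∈ Gd, (u ∈ Λ ↔ u + 1 ∉ Λ)) :
    ∑ x ∈ range n, (if x ∈ Λ then 1 else 0) + (Gd.filter fun u => u < n).card = n := by
  have h3 : ((range n).filter fun x => ¬ x ∈ Λ) =
      (Gd.filter fun u => u < n).image fun u => if u ∈ Λ then u + 1 else u := by
    ext x
    rw [mem_filter, mem_image, mem_range]
    constructor
    · rintro ⟨hx, hxΛ⟩
      by_contra hc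
      apply hxΛ
      refine h1 x (by omega) (by omega) fun u hu => ⟨?_, ?_⟩
      · intro he
        subst he
        exact hc ⟨x, mem_filter.2 ⟨hu, hx⟩, if_neg hxΛ⟩
      · intro he
        subst he
        refine hc ⟨u, mem_filter.2 ⟨hu, by omega⟩, if_pos ((h2 u hu).2 hxΛ)⟩
    · rintro ⟨u, hu, rfl⟩
      rw [mem_filter] at hu
      have h4 := hn u hu.1
      by_cases h5 : u ∈ Λ
      · rw [if_pos h5]
        exact ⟨by omega, (h2 u hu.1).1 h5⟩
      · rw [if_neg h5]
        exact ⟨hu.2, h5⟩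
  have h4 : ((Gd.filter fun u => u < n).image fun u => if u ∈ Λ then u + 1 else u).card =
      (Gd.filter fun u => u < n).card := by
    apply card_image_of_injOn
    intro a ha b hb hab
    have ha' := hev a (mem_filter.1 (mem_coe.1 ha)).1
    have hb' := hev b (mem_filter.1 (mem_coe.1 hb)).1
    obtain ⟨k, hk⟩ := ha'
    obtain ⟨l, hl⟩ := hb'
    dsimp only at hab
    split_ifs at hab <;> omega
  have h5 := card_filter_add_card_filter_not (s := range n) (fun x => x ∈ Λ)
  rw [h3, h4, card_range] at h5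
  rw [sum_boole]
  exact h5

private theorem Dez_caseC (L N z p E0 c : ℕ) (M Λ : Finset ℕ) (zi : ℕ) (hN : L ≤ N)
    (hM : M = ((range L) \ Λ).erase zi) (hΛc : Λ.card = N - (L - 1)) (hL : 1 ≤ L)
    (h16 : 16 * Λ.card ≤ z) (hE0 : p + z + 3 ≤ E0) (hc : c < 8) :
    8 * ∑ x ∈ range (bx L c + p), (if x ∈ M then 1 else 0) ≤ c * N + 8 * E0 ∧
      c * N ≤ 8 * ∑ x ∈ range (bx L c - p), (if x ∈ M then 1 else 0) + 8 * E0 := by
  have h8 : bx L c ≤ L := by
    have h1 := Dez_bxm L c 8 (by omega)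
    have h2 : bx L 8 = L := by
      unfold bx
      omega
    omega
  constructor
  · have h1 : ∑ x ∈ range (bx L c + p), (if x ∈ M then 1 else 0) ≤ bx L c + p := by
      rw [sum_boole, Nat.cast_id]
      exact (card_filter_le _ _).trans (card_range _).le
    have h2 : c * L ≤ c * N := Nat.mul_le_mul_left _ hN
    have h3 : 8 * bx L c ≤ c * L := by
      unfold bx
      exact Nat.mul_div_le _ _
    omega
  · have h1 : (range (bx L c - p)) ⊆
        ((range (bx L c - p)).filter fun x => x ∈ M) ∪ (Λ ∪ {zi}) := by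
      intro x hx
      rw [mem_union, mem_filter, mem_union, mem_singleton]
      by_cases h2 : x ∈ Λ
      · exact Or.inr (Or.inl h2)
      · by_cases h3 : x = zi
        · exact Or.inr (Or.inr h3)
        · refine Or.inl ⟨hx, ?_⟩
          rw [hM, mem_erase, mem_sdiff, mem_range]
          rw [mem_range] at hx
          exact ⟨h3, by omega, h2⟩
    have h2 := card_le_card h1
    have h3 := card_union_le ((range (bx L c - p)).filter fun x => x ∈ M) (Λ ∪ {zi})
    have h4 := card_union_le Λ {zi}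
    rw [card_singleton] at h4
    rw [card_range] at h2
    rw [sum_boole, Nat.cast_id]
    have h5 : c * N ≤ c * L + 7 * Λ.card := by
      have h6 : N + 1 = L + Λ.card := by omega
      have h7 : c * (N + 1) = c * (L + Λ.card) := by rw [h6]
      rw [Nat.mul_add, Nat.mul_add] at h7
      have h9 : c * Λ.card ≤ 7 * Λ.card := Nat.mul_le_mul_right _ (by omega)
      omega
    have h6 : c * L ≤ 8 * bx L c + 7 := by
      unfold bx
      omega
    omega

private theorem Dez_caseB (L N m z p E0 Of c : ℕ) (Λ : Finset ℕ) (zi : ℕ) (hp : 1 ≤ p)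
    (hm : L = N + 1 + m) (H : Of + 2 * (m / 8) + 2 + 2 * p ≤ L / 8) (hOf : 2 * p + 1 ≤ Of)
    (hzi : bx L 7 + 2 * p ≤ zi)
    (h1 : ∀ j < L, j ≠ zi → (∀ u ∈ Dez_G L m Of 8, j ≠ u ∧ j ≠ u + 1) → j ∈ Λ)
    (h2 : ∀ u ∈ Dez_G L m Of 8, (u ∈ Λ ↔ u + 1 ∉ Λ)) (hE0 : p + z + 3 ≤ E0) (hc : c < 8) :
    8 * ∑ x ∈ range (bx L c + p), (if x ∈ Λ then 1 else 0) ≤ c * N + 8 * E0 ∧
      c * N ≤ 8 * ∑ x ∈ range (bx L c - p), (if x ∈ Λ then 1 else 0) + 8 * E0 := by
  rcases Nat.eq_zero_or_pos c with h0 | h0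
  · subst h0
    have h3 : bx L 0 = 0 := by
      unfold bx
      omega
    rw [h3]
    constructor
    · have h4 : ∑ x ∈ range (0 + p), (if x ∈ Λ then 1 else 0) ≤ p := by
        rw [sum_boole, Nat.cast_id]
        exact (card_filter_le _ _).trans (by rw [card_range]; omega)
      omega
    · omega
  · have h7 := Dez_bxm L c 7 (by omega)
    have h71 := Dez_bxs L 7
    have h78 : bx L (7 + 1) = L := by
      unfold bx
      omega
    have h01 := Dez_bxs L 0
    have h0c := Dez_bxm L (0 + 1) c (by omega)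
    have hev : ∀ u ∈ Dez_G L m Of 8, Even u := fun u hu =>
      (Dez_Gbd L m Of (2 * p) 8 u H hu).1
    have hA := Dez_miss L zi (bx L c + p) (Dez_G L m Of 8) Λ hev
      (Dez_sep L m Of (2 * p) (bx L c + p) c H (by omega) (by omega)) (by omega) (by omega) h1 h2
    have hB := Dez_miss L zi (bx L c - p) (Dez_G L m Of 8) Λ hev
      (Dez_sep L m Of (2 * p) (bx L c - p) c H (by omega) (by omega)) (by omega) (by omega) h1 h2
    rw [Dez_Gfilt L m Of (2 * p) (bx L c + p) c H (by omega) (by omega) (by omega),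
      Dez_Gcard L m Of (2 * p) H c] at hA
    rw [Dez_Gfilt L m Of (2 * p) (bx L c - p) c H (by omega) (by omega) (by omega),
      Dez_Gcard L m Of (2 * p) H c] at hB
    have h5 : c * L = c * N + c + c * m := by
      rw [hm]
      ring
    have h6 : 8 * bx L c ≤ c * L ∧ c * L ≤ 8 * bx L c + 7 := by
      unfold bx
      omega
    revert hA hB
    generalize ∑ x ∈ range (bx L c + p), (if x ∈ Λ then 1 else 0) = S1
    generalize ∑ x ∈ range (bx L c - p), (if x ∈ Λ then 1 else 0) = S2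
    intro hA hB
    constructor
    · omega
    · omega

theorem dez {V : Type} [Fintype V] (G : SimpleGraph V) (Δ p k : ℕ) (ty : ℕ → Prop)
    (nd qt cl un : V → ℕ) (sf : ℕ → Finset V) (t : ℕ) (φ : ℕ → V → V) (c0 : V → ℕ)
    (d D r z e E kap K1 : ℕ)
    (hF : Fz G Δ p k ty nd qt cl un sf t φ c0 d D r z e E kap K1) (zi : ℕ → ℕ) (s E0 : ℕ)
    (W : Finset V) (lam : V → ℕ) (hW : Wz G Δ p k ty nd cl t c0 zi s z W lam) (hp : 1 ≤ p)
    (hz : z ≤ Δ) (hE0 : p + z + 3 ≤ E0) (hΔ : 200 * p + 40 * t + 20 * kap + 200 ≤ Δ)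
    (i : ℕ) (hi : i < k) (hty : ty i)
    (hzi : bx (Δ + 2 * p) 7 + 2 * p ≤ zi i ∧ zi i < bx (Δ + 2 * p) 7 + 2 * p + kap) :
    ∃ b : ℕ → ℕ, (∀ j, b j ≤ 1) ∧
      ∑ j ∈ range (Δ + 2 * p), b j = ((pt nd (2 * i)).filter fun v => v ∉ W).card ∧
      b (zi i) = 0 ∧ (∀ v ∈ W, nd v = 2 * i → b (lam v) = 0) ∧
      ((∃ v, nd v = 2 * i ∧ v ∉ W) → 8 * (W.filter fun v => nd v = 2 * i).card ≤ z) ∧
      ((range (Δ + 2 * p)).filter fun ℓ => ¬ Even ((pt nd (2 * i)).card +
        cv nd (φ ℓ) (2 * i) +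
        sw p (Δ + 2 * p) (fun j => b j + wn nd W lam (2 * i) j) ℓ)).card ≤
          (pt nd (2 * i)).card ∧
      ((∃ v, nd v = 2 * i ∧ v ∉ W) → ∀ c < 8,
        8 * ∑ x ∈ range (bx (Δ + 2 * p) c + p), b x ≤ c * (pt nd (2 * i)).card + 8 * E0 ∧
        c * (pt nd (2 * i)).card ≤ 8 * ∑ x ∈ range (bx (Δ + 2 * p) c - p), b x + 8 * E0) := by
  set C := pt nd (2 * i) with hC
  have hmC : ∀ v, v ∈ C ↔ nd v = 2 * i := by
    intro v
    rw [hC]
    simp [pt]
  set Wi := W.filter fun v => nd v = 2 * i with hWi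
  have hCin : (C.filter fun v => v ∈ W) = Wi := by
    ext v
    rw [Finset.mem_filter, hmC, hWi, Finset.mem_filter]
    exact and_comm
  have hsplit : Wi.card + (C.filter fun v => v ∉ W).card = C.card := by
    rw [← hCin]
    exact Finset.card_filter_add_card_filter_not (s := C) (fun v => v ∈ W)
  have hevN : Even C.card := hF.even i hi hty
  have hbig : 9 * Δ ≤ 10 * C.card := hF.big i hi
  have hziL : zi i < Δ + 2 * p := by
    have h1 := hzi.2
    have h2 := Dez_bxs (Δ + 2 * p) 7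
    have h3 : bx (Δ + 2 * p) (7 + 1) = Δ + 2 * p := by
      unfold bx
      omega
    omega
  rcases hW.alt i hi hty with ⟨hCW, hN⟩ | ⟨h8, Λ, hΛ, hzΛ, hΛc, hlam, hw2⟩
  · refine ⟨fun _ => 0, fun _ => Nat.zero_le _, ?_, rfl, fun _ _ _ => rfl, ?_, ?_, ?_⟩
    · rw [Finset.sum_const_zero]
      symm
      rw [Finset.card_eq_zero, Finset.filter_eq_empty_iff]
      intro v hv hvW
      exact hvW (hCW hv)
    · rintro ⟨v, hv, hvW⟩
      exact absurd (hCW ((hmC v).2 hv)) hvW
    · refine (Finset.card_filter_le _ _).trans ?_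
      rw [Finset.card_range]
      exact hN
    · rintro ⟨v, hv, hvW⟩
      exact absurd (hCW ((hmC v).2 hv)) hvW
  · by_cases hN : C.card + 1 ≤ Δ + 2 * p
    · have hΛ0 : Λ = ∅ := by
        rw [← Finset.card_eq_zero, hΛc]
        exact Nat.sub_eq_zero_of_le (show C.card ≤ Δ + 2 * p - 1 by omega)
      have hno : ∀ v ∈ W, nd v ≠ 2 * i := by
        intro v hv hnd
        have := hlam v hv hnd
        rw [hΛ0] at this
        exact absurd this (Finset.notMem_empty _)
      have hWi0 : Wi = ∅ := by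
        rw [hWi, Finset.filter_eq_empty_iff]
        exact fun v hv => hno v hv
      have hwn : ∀ ℓ, wn nd W lam (2 * i) ℓ = 0 := by
        intro ℓ
        rw [wn, Finset.card_eq_zero, Finset.filter_eq_empty_iff]
        intro v hv h
        exact hno v hv h.1
      obtain ⟨L, hL⟩ : ∃ L, L = Δ + 2 * p := ⟨_, rfl⟩
      rw [← hL] at hN hziL hzi ⊢
      obtain ⟨m, hm⟩ : ∃ m, m = L - C.card - 1 := ⟨_, rfl⟩
      obtain ⟨Of, hOf⟩ : ∃ Of, Of = 8 * p + 2 * t + kap + 2 := ⟨_, rfl⟩
      have H : Of + 2 * (m / 8) + 2 + 2 * p ≤ L / 8 := by omega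
      have h88 : bx L (7 + 1) = L := by
        unfold bx
        omega
      obtain ⟨M, hM1, hM2, hM3, hM4, hM6, hM5⟩ := nmG p L C.card (zi i) (Dez_G L m Of 8)
        (fun ℓ => C.card + cv nd (φ ℓ) (2 * i)) hp hN hziL (by
          intro u hu
          obtain ⟨g1, b, hb, g2, g3⟩ := Dez_Gbd L m Of (2 * p) 8 u H hu
          have g4 := Dez_bxm L (b + 1) (7 + 1) (by omega)
          refine ⟨g1, by omega, by omega, ?_⟩
          rcases Nat.lt_or_ge b 7 with g5 | g5
          · have g6 := Dez_bxm L (b + 1) 7 (by omega)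
            constructor <;> omega
          · have g6 := Dez_bxm L 7 b g5
            constructor <;> omega) (by
          rw [Dez_Gcard L m Of (2 * p) H 8]
          omega)
      have hMc : ((range L).filter fun ℓ => ℓ ∈ M) = M := by
        ext ℓ
        rw [Finset.mem_filter]
        exact ⟨fun h => h.2, fun h => ⟨hM1 h, h⟩⟩
      have hsb : ∑ j ∈ range L, (if j ∈ M then 1 else 0) = C.card := by
        rw [Finset.sum_boole, hMc, hM3]
        rfl
      have hfun : (fun j => (if j ∈ M then 1 else 0) + wn nd W lam (2 * i) j) =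
          fun j => if j ∈ M then 1 else 0 := by
        funext j
        rw [hwn, add_zero]
      have hsw : ∀ ℓ, sw p L (fun j => if j ∈ M then 1 else 0) ℓ =
          (M.filter fun j => ℓ ∈ BB p L j).card := by
        intro ℓ
        unfold sw
        rw [Finset.sum_boole, Finset.filter_filter]
        have h2 : ((range L).filter fun j => ℓ ∈ BB p L j ∧ j ∈ M) =
            M.filter fun j => ℓ ∈ BB p L j := by
          ext j
          rw [Finset.mem_filter, Finset.mem_filter]
          exact ⟨fun h => ⟨h.2.2, h.2.1⟩, fun h => ⟨hM1 h.1, h.2, h.1⟩⟩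
        rw [h2]
        rfl
      refine ⟨fun ℓ => if ℓ ∈ M then 1 else 0, ?_, ?_, ?_, ?_, ?_, ?_, ?_⟩
      · intro ℓ
        dsimp only
        split_ifs <;> omega
      · rw [hsb]
        rw [hWi0, Finset.card_empty, zero_add] at hsplit
        exact hsplit.symm
      · exact if_neg hM2
      · intro v hv hnd
        exact absurd hnd (hno v hv)
      · intro _
        exact h8
      · dsimp only
        rw [hfun]
        have ho1 : ((range L).filter fun ℓ => ¬ Even (C.card + cv nd (φ ℓ) (2 * i) +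
            sw p L (fun j => if j ∈ M then 1 else 0) ℓ)).card ≤ C.card + 1 := by
          refine (Finset.card_le_card ?_).trans hM5
          intro ℓ hℓ
          rw [Finset.mem_filter] at hℓ ⊢
          rw [hsw ℓ] at hℓ
          exact hℓ
        have ho2 : Even ((range L).filter fun ℓ => ¬ Even (C.card + cv nd (φ ℓ) (2 * i) +
            sw p L (fun j => if j ∈ M then 1 else 0) ℓ)).card := by
          have h1 : Even (∑ ℓ ∈ range L, (C.card + cv nd (φ ℓ) (2 * i) +
              sw p L (fun j => if j ∈ M then 1 else 0) ℓ)) := by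
            rw [Finset.sum_add_distrib, Finset.sum_add_distrib, Finset.sum_const, smul_eq_mul,
              sw_sum p L (by omega), hsb]
            refine ((hevN.mul_left _).add ?_).add (hevN.mul_left _)
            rw [hL]
            exact hF.sE i hi hty
          rw [Finset.even_sum_iff_even_card_odd] at h1
          have h2 : ((range L).filter fun ℓ => ¬ Even (C.card + cv nd (φ ℓ) (2 * i) +
              sw p L (fun j => if j ∈ M then 1 else 0) ℓ)) = (range L).filter fun ℓ =>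
              Odd (C.card + cv nd (φ ℓ) (2 * i) +
                sw p L (fun j => if j ∈ M then 1 else 0) ℓ) := by
            apply Finset.filter_congr
            intro ℓ _
            exact Nat.not_even_iff_odd
          rw [h2]
          exact h1
        obtain ⟨a, ha⟩ := hevN
        obtain ⟨b, hb⟩ := ho2
        omega
      · intro _ c hc
        exact Dez_caseB L C.card m z p E0 Of c M (zi i) hp (by omega) H (by omega) hzi.1
          hM4 hM6 hE0 hc
    · have hN' : Δ + 2 * p ≤ C.card := by omega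
      have hWic : Wi.card = 2 * Λ.card := by
        have h1 : Wi.card = ∑ ℓ ∈ Λ, (Wi.filter fun v => lam v = ℓ).card := by
          apply Finset.card_eq_sum_card_fiberwise
          intro v hv
          have hv' : v ∈ W ∧ nd v = 2 * i := by
            have h2 : v ∈ Wi := hv
            rw [hWi, Finset.mem_filter] at h2
            exact h2
          exact hlam v hv'.1 hv'.2
        rw [h1]
        have h3 : ∀ ℓ ∈ Λ, (Wi.filter fun v => lam v = ℓ).card = 2 := by
          intro ℓ hℓ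
          rw [← hw2 ℓ hℓ, wn, hWi, Finset.filter_filter]
        rw [Finset.sum_congr rfl h3, Finset.sum_const, smul_eq_mul, mul_comm]
      set M := ((range (Δ + 2 * p)) \ Λ).erase (zi i) with hM
      have hMc : M.card + Λ.card + 1 = Δ + 2 * p := by
        have hz1 : zi i ∈ (range (Δ + 2 * p)) \ Λ :=
          Finset.mem_sdiff.2 ⟨Finset.mem_range.2 hziL, hzΛ⟩
        have h1 : M.card + 1 = ((range (Δ + 2 * p)) \ Λ).card :=
          Finset.card_erase_add_one hz1
        have h2 : ((range (Δ + 2 * p)) \ Λ).card + Λ.card = (range (Δ + 2 * p)).card :=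
          Finset.card_sdiff_add_card_eq_card hΛ
        rw [Finset.card_range] at h2
        omega
      refine ⟨fun ℓ => if ℓ ∈ M then 1 else 0, ?_, ?_, ?_, ?_, ?_, ?_, ?_⟩
      · intro ℓ
        dsimp only
        split_ifs <;> omega
      · rw [Finset.sum_boole]
        have h1 : ((range (Δ + 2 * p)).filter fun ℓ => ℓ ∈ M) = M := by
          ext ℓ
          rw [Finset.mem_filter]
          refine ⟨fun h => h.2, fun h => ⟨?_, h⟩⟩
          rw [hM, Finset.mem_erase, Finset.mem_sdiff] at h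
          exact h.2.1
        rw [h1, Nat.cast_id]
        have hΛc' : Λ.card = C.card - (Δ + 2 * p - 1) := hΛc
        have hgoal : M.card = (C.filter fun v => v ∉ W).card := by omega
        exact hgoal
      · apply if_neg
        rw [hM]
        exact Finset.notMem_erase _ _
      · intro v hv hnd
        apply if_neg
        rw [hM, Finset.mem_erase, Finset.mem_sdiff]
        intro h
        exact h.2.2 (hlam v hv hnd)
      · intro _
        exact h8
      · refine (Finset.card_filter_le _ _).trans ?_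
        rw [Finset.card_range]
        exact hN'
      · intro _ c hc
        have h8' : 8 * Wi.card ≤ z := h8
        exact Dez_caseC (Δ + 2 * p) C.card z p E0 c M Λ (zi i) hN' hM hΛc (by omega)
          (by omega) hE0 hc

end Pool.Agent.H46.G2
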