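import Mathlib
import Pool.Agent.H46.GA.Grd
import Pool.Agent.H46.G2.Bcl

/-!
SAZ: the vertices with the colours of the exceptional vertices. Adaptation of `sap` (`Pool/Agent/H46/GP/Sap.lean`, proved); all the chosen vertices are in the class `6`. Use the STATEMENT of `grd` (`GA/Grd.lean`).

Proof.  As for `sap`: slots `S := {(w, j) : w ∈ pt nd (2 k), j < 2 k, 0 < a j (c0 w)}` (then `a j (c0 w) = 1` by `hA.s1`), `#S ≤ 2 k r`, `lab (w, j) := c0 w`, `Cd (w, j) := {v : nd v = j, v ∉ W, cl v = 6, ¬ G.Adj w v, dg (Fg G k ty nd) v ≤ e}`: `2 #{..} ≥ z` without the last condition (`hA.cd`), at most `e` vertices violate it (`hF.hi`). `grd` with `K0 := 2 k`, `d0 := e` by `hn`.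
-/

set_option autoImplicit false

namespace Pool.Agent.H46.G2

open Finset Classical
open Pool.Agent.H71.DN Pool.Agent.H71.DX Pool.Agent.H71.DR Pool.Agent.H71.HL Pool.Agent.H71.DC
open Pool.Agent.H71.TD Pool.Agent.H90.TDP Pool.Agent.H46.GA Pool.Agent.H46.GP

theorem saz {V : Type} [Fintype V] (G : SimpleGraph V) (Δ p k : ℕ) (ty : ℕ → Prop)
    (nd qt cl un : V → ℕ) (sf : ℕ → Finset V) (t : ℕ) (φ : ℕ → V → V) (c0 : V → ℕ)
    (d D r z e E kap K1 : ℕ)
    (hF : Fz G Δ p k ty nd qt cl un sf t φ c0 d D r z e E kap K1) (E0 K : ℕ)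
    (W : Finset V) (lam : V → ℕ) (a : ℕ → ℕ → ℕ)
    (hA : Dn G Δ p k ty nd cl t c0 z E0 K W lam a)
    (hn : 2 * (e + 2 * k * r + 2 * k * e) < z) :
    ∃ (T : Finset V) (lb : V → V), (∀ v ∈ T, nd v < 2 * k ∧ v ∉ W ∧ cl v = 6) ∧
      T.card ≤ 2 * k * r ∧
      (∀ v ∈ T, lb v ∈ pt nd (2 * k) ∧ ¬ G.Adj (lb v) v) ∧
      (∀ w ∈ pt nd (2 * k), ∀ j < 2 * k,
        (T.filter fun v => nd v = j ∧ lb v = w).card = a j (c0 w)) ∧
      ∀ u ∈ T, ∀ v ∈ T, lb u = lb v → ¬ G.Adj u v := by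
  rcases isEmpty_or_nonempty V with hE | hV
  · exact ⟨∅, id, by simp, by simp, by simp, fun w => isEmptyElim w, by simp⟩
  obtain ⟨S, hS⟩ : ∃ S : Finset (V × ℕ), S = ((pt nd (2 * k)) ×ˢ (range (2 * k))).filter
    fun s => 0 < a s.2 (c0 s.1) := ⟨_, rfl⟩
  have mS : ∀ s, s ∈ S ↔ (s.1 ∈ pt nd (2 * k) ∧ s.2 < 2 * k) ∧ 0 < a s.2 (c0 s.1) := by
    intro s
    rw [hS, mem_filter, mem_product, mem_range]
  have cS : S.card ≤ 2 * k * r := by
    rw [hS]
    refine (card_filter_le _ _).trans ?_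
    rw [card_product, card_range]
    have h1 := Nat.mul_le_mul_right (2 * k) hF.lo
    refine h1.trans (le_of_eq ?_)
    ring
  obtain ⟨Cd, mC⟩ : ∃ Cd : V × ℕ → Finset V, ∀ s v, v ∈ Cd s ↔ nd v = s.2 ∧ v ∉ W ∧
      cl v = 6 ∧ ¬ G.Adj s.1 v ∧ dg (Fg G k ty nd) v ≤ e :=
    ⟨fun s => univ.filter fun v => nd v = s.2 ∧ v ∉ W ∧ cl v = 6 ∧ ¬ G.Adj s.1 v ∧
      dg (Fg G k ty nd) v ≤ e,
      fun s v => by simp only [mem_filter, mem_univ, true_and]⟩
  obtain ⟨ch, k1, k2, k3⟩ := grd (Fg G k ty nd) S (fun s => c0 s.1) Cd (2 * k) e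
    (by
      intro s hs
      have h1 : (S.filter fun s' => c0 s'.1 = c0 s.1) ⊆ {s.1} ×ˢ (range (2 * k)) := by
        intro s' hs'
        rw [mem_filter, mS] at hs'
        rw [mem_product, mem_singleton, mem_range]
        exact ⟨hF.c2 _ hs'.1.1.1 _ ((mS s).1 hs).1.1 hs'.2, hs'.1.1.2⟩
      refine (card_le_card h1).trans ?_
      rw [card_product, card_range, card_singleton]
      omega)
    (fun s _ v hv => ((mC s v).1 hv).2.2.2.2)
    (by
      intro s hs
      obtain ⟨⟨h1, h2⟩, h4⟩ := (mS s).1 hs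
      have h5 := hA.cd s.1 h1 s.2 h2 h4
      have h6 : ((pt nd s.2).filter fun v => v ∉ W ∧ cl v = 6 ∧ ¬ G.Adj s.1 v) ⊆ Cd s ∪
          (univ.filter fun v => nd v < 2 * k ∧ e < dg (Fg G k ty nd) v) := by
        intro v hv
        rw [mem_filter] at hv
        have h7 : nd v = s.2 := (mem_filter.1 hv.1).2
        rw [mem_union, mC, mem_filter]
        by_cases h9 : dg (Fg G k ty nd) v ≤ e
        · exact Or.inl ⟨h7, hv.2.1, hv.2.2.1, hv.2.2.2, h9⟩
        · exact Or.inr ⟨mem_univ _, by omega, by omega⟩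
      have h7 := card_le_card h6
      have h8 := card_union_le (Cd s)
          (univ.filter fun v => nd v < 2 * k ∧ e < dg (Fg G k ty nd) v)
      have h11 := hF.hi
      omega) hV
  have hlb : ∀ v, ∃ w : V, ∀ s ∈ S, ch s = v → s.1 = w := by
    intro v
    by_cases h : ∃ s ∈ S, ch s = v
    · obtain ⟨s, hs, he⟩ := h
      exact ⟨s.1, fun s' hs' he' => by rw [k2 s' hs' s hs (he'.trans he.symm)]⟩
    · exact ⟨v, fun s hs he => absurd ⟨s, hs, he⟩ h⟩
  choose lb hlb using hlb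
  have lb1 : ∀ s ∈ S, lb (ch s) = s.1 := fun s hs => (hlb (ch s) s hs rfl).symm
  refine ⟨S.image ch, lb, ?_, card_image_le.trans cS, ?_, ?_, ?_⟩
  · intro v hv
    obtain ⟨s, hs, rfl⟩ := mem_image.1 hv
    have h1 := (mC s _).1 (k1 s hs)
    exact ⟨by rw [h1.1]; exact ((mS s).1 hs).1.2, h1.2.1, h1.2.2.1⟩
  · intro v hv
    obtain ⟨s, hs, rfl⟩ := mem_image.1 hv
    have h1 := (mC s _).1 (k1 s hs)
    rw [lb1 s hs]
    exact ⟨((mS s).1 hs).1.1, h1.2.2.2.1⟩
  · intro w hw j hj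
    have h3 := hA.s1 w hw j hj
    have h1 : (range (a j (c0 w))).card = ((S.image ch).filter fun v => nd v = j ∧ lb v = w).card := by
      have h2 : ∀ m, m < a j (c0 w) → (w, j) ∈ S := by
        intro m hm
        exact (mS _).2 ⟨⟨hw, hj⟩, by dsimp only; omega⟩
      refine card_bij (fun _ _ => ch (w, j)) ?_ ?_ ?_
      · intro m hm
        have h4 := h2 m (mem_range.1 hm)
        rw [mem_filter]
        exact ⟨mem_image_of_mem _ h4, ((mC _ _).1 (k1 _ h4)).1, lb1 _ h4⟩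
      · intro m hm m' hm' _
        have h4 := mem_range.1 hm
        have h5 := mem_range.1 hm'
        omega
      · intro v hv
        rw [mem_filter] at hv
        obtain ⟨s, hs, rfl⟩ := mem_image.1 hv.1
        have h4 := ((mC s _).1 (k1 s hs)).1
        rw [lb1 s hs] at hv
        have h5 := ((mS s).1 hs).2
        obtain ⟨s1, s2⟩ := s
        dsimp only at h4 h5 hv
        have h6 : s2 = j := h4.symm.trans hv.2.1
        have h7 : s1 = w := hv.2.2
        subst h6 h7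
        exact ⟨0, mem_range.2 h5, rfl⟩
    rw [← h1, card_range]
  · intro u hu v hv huv hG
    obtain ⟨s, hs, rfl⟩ := mem_image.1 hu
    obtain ⟨s', hs', rfl⟩ := mem_image.1 hv
    rw [lb1 s hs, lb1 s' hs'] at huv
    have h1 := k3 s hs s' hs' (by rw [huv])
    have h2 : (Hg G k ty nd).Adj (ch s) (ch s') := by
      by_contra h3
      exact h1 ⟨hG, h3⟩
    have h3 := ((mC s _).1 (k1 s hs)).1
    have h4 := ((mC s' _).1 (k1 s' hs')).1
    have g1 := (mS s).1 hs
    have g2 := (mS s').1 hs'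
    rw [← huv] at g2
    obtain ⟨-, h5, h6, h7, h8⟩ := h2
    rw [h3] at h5 h7 h8
    rw [h4] at h6 h7 h8
    have hne : s.2 = s'.2 → False := by
      intro h9
      have h11 : s = s' := Prod.ext huv h9
      rw [h11] at hG
      exact G.irrefl hG
    have hik : s.2 / 2 < k := by omega
    by_cases hty : ty (s.2 / 2)
    · have hodd : ∀ (x : V), nd x < 2 * k → nd x / 2 = s.2 / 2 → nd x = 2 * (s.2 / 2) := by
        intro x hx1 hx2
        by_contra h9
        have h10 : nd x = 2 * (s.2 / 2) + 1 := by omega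
        have h11 : x ∈ pt nd (2 * (s.2 / 2) + 1) := mem_filter.2 ⟨mem_univ _, h10⟩
        rw [hF.odd _ hik hty] at h11
        exact notMem_empty _ h11
      have h9 := hodd (ch s) (by omega) (by rw [h3])
      have h10 := hodd (ch s') (by omega) (by rw [h4, h7])
      rw [h3] at h9
      rw [h4] at h10
      exact hne (by rw [h10, ← h9])
    · have hne2 := h8.resolve_left hty
      have h9 := hA.b1 _ hik hty (c0 s.1)
      have g3 := g1.2
      have g4 := g2.2
      rcases Nat.mod_two_eq_zero_or_one s.2 with h10 | h10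
      · have e1 : s.2 = 2 * (s.2 / 2) := by omega
        have e2 : s'.2 = 2 * (s.2 / 2) + 1 := by omega
        rw [← e2, ← e1] at h9
        omega
      · have e1 : s.2 = 2 * (s.2 / 2) + 1 := by omega
        have e2 : s'.2 = 2 * (s.2 / 2) := by omega
        rw [← e1, ← e2] at h9
        omega

end Pool.Agent.H46.G2
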