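import Mathlib
import Pool.Agent.H46.GP.Cl3
import Pool.Agent.H46.G2.Bcl

/-!
SBZ: the labels of the remaining vertices. Adaptation of `sbp` (`Pool/Agent/H46/GP/Sbp.lean`, proved) with pools (piece, class); there are no conditions from `φ` here. Use the STATEMENTS of `cl3` (`GP/Cl3.lean`), `GP/Bbl.lean`, `G2/Bcl.lean`.

Proof.  `L := Δ + 2 p`, `F := Fg G k ty nd`, `U := {v // nd v < 2 k ∧ v ∉ W ∧ v ∉ T}`. `ι := Fin (2 k) × Fin 7` (`14 k` elements), `pool v := (nd v, cl v)`, `x v := qt v < 2`, `a' (j, c) ℓ := if ℓ is special (= c0 w for some w ∈ pt nd (2 k)) then 0 else ac j c ℓ`, `Z1 := {j < L : BB p L j contains a label of T1}`, `Z2` for `T2` as for `sbp`,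
 `forb ℓ := {v : there is u ∈ W with F.Adj u v and lam u = ℓ}`. `cl3` with `S := K`, `d`, `f := d`, `g := 2 k s d`.
 * `ha`: `hB.le`, `hA.le`. `hf`: at most `dg F v ≤ d` labels. `hg`: the vertices of `W` with `lam u = ℓ` are at most `2 k s` (`hW.sz, hW.sub`), each with at most `d` neighbours.
 * `hsum` for `(j, c)`: `∑_{ℓ < L} ac j c ℓ = #{v ∈ pt nd j : v ∉ W, cl v = c}` (`hB.sum`). Special labels `ℓ = c0 w` satisfy `bx L 7 + 2 p ≤ ℓ` (`hF.c1`), so `ac j c ℓ = 0` for `c ≠ 6` (`hB.rg`, `hi_K`) and `ac j 6 ℓ = a j ℓ` (`hB.tot`). So the sum of `ac j 6` over the special labels is `∑_{w ∈ pt nd (2 k)} a j (c0 w) = #{v ∈ T : nd v = j}` (`hT4`, `hT3`, `c0` injective), and all `v ∈ T` have `cl v = 6`, `v ∉ W`.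
 * `hX, hY`: if the pool is empty the sum is `0` by `hsum`. Otherwise the pool with `x` has at least `Δ / 40 - z / 8 - 2 k r` elements (`hF.halfc`, `hA.wl`, `hT2`), and the sum over `Z2` is at most `t + 2 p` (`hA.t1`, `hB.le`, `zz2`), `hn2`. `hbig`: `K (d + d) + 2 k s d + 2 (14 k) K d` and `hn1`.
 `c1 v :=` the label. It is not special and the number `a' (nd v, cl v) (c1 v)` is not `0`, so `hB.rg` gives the range. No `F`-neighbour `u ∈ W` has `lam u = c1 v`. T1, T2: `c1 v ∉ Z1` resp. `Z2`.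
 * numbers: the number of `v` with `nd v = j`, `c1 v = ℓ` (not special) is `∑_{c < 7} ac j c ℓ = a j ℓ` (`hB.tot`, `hF.clt`).
 * `u ∈ W`, `v ∈ U`, `G.Adj u v`; `u, v ∈ U`, `G.Adj u v`: as for `sbp`, with the numbers of the last claim: not `F`-adjacent implies adjacent in `Hg`; for `ty i` both are in the piece `2 i` and `a (2 i) (lam u) = 0` (`hA.e2`; `lam u` is not special, `hW.sp`), resp. `a (2 i) ℓ ≤ 1` (`hA.e1`); for `¬ ty i` `hA.b1`. (If two vertices of the piece `2 i` have the same label `ℓ` then the number of the last claim is at least `2`.)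
-/

set_option autoImplicit false

namespace Pool.Agent.H46.G2

open Finset Classical
open Pool.Agent.H71.DN Pool.Agent.H71.DX Pool.Agent.H71.DR Pool.Agent.H71.HL Pool.Agent.H71.DC
open Pool.Agent.H71.TD Pool.Agent.H90.TDP Pool.Agent.H46.GA Pool.Agent.H46.GP

/-- The number of points with `p`. -/
private noncomputable def sbz_c {V : Type} [Fintype V] (p : V → Prop) : ℕ :=
  (@Finset.filter V p (fun _ => Classical.propDecidable _) univ).card

private theorem sbz_mf {V : Type} {p : V → Prop} {i : DecidablePred p} {s : Finset V} {a : V} :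
    a ∈ @Finset.filter V p i s ↔ a ∈ s ∧ p a := @Finset.mem_filter V p i s a

private theorem sbz_0 {V : Type} [Fintype V] {p : V → Prop} (h : ∀ v, ¬ p v) : sbz_c p = 0 := by
  unfold sbz_c
  rw [Finset.card_eq_zero]
  apply Finset.eq_empty_of_forall_notMem
  intro v hv
  exact h v (sbz_mf.1 hv).2

private theorem sbz_pos {V : Type} [Fintype V] {p : V → Prop} (v : V) (h : p v) :
    0 < sbz_c p := by
  unfold sbz_c
  exact Finset.card_pos.2 ⟨v, sbz_mf.2 ⟨mem_univ _, h⟩⟩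

private theorem sbz_one {V : Type} [Fintype V] {p : V → Prop} (h : sbz_c p ≤ 1) {u v : V}
    (hu : p u) (hv : p v) : u = v := by
  unfold sbz_c at h
  exact Finset.card_le_one.1 h u (sbz_mf.2 ⟨mem_univ _, hu⟩) v (sbz_mf.2 ⟨mem_univ _, hv⟩)

private theorem sbz_e {V : Type} [Fintype V] {p q : V → Prop} {i1 : DecidablePred p}
    (h : ∀ v, p v ↔ q v) : (@Finset.filter V p i1 univ).card = sbz_c q := by
  unfold sbz_c
  apply congrArg Finset.card
  ext v
  rw [Finset.mem_filter, Finset.mem_filter, h v]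

private theorem sbz_tr {V : Type} [Fintype V] {P : V → Prop} {i0 : Fintype {v // P v}}
    {q : {v // P v} → Prop} {r : V → Prop} {i1 : DecidablePred q}
    (h1 : ∀ v : {v // P v}, q v ↔ r v.1) (h2 : ∀ v, r v → P v) :
    (@Finset.filter _ q i1 univ).card = sbz_c r := by
  unfold sbz_c
  rw [← Finset.card_map (Function.Embedding.subtype P)]
  apply congrArg Finset.card
  ext v
  rw [mem_map, mem_filter]
  constructor
  · rintro ⟨w, hw, rfl⟩
    rw [mem_filter] at hw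
    exact ⟨mem_univ _, (h1 w).1 hw.2⟩
  · rintro ⟨_, hv⟩
    exact ⟨⟨v, h2 v hv⟩, by rw [mem_filter]; exact ⟨mem_univ _, (h1 _).2 hv⟩, rfl⟩

private theorem sbz_le {V : Type} [Fintype V] {p q : V → Prop}
    (h : ∀ v, p v → q v) : sbz_c p ≤ sbz_c q := by
  unfold sbz_c
  apply Finset.card_le_card
  intro v hv
  rw [Finset.mem_filter] at hv ⊢
  exact ⟨hv.1, h v hv.2⟩

private theorem sbz_sub {V : Type} [Fintype V] {p : V → Prop} {A : Finset V}
    (h : ∀ v, p v → v ∈ A) : sbz_c p ≤ A.card := by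
  unfold sbz_c
  apply Finset.card_le_card
  intro v hv
  rw [Finset.mem_filter] at hv
  exact h v hv.2

theorem sbz {V : Type} [Fintype V] (G : SimpleGraph V) (Δ p k : ℕ) (ty : ℕ → Prop)
    (nd qt cl un : V → ℕ) (sf : ℕ → Finset V) (t : ℕ) (φ : ℕ → V → V) (c0 : V → ℕ)
    (d D r z e E kap K1 : ℕ)
    (hF : Fz G Δ p k ty nd qt cl un sf t φ c0 d D r z e E kap K1) (hp : 1 ≤ p)
    (zi : ℕ → ℕ) (s E0 K : ℕ) (W : Finset V) (lam : V → ℕ)
    (hW : Wz G Δ p k ty nd cl t c0 zi s z W lam)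
    (a : ℕ → ℕ → ℕ) (hA : Dn G Δ p k ty nd cl t c0 z E0 K W lam a)
    (ac : ℕ → ℕ → ℕ → ℕ) (hB : Dc Δ p k nd cl W a ac)
    (hn1 : 40 * (2 * K * d + 2 * k * s * d + 28 * k * K * d + z + 2 * k * r) < Δ)
    (hn2 : 40 * (t + 2 * p + z + 2 * k * r) ≤ Δ) (hkap : 16 * (kap + 8 * p + 8) ≤ Δ)
    (T : Finset V) (lb : V → V) (hT1 : ∀ v ∈ T, nd v < 2 * k ∧ v ∉ W ∧ cl v = 6)
    (hT2 : T.card ≤ 2 * k * r)
    (hT3 : ∀ v ∈ T, lb v ∈ pt nd (2 * k))
    (hT4 : ∀ w ∈ pt nd (2 * k), ∀ j < 2 * k,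
      (T.filter fun v => nd v = j ∧ lb v = w).card = a j (c0 w)) :
    ∃ c1 : V → ℕ,
      (∀ v, nd v < 2 * k → v ∉ W → v ∉ T → c1 v < Δ + 2 * p ∧
        (∀ w ∈ pt nd (2 * k), c1 v ≠ c0 w) ∧
        (lo p (Δ + 2 * p) (cl v) ≤ c1 v ∧ c1 v < hi p (Δ + 2 * p) (cl v)) ∧
        (∀ u ∈ W, G.Adj u v → lam u ≠ c1 v) ∧
        (qt v < 2 → ∀ ℓ ∈ BB p (Δ + 2 * p) (c1 v), ¬ T1 p t ℓ) ∧
        (¬ qt v < 2 → ∀ ℓ ∈ BB p (Δ + 2 * p) (c1 v), ¬ T2 p t ℓ)) ∧
      (∀ u v, nd u < 2 * k → u ∉ W → u ∉ T → nd v < 2 * k → v ∉ W → v ∉ T → G.Adj u v →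
        c1 u ≠ c1 v) ∧
      ∀ j < 2 * k, ∀ ℓ < Δ + 2 * p, (∀ w ∈ pt nd (2 * k), ℓ ≠ c0 w) →
        (univ.filter fun v => nd v = j ∧ v ∉ W ∧ v ∉ T ∧ c1 v = ℓ).card = a j ℓ := by
  set F := Fg G k ty nd with hFdef
  set P : V → Prop := fun v => nd v < 2 * k ∧ v ∉ W ∧ v ∉ T with hP
  set sp : ℕ → Prop := fun ℓ => ∃ w ∈ pt nd (2 * k), ℓ = c0 w with hsp
  have hL6 : 6 * p + 2 * t ≤ Δ + 2 * p := by omega
  have hL1 : 2 * p - 1 ≤ Δ + 2 * p := by omega
  have hL7 : bx (Δ + 2 * p) 7 + 2 * p + kap ≤ Δ + 2 * p := by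
    unfold bx
    omega
  -- the sizes of the pools
  have hTW : ∀ v ∈ T, v ∉ W := fun v hv => (hT1 v hv).2.1
  have hsumT : ∀ j < 2 * k, ∑ w ∈ pt nd (2 * k), a j (c0 w) =
      (T.filter fun v => nd v = j).card := by
    intro j hj
    have h1 : (T.filter fun v => nd v = j).card =
        ∑ w ∈ pt nd (2 * k), ((T.filter fun v => nd v = j).filter fun v => lb v = w).card := by
      apply Finset.card_eq_sum_card_fiberwise
      intro v hv
      have hv' := Finset.mem_coe.1 hv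
      rw [mem_filter] at hv'
      exact Finset.mem_coe.2 (hT3 v hv'.1)
    rw [h1]
    apply Finset.sum_congr rfl
    intro w hw
    rw [← hT4 w hw j hj, filter_filter]
  have hsumS : ∀ j < 2 * k, ∑ ℓ ∈ range (Δ + 2 * p), (if sp ℓ then a j ℓ else 0) =
      (T.filter fun v => nd v = j).card := by
    intro j hj
    rw [← hsumT j hj, ← Finset.sum_filter]
    have h1 : (range (Δ + 2 * p)).filter sp = (pt nd (2 * k)).image c0 := by
      ext ℓ
      rw [mem_filter, mem_image, mem_range]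
      constructor
      · rintro ⟨_, w, hw, rfl⟩
        exact ⟨w, hw, rfl⟩
      · rintro ⟨w, hw, rfl⟩
        exact ⟨by have := (hF.c1 w hw).2; omega, w, hw, rfl⟩
    rw [h1, Finset.sum_image]
    intro w hw w' hw' h
    exact hF.c2 w (Finset.mem_coe.1 hw) w' (Finset.mem_coe.1 hw') h
  have hsp6 : ∀ j < 2 * k, ∀ c < 7, c ≠ 6 → ∀ ℓ < Δ + 2 * p, sp ℓ → ac j c ℓ = 0 := by
    intro j hj c hc hc6 ℓ hℓ hs
    obtain ⟨w, hw, rfl⟩ := hs
    by_contra h0
    have h1 := hB.rg j hj c hc (c0 w) hℓ h0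
    exact hc6 (hi_K p (Δ + 2 * p) c (c0 w) hc hp (hF.c1 w hw).1 h1.2)
  have hsp7 : ∀ j < 2 * k, ∀ ℓ < Δ + 2 * p, sp ℓ → ac j 6 ℓ = a j ℓ := by
    intro j hj ℓ hℓ hs
    rw [← hB.tot j hj ℓ hℓ]
    symm
    apply Finset.sum_eq_single_of_mem 6 (mem_range.2 (by norm_num))
    intro c hc hc6
    exact hsp6 j hj c (mem_range.1 hc) hc6 ℓ hℓ hs
  have hsumN : ∀ j < 2 * k, ∀ c < 7,
      ∑ ℓ ∈ range (Δ + 2 * p), (if sp ℓ then 0 else ac j c ℓ) =
      sbz_c fun v => nd v = j ∧ cl v = c ∧ v ∉ W ∧ v ∉ T := by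
    intro j hj c hc
    by_cases hc6 : c = 6
    · rw [hc6]
      have h1 : ∑ ℓ ∈ range (Δ + 2 * p), (if sp ℓ then 0 else ac j 6 ℓ) +
          ∑ ℓ ∈ range (Δ + 2 * p), (if sp ℓ then a j ℓ else 0) =
            ∑ ℓ ∈ range (Δ + 2 * p), ac j 6 ℓ := by
        rw [← Finset.sum_add_distrib]
        apply Finset.sum_congr rfl
        intro ℓ hℓ
        by_cases h : sp ℓ
        · rw [if_pos h, if_pos h, zero_add, hsp7 j hj ℓ (mem_range.1 hℓ) h]
        · rw [if_neg h, if_neg h, add_zero]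
      have h2 : ((pt nd j).filter fun v => v ∉ W ∧ cl v = 6).card =
          (sbz_c fun v => nd v = j ∧ cl v = 6 ∧ v ∉ W ∧ v ∉ T) +
          (T.filter fun v => nd v = j).card := by
        rw [← sbz_e (p := fun v => nd v = j ∧ cl v = 6 ∧ v ∉ W ∧ v ∉ T)
          (i1 := fun _ => Classical.propDecidable _) (fun v => Iff.rfl)]
        rw [← Finset.card_filter_add_card_filter_not
          (s := (pt nd j).filter fun v => v ∉ W ∧ cl v = 6) (fun v => v ∉ T)]
        have h3 : ((pt nd j).filter fun v => v ∉ W ∧ cl v = 6).filter (fun v => v ∉ T) =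
            @Finset.filter V (fun v => nd v = j ∧ cl v = 6 ∧ v ∉ W ∧ v ∉ T)
              (fun _ => Classical.propDecidable _) univ := by
          ext v
          simp only [pt, mem_filter, mem_univ, true_and]
          tauto
        have h4 : ((pt nd j).filter fun v => v ∉ W ∧ cl v = 6).filter (fun v => ¬ v ∉ T) =
            T.filter fun v => nd v = j := by
          ext v
          simp only [pt, mem_filter, mem_univ, true_and, not_not]
          constructor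
          · rintro ⟨⟨h5, _⟩, h6⟩
            exact ⟨h6, h5⟩
          · rintro ⟨h5, h6⟩
            exact ⟨⟨h6, hTW v h5, (hT1 v h5).2.2⟩, h5⟩
        rw [h3, h4]
      rw [hB.sum j hj 6 (by norm_num), h2, hsumS j hj] at h1
      exact Nat.add_right_cancel h1
    · have h1 : ∑ ℓ ∈ range (Δ + 2 * p), (if sp ℓ then 0 else ac j c ℓ) =
          ∑ ℓ ∈ range (Δ + 2 * p), ac j c ℓ := by
        apply Finset.sum_congr rfl
        intro ℓ hℓ
        by_cases h : sp ℓ
        · rw [if_pos h, hsp6 j hj c hc hc6 ℓ (mem_range.1 hℓ) h]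
        · rw [if_neg h]
      rw [h1, hB.sum j hj c hc]
      unfold sbz_c
      apply congrArg Finset.card
      ext v
      simp only [pt, mem_filter, mem_univ, true_and]
      constructor
      · rintro ⟨h2, h3, h4⟩
        exact ⟨h2, h4, h3, fun h5 => hc6 (h4.symm.trans (hT1 v h5).2.2)⟩
      · rintro ⟨h2, h3, h4, _⟩
        exact ⟨h2, h4, h3⟩
  -- large pools
  have hlarge : ∀ v0, nd v0 < 2 * k → v0 ∉ W → ∀ y : V → Prop,
      (Δ ≤ 40 * sbz_c fun u => nd u = nd v0 ∧ y u) →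
      Δ ≤ 40 * (sbz_c fun u => nd u = nd v0 ∧ u ∉ W ∧ u ∉ T ∧ y u) + 5 * z +
        40 * (2 * k * r) := by
    intro v0 hv0 hvW y hy
    have h1 := hA.wl (nd v0) hv0 ⟨v0, rfl, hvW⟩
    have h2 : (sbz_c fun u => nd u = nd v0 ∧ y u) ≤
        (sbz_c fun u => nd u = nd v0 ∧ u ∉ W ∧ u ∉ T ∧ y u) +
        (W.filter fun v => nd v = nd v0).card + T.card := by
      have h3 : (sbz_c fun u => nd u = nd v0 ∧ y u) ≤
          (((@Finset.filter V (fun u => nd u = nd v0 ∧ u ∉ W ∧ u ∉ T ∧ y u)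
            (fun _ => Classical.propDecidable _) univ) ∪
          (W.filter fun v => nd v = nd v0)) ∪ T).card := by
        apply sbz_sub
        intro u hu
        rw [mem_union, mem_union, sbz_mf, sbz_mf]
        by_cases hT : u ∈ T
        · exact Or.inr hT
        · left
          by_cases hW' : u ∈ W
          · exact Or.inr ⟨hW', hu.1⟩
          · exact Or.inl ⟨mem_univ _, hu.1, hW', hT, hu.2⟩
      calc _ ≤ _ := h3
        _ ≤ _ := Finset.card_union_le _ _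
        _ ≤ _ := Nat.add_le_add_right (Finset.card_union_le _ _) _
    omega
  have hhalf : ∀ v0, nd v0 < 2 * k → v0 ∉ W →
      Δ ≤ 40 * (sbz_c fun u => nd u = nd v0 ∧ u ∉ W ∧ u ∉ T ∧ cl u = cl v0 ∧ qt u < 2) +
        5 * z + 40 * (2 * k * r) ∧
      Δ ≤ 40 * (sbz_c fun u => nd u = nd v0 ∧ u ∉ W ∧ u ∉ T ∧ cl u = cl v0 ∧ ¬ qt u < 2) +
        5 * z + 40 * (2 * k * r) := by
    intro v0 h1 h2
    have h3 := hF.halfc v0 h1
    rw [sbz_e (q := fun u => nd u = nd v0 ∧ cl u = cl v0 ∧ qt u < 2) (fun _ => Iff.rfl),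
      sbz_e (q := fun u => nd u = nd v0 ∧ cl u = cl v0 ∧ ¬ qt u < 2) (fun _ => Iff.rfl)] at h3
    exact ⟨hlarge v0 h1 h2 (fun u => cl u = cl v0 ∧ qt u < 2) h3.1,
      hlarge v0 h1 h2 (fun u => cl u = cl v0 ∧ ¬ qt u < 2) h3.2⟩
  have hPi : ∀ v : {v // P v}, nd v.1 < 2 * k := fun v => v.2.1
  obtain ⟨Z1, hZ1⟩ : ∃ Z1 : Finset ℕ, ∀ j, j ∈ Z1 ↔ j ∈ range (Δ + 2 * p) ∧
      ∃ ℓ ∈ BB p (Δ + 2 * p) j, T1 p t ℓ := ⟨_, fun _ => sbz_mf (i := fun _ => Classical.propDecidable _)⟩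
  obtain ⟨Z2, hZ2⟩ : ∃ Z2 : Finset ℕ, ∀ j, j ∈ Z2 ↔ j ∈ range (Δ + 2 * p) ∧
      ∃ ℓ ∈ BB p (Δ + 2 * p) j, T2 p t ℓ := ⟨_, fun _ => sbz_mf (i := fun _ => Classical.propDecidable _)⟩
  have hs1 : Z1 ⊆ range (Δ + 2 * p) := fun j hj => ((hZ1 j).1 hj).1
  have hs2 : Z2 ⊆ range (Δ + 2 * p) := fun j hj => ((hZ2 j).1 hj).1
  have hm1 : ∀ j ∈ Z1, p < j ∧ j < 3 * p + t := by
    intro j hj
    rw [hZ1] at hj
    obtain ⟨_, ℓ, h1, h2⟩ := hj
    exact zz1 p (Δ + 2 * p) t j ℓ hp hL6 h1 h2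
  have hm2 : ∀ j ∈ Z2, 3 * p + t < j ∧ j < 5 * p + 2 * t := by
    intro j hj
    rw [hZ2] at hj
    obtain ⟨_, ℓ, h1, h2⟩ := hj
    exact zz2 p (Δ + 2 * p) t j ℓ hp hL6 h1 h2
  have hcZ1 : Z1.card ≤ t + 2 * p := by
    refine le_trans (Finset.card_le_card (t := Ico (p + 1) (3 * p + t)) ?_) ?_
    · intro j hj
      have := hm1 j hj
      rw [mem_Ico]
      omega
    · rw [Nat.card_Ico]
      omega
  have hcZ2 : Z2.card ≤ t + 2 * p := by
    refine le_trans (Finset.card_le_card (t := Ico (3 * p + t + 1) (5 * p + 2 * t)) ?_) ?_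
    · intro j hj
      have := hm2 j hj
      rw [mem_Ico]
      omega
    · rw [Nat.card_Ico]
      omega
  have hsumZ : ∀ Z : Finset ℕ, (∀ j ∈ Z, j < 5 * p + 2 * t) → Z.card ≤ t + 2 * p → ∀ i < 2 * k,
      ∀ c, ∑ ℓ ∈ Z, (if sp ℓ then 0 else ac i c ℓ) ≤ t + 2 * p := by
    intro Z h1 h2 i hi c
    refine le_trans (Finset.sum_le_card_nsmul Z _ 1 ?_) ?_
    · intro ℓ hℓ
      by_cases h : sp ℓ
      · rw [if_pos h]
        exact Nat.zero_le _
      · rw [if_neg h]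
        have := h1 ℓ hℓ
        exact (hB.le i c ℓ).trans (hA.t1 i hi ℓ (by omega))
    · rw [smul_eq_mul, mul_one]
      exact h2
  have hX0 : ∀ (Z : Finset ℕ) (x : V → Prop) (i : Fin (2 * k) × Fin 7), Z ⊆ range (Δ + 2 * p) →
      (∀ j ∈ Z, j < 5 * p + 2 * t) → Z.card ≤ t + 2 * p →
      (∀ v0, nd v0 < 2 * k → v0 ∉ W →
        Δ ≤ 40 * (sbz_c fun u => nd u = nd v0 ∧ u ∉ W ∧ u ∉ T ∧ cl u = cl v0 ∧ x u) +
          5 * z + 40 * (2 * k * r)) →
      ∑ ℓ ∈ Z, (if sp ℓ then 0 else ac i.1 i.2 ℓ) ≤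
        sbz_c fun u => nd u = i.1 ∧ u ∉ W ∧ u ∉ T ∧ cl u = i.2 ∧ x u := by
    intro Z x i hZr hZ5 hZc hh
    by_cases hex : ∃ v, nd v = i.1 ∧ cl v = i.2 ∧ v ∉ W
    · obtain ⟨v, hv1, hv3, hv2⟩ := hex
      have h1 := hh v (by rw [hv1]; exact i.1.2) hv2
      rw [hv1, hv3] at h1
      have h3 := hsumZ Z hZ5 hZc i.1 i.1.2 i.2
      omega
    · have h0 : ∑ ℓ ∈ range (Δ + 2 * p), (if sp ℓ then 0 else ac i.1 i.2 ℓ) = 0 := by
        rw [hsumN i.1 i.1.2 i.2 i.2.2]
        exact sbz_0 fun v hv => hex ⟨v, hv.1, hv.2.1, hv.2.2.1⟩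
      have h1 : ∑ ℓ ∈ Z, (if sp ℓ then 0 else ac i.1 i.2 ℓ) = 0 := by
        apply Nat.eq_zero_of_le_zero
        exact le_trans (Finset.sum_le_sum_of_subset hZr) h0.le
      rw [h1]
      exact Nat.zero_le _
  obtain ⟨c, hc1, hc2, hc3, hc4, hc5, hc6⟩ := cl3 (V := {v // P v}) (ι := Fin (2 * k) × Fin 7)
    (F.comap (fun v => v.1)) (Δ + 2 * p) Z1 Z2 hs1 hs2
    (by
      rw [Finset.disjoint_left]
      intro j h1 h2
      have h3 := hm1 j h1
      have h4 := hm2 j h2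
      omega)
    (fun v => (⟨nd v.1, hPi v⟩, ⟨cl v.1, hF.clt v.1⟩)) (fun v => qt v.1 < 2)
    (fun ℓ => univ.filter fun v : {v // P v} => ∃ u ∈ W, F.Adj u v.1 ∧ lam u = ℓ)
    (fun j ℓ => if sp ℓ then 0 else ac j.1 j.2 ℓ) K d d (2 * k * s * d)
    (by
      intro i ℓ
      by_cases h : sp ℓ
      · simp only [if_pos h]
        exact Nat.zero_le _
      · simp only [if_neg h]
        exact (hB.le _ _ _).trans (hA.le _ _))
    (by
      intro i
      rw [hsumN i.1 i.1.2 i.2 i.2.2]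
      refine (sbz_tr (P := P) ?_ ?_).symm
      · intro v
        rw [Prod.ext_iff, Fin.ext_iff, Fin.ext_iff]
        exact ⟨fun h => ⟨h.1, h.2, v.2.2⟩, fun h => ⟨h.1, h.2.1⟩⟩
      · intro v hv
        exact ⟨by rw [hv.1]; exact i.1.2, hv.2.2⟩)
    (by
      intro i
      refine le_trans (hX0 Z2 (fun v => qt v < 2) i hs2 (fun j hj => (hm2 j hj).2) hcZ2
        (fun v0 h1 h2 => (hhalf v0 h1 h2).1)) (le_of_eq (sbz_tr (P := P) ?_ ?_).symm)
      · intro v
        rw [Prod.ext_iff, Fin.ext_iff, Fin.ext_iff]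
        exact ⟨fun h => ⟨h.1.1, v.2.2.1, v.2.2.2, h.1.2, h.2⟩,
          fun h => ⟨⟨h.1, h.2.2.2.1⟩, h.2.2.2.2⟩⟩
      · intro v hv
        exact ⟨by rw [hv.1]; exact i.1.2, hv.2.1, hv.2.2.1⟩)
    (by
      intro i
      refine le_trans (hX0 Z1 (fun v => ¬ qt v < 2) i hs1
        (fun j hj => by have := (hm1 j hj).2; omega) hcZ1
        (fun v0 h1 h2 => (hhalf v0 h1 h2).2)) (le_of_eq (sbz_tr (P := P) ?_ ?_).symm)
      · intro v
        rw [Prod.ext_iff, Fin.ext_iff, Fin.ext_iff]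
        exact ⟨fun h => ⟨h.1.1, v.2.2.1, v.2.2.2, h.1.2, h.2⟩,
          fun h => ⟨⟨h.1, h.2.2.2.1⟩, h.2.2.2.2⟩⟩
      · intro v hv
        exact ⟨by rw [hv.1]; exact i.1.2, hv.2.1, hv.2.2.1⟩)
    (by
      intro v
      refine le_trans ?_ (hF.dF v.1 v.2.1)
      unfold dg
      refine le_trans (le_of_eq (sbz_tr (P := P) (r := fun u => P u ∧ F.Adj v.1 u)
        (fun u => ⟨fun h => ⟨u.2, h⟩, fun h => h.2⟩) (fun u h => h.1))) ?_
      refine le_trans (sbz_le (q := fun u => F.Adj v.1 u) fun u h => h.2) ?_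
      exact le_of_eq (sbz_e fun _ => Iff.rfl).symm)
    (by
      intro v
      have hd := hF.dF v.1 v.2.1
      rw [← hFdef] at hd
      refine le_trans (Finset.card_le_card
        (t := (univ.filter fun u => F.Adj v.1 u).image lam) ?_) ?_
      · intro ℓ hℓ
        rw [sbz_mf, sbz_mf] at hℓ
        rw [mem_image]
        obtain ⟨u, _, h3, h4⟩ := hℓ.2.2
        exact ⟨u, by rw [mem_filter]; exact ⟨mem_univ _, h3.symm⟩, h4⟩
      · have h3 : (univ.filter fun u => F.Adj v.1 u).card = dg F v.1 := rfl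
        exact Finset.card_image_le.trans (h3.le.trans hd))
    (by
      intro ℓ hℓ
      refine le_trans (le_of_eq (sbz_tr (P := P) (r := fun v => P v ∧
        (∃ u ∈ W, F.Adj u v ∧ lam u = ℓ))
        (fun u => ⟨fun h => ⟨u.2, h⟩, fun h => h.2⟩) (fun u h => h.1))) ?_
      have h2 : (sbz_c fun v => P v ∧ (∃ u ∈ W, F.Adj u v ∧ lam u = ℓ)) ≤
          ((W.filter fun u => lam u = ℓ).biUnion
            fun u => univ.filter fun v => F.Adj u v).card := by
        apply sbz_sub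
        intro v hv
        rw [mem_biUnion]
        obtain ⟨u, h3, h4, h5⟩ := hv.2
        exact ⟨u, by rw [mem_filter]; exact ⟨h3, h5⟩, by
            rw [mem_filter]; exact ⟨mem_univ _, h4⟩⟩
      have h3 : (W.filter fun u => lam u = ℓ).card ≤ 2 * k * s := by
        have h4 : (W.filter fun u => lam u = ℓ).card =
            ∑ j ∈ range (2 * k), ((W.filter fun u => lam u = ℓ).filter fun u => nd u = j).card := by
          apply Finset.card_eq_sum_card_fiberwise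
          intro v hv
          have hv' := Finset.mem_coe.1 hv
          rw [mem_filter] at hv'
          exact Finset.mem_coe.2 (mem_range.2 (hW.sub v hv'.1).1)
        rw [h4]
        calc _ ≤ ∑ j ∈ range (2 * k), s := by
              apply Finset.sum_le_sum
              intro j _
              refine le_trans (le_of_eq ?_) (hW.sz j ℓ)
              unfold wn
              rw [filter_filter]
              apply congrArg Finset.card
              ext u
              simp only [mem_filter]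
              tauto
          _ = 2 * k * s := by rw [sum_const, card_range, smul_eq_mul]
      have h6 : ((W.filter fun u => lam u = ℓ).biUnion
          fun u => univ.filter fun v => F.Adj u v).card ≤ (W.filter fun u => lam u = ℓ).card * d := by
        apply Finset.card_biUnion_le_card_mul
        intro u hu
        rw [mem_filter] at hu
        exact hF.dF u (hW.sub u hu.1).1
      exact h2.trans (h6.trans (Nat.mul_le_mul_right d h3)))
    (by
      intro v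
      have hh := hhalf v.1 v.2.1 v.2.2.1
      have hK : K * (d + d) + 2 * k * s * d +
          2 * Fintype.card (Fin (2 * k) × Fin 7) * K * d =
          2 * K * d + 2 * k * s * d + 28 * k * K * d := by
        rw [Fintype.card_prod, Fintype.card_fin, Fintype.card_fin]
        ring
      rw [hK]
      by_cases hx : qt v.1 < 2
      · refine lt_of_lt_of_le ?_ (le_of_eq (sbz_tr (P := P)
          (r := fun u => nd u = nd v.1 ∧ u ∉ W ∧ u ∉ T ∧ cl u = cl v.1 ∧ qt u < 2) ?_ ?_).symm)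
        · have := hh.1
          omega
        · intro u
          rw [Prod.ext_iff, Fin.ext_iff, Fin.ext_iff]
          exact ⟨fun h => ⟨h.1.1, u.2.2.1, u.2.2.2, h.1.2, h.2.2 hx⟩,
            fun h => ⟨⟨h.1, h.2.2.2.1⟩, iff_of_true h.2.2.2.2 hx⟩⟩
        · intro u hu
          exact ⟨by rw [hu.1]; exact v.2.1, hu.2.1, hu.2.2.1⟩
      · refine lt_of_lt_of_le ?_ (le_of_eq (sbz_tr (P := P)
          (r := fun u => nd u = nd v.1 ∧ u ∉ W ∧ u ∉ T ∧ cl u = cl v.1 ∧ ¬ qt u < 2) ?_ ?_).symm)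
        · have := hh.2
          omega
        · intro u
          rw [Prod.ext_iff, Fin.ext_iff, Fin.ext_iff]
          exact ⟨fun h => ⟨h.1.1, u.2.2.1, u.2.2.2, h.1.2, fun h' => hx (h.2.1 h')⟩,
            fun h => ⟨⟨h.1, h.2.2.2.1⟩, iff_of_false h.2.2.2.2 hx⟩⟩
        · intro u hu
          exact ⟨by rw [hu.1]; exact v.2.1, hu.2.1, hu.2.2.1⟩)
  -- labels that occur
  set c1 : V → ℕ := fun v => if h : P v then c ⟨v, h⟩ else 0 with hc1def
  have hc1v : ∀ v (h : P v), c1 v = c ⟨v, h⟩ := by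
    intro v h
    rw [hc1def]
    exact dif_pos h
  have hnumc : ∀ j < 2 * k, ∀ b < 7, ∀ ℓ < Δ + 2 * p,
      (sbz_c fun v => nd v = j ∧ cl v = b ∧ v ∉ W ∧ v ∉ T ∧ c1 v = ℓ) =
        if sp ℓ then 0 else ac j b ℓ := by
    intro j hj b hb ℓ hℓ
    refine (sbz_tr (P := P) (r := fun v => nd v = j ∧ cl v = b ∧ v ∉ W ∧ v ∉ T ∧ c1 v = ℓ)
      ?_ ?_).symm.trans (hc4 (⟨j, hj⟩, ⟨b, hb⟩) ℓ hℓ)
    · intro v
      rw [Prod.ext_iff, Fin.ext_iff, Fin.ext_iff, hc1v v.1 v.2]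
      exact ⟨fun h => ⟨h.1.1, h.1.2, v.2.2.1, v.2.2.2, h.2⟩,
        fun h => ⟨⟨h.1, h.2.1⟩, h.2.2.2.2⟩⟩
    · intro v hv
      exact ⟨by rw [hv.1]; exact hj, hv.2.2.1, hv.2.2.2.1⟩
  have hnum : ∀ j < 2 * k, ∀ ℓ < Δ + 2 * p,
      (sbz_c fun v => nd v = j ∧ v ∉ W ∧ v ∉ T ∧ c1 v = ℓ) = if sp ℓ then 0 else a j ℓ := by
    intro j hj ℓ hℓ
    have h1 : (sbz_c fun v => nd v = j ∧ v ∉ W ∧ v ∉ T ∧ c1 v = ℓ) =
        ∑ b ∈ range 7, sbz_c fun v => nd v = j ∧ cl v = b ∧ v ∉ W ∧ v ∉ T ∧ c1 v = ℓ := by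
      unfold sbz_c
      rw [Finset.card_eq_sum_card_fiberwise (f := cl) (t := range 7)
        (fun v _ => Finset.mem_coe.2 (mem_range.2 (hF.clt v)))]
      apply Finset.sum_congr rfl
      intro b _
      apply congrArg Finset.card
      ext v
      simp only [mem_filter, mem_univ, true_and]
      tauto
    rw [h1, Finset.sum_congr rfl fun b hb => hnumc j hj b (mem_range.1 hb) ℓ hℓ]
    by_cases h : sp ℓ
    · simp only [if_pos h]
      exact Finset.sum_const_zero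
    · simp only [if_neg h]
      exact hB.tot j hj ℓ hℓ
  have hoccc : ∀ v : {v // P v}, ¬ sp (c v) ∧ 0 < ac (nd v.1) (cl v.1) (c v) := by
    intro v
    have h1 := hnumc (nd v.1) (hPi v) (cl v.1) (hF.clt v.1) (c v) (hc1 v)
    have h2 : 0 < sbz_c fun v' => nd v' = nd v.1 ∧ cl v' = cl v.1 ∧ v' ∉ W ∧ v' ∉ T ∧
        c1 v' = c v := by
      exact sbz_pos v.1 ⟨rfl, rfl, v.2.2.1, v.2.2.2, hc1v v.1 v.2⟩
    rw [h1] at h2
    by_cases h : sp (c v)
    · rw [if_pos h] at h2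
      exact absurd h2 (lt_irrefl 0)
    · rw [if_neg h] at h2
      exact ⟨h, h2⟩
  have hocc : ∀ v : {v // P v}, ¬ sp (c v) ∧ 0 < a (nd v.1) (c v) :=
    fun v => ⟨(hoccc v).1, lt_of_lt_of_le (hoccc v).2 (hB.le _ _ _)⟩
  have hfree : ∀ v : {v // P v}, ∀ u ∈ W, F.Adj u v.1 → lam u ≠ c v := by
    intro v
    have h1 := hc2 v
    rw [sbz_mf, not_and_or] at h1
    rcases h1 with h1 | h1
    · exact absurd (mem_univ _) h1
    · exact fun u hu h2 h3 => h1 ⟨u, hu, h2, h3⟩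
  have hnotodd : ∀ i < k, ty i → ∀ v, nd v / 2 = i → nd v = 2 * i := by
    intro i hi hty v hv
    have h1 := hF.odd i hi hty
    have h2 : nd v ≠ 2 * i + 1 := by
      intro h
      have : v ∈ pt nd (2 * i + 1) := by
        unfold pt
        rw [mem_filter]
        exact ⟨mem_univ _, h⟩
      rw [h1] at this
      exact absurd this (Finset.notMem_empty _)
    omega
  refine ⟨c1, ?_, ?_, ?_⟩
  · intro v hv1 hv2 hv3
    have hPv : P v := ⟨hv1, hv2, hv3⟩
    rw [hc1v v hPv]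
    refine ⟨hc1 _, ?_, hB.rg (nd v) hv1 (cl v) (hF.clt v) _ (hc1 _)
      (Nat.pos_iff_ne_zero.1 (hoccc ⟨v, hPv⟩).2), ?_, ?_, ?_⟩
    rotate_left 2
    · intro h ℓ hℓ hT
      apply hc5 ⟨v, hPv⟩ h
      rw [hZ1]
      exact ⟨mem_range.2 (hc1 _), ℓ, hℓ, hT⟩
    · intro h ℓ hℓ hT
      apply hc6 ⟨v, hPv⟩ h
      rw [hZ2]
      exact ⟨mem_range.2 (hc1 _), ℓ, hℓ, hT⟩
    · intro w hw h
      exact (hocc ⟨v, hPv⟩).1 ⟨w, hw, h⟩
    · intro u hu huv
      by_cases hFuv : F.Adj u v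
      · exact hfree ⟨v, hPv⟩ u hu hFuv
      · have hH : (Hg G k ty nd).Adj u v := by
          by_contra hH
          exact hFuv ⟨huv, hH⟩
        obtain ⟨_, h1, h2, h3, h4⟩ := hH
        intro hl
        have hty := (hW.sub u hu).2
        have hi : nd u / 2 < k := by omega
        have hnu := hnotodd _ hi hty u rfl
        have hnv := hnotodd _ hi hty v h3.symm
        have h5 := hA.e2 _ hi hty u hu hnu
        have h6 := (hocc ⟨v, hPv⟩).2
        simp only at h6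
        rw [hnv, ← hl, h5] at h6
        exact absurd h6 (lt_irrefl 0)
  · intro u v hu1 hu2 hu3 hv1 hv2 hv3 huv
    have hPv : P v := ⟨hv1, hv2, hv3⟩
    have hPu : P u := ⟨hu1, hu2, hu3⟩
    rw [hc1v v hPv, hc1v u hPu]
    by_cases hFuv : F.Adj u v
    · exact hc3 ⟨u, hPu⟩ ⟨v, hPv⟩ hFuv
    · have hH : (Hg G k ty nd).Adj u v := by
        by_contra hH
        exact hFuv ⟨huv, hH⟩
      obtain ⟨_, h1, h2, h3, h4⟩ := hH
      intro hl
      have hi : nd u / 2 < k := by omega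
      by_cases hty : ty (nd u / 2)
      · have hnu := hnotodd _ hi hty u rfl
        have hnv := hnotodd _ hi hty v h3.symm
        have h5 := hA.e1 _ hi hty (c ⟨u, hPu⟩)
        rw [← hnu] at h5
        have h6 := hnum (nd u) h1 (c ⟨u, hPu⟩) (hc1 _)
        rw [if_neg (hocc ⟨u, hPu⟩).1] at h6
        rw [← h6] at h5
        have h7 := sbz_one h5 (u := u) (v := v) ⟨rfl, hu2, hu3, hc1v u hPu⟩
          ⟨by rw [hnu, hnv], hv2, hv3, by rw [hc1v v hPv, hl]⟩
        exact G.irrefl (h7 ▸ huv)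
      · have hne : nd u ≠ nd v := by
          rcases h4 with h4 | h4
          · exact absurd h4 hty
          · exact h4
        have h5 := hA.b1 _ hi hty (c ⟨u, hPu⟩)
        have h6 := (hocc ⟨u, hPu⟩).2
        have h7 := (hocc ⟨v, hPv⟩).2
        simp only at h6 h7
        rw [← hl] at h7
        have h8 : (nd u = 2 * (nd u / 2) ∧ nd v = 2 * (nd u / 2) + 1) ∨
            (nd v = 2 * (nd u / 2) ∧ nd u = 2 * (nd u / 2) + 1) := by omega
        rcases h8 with ⟨h8, h9⟩ | ⟨h8, h9⟩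
        · rcases h5 with h5 | h5
          · rw [← h8] at h5
            omega
          · rw [← h9] at h5
            omega
        · rcases h5 with h5 | h5
          · rw [← h8] at h5
            omega
          · rw [← h9] at h5
            omega
  · intro j hj ℓ hℓ hspℓ
    have hns : ¬ sp ℓ := by
      rintro ⟨w, hw, h⟩
      exact hspℓ w hw h
    have h1 := hnum j hj ℓ hℓ
    rw [if_neg hns] at h1
    rw [← h1]
    exact sbz_e fun _ => Iff.rfl

end Pool.Agent.H46.G2
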