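import Mathlib
import Pool.Agent.H46.G2.Saz
import Pool.Agent.H46.G2.Sbz

/-!
SGZ: the colours of all vertices. Adaptation of `sgp` (`Pool/Agent/H46/GP/Sgp.lean`, proved). Use the STATEMENTS of `saz` (`G2/Saz.lean`), `sbz` (`G2/Sbz.lean`), `GP/Bbl.lean`, `G2/Bcl.lean`.

Proof.  As for `sgp`: `cc v := c0 v` if `v ∈ pt nd (2 k)`, `lam v` if `v ∈ W`, `c0 (lb v)` if `v ∈ T`, `c1 v` otherwise; `L := Δ + 2 p`. For `w ∈ pt nd (2 k)`: `ℓ ∈ BB p L (c0 w)` means `Nr p (c0 w) ℓ` (`bb_mid`, `hF.c1`, `hkap`), so `φ ℓ w = w` by `hF.c3`. For `nd v < 2 k`: `lo p L (cl v) ≤ cc v < hi p L (cl v)` (`hW.rc`; for `v ∈ T` `cl v = 6` and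
 `bx L 6 + p ≤ bx L 7 + 2 p ≤ c0 (lb v) < L`; `sbz`), so by `bb_cls` all `ℓ ∈ BB p L (cc v)` satisfy `bx L (cl v) ≤ ℓ < bx L (cl v + 2)`, and `φ ℓ v = v` by `hF.av`. T1, T2 for `v ∈ W` and `v ∈ T`: the colour is at least `6 p + 2 t` (`hW.rg`, `hF.c1`), `zz1, zz2`.
-/

set_option autoImplicit false

namespace Pool.Agent.H46.G2

open Finset Classical
open Pool.Agent.H71.DN Pool.Agent.H71.DX Pool.Agent.H71.DR Pool.Agent.H71.HL Pool.Agent.H71.DC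
open Pool.Agent.H71.TD Pool.Agent.H90.TDP Pool.Agent.H46.GA Pool.Agent.H46.GP

theorem sgz {V : Type} [Fintype V] (G : SimpleGraph V) (Δ p k : ℕ) (ty : ℕ → Prop)
    (nd qt cl un : V → ℕ) (sf : ℕ → Finset V) (t : ℕ) (φ : ℕ → V → V) (c0 : V → ℕ)
    (d D r z e E kap K1 : ℕ)
    (hF : Fz G Δ p k ty nd qt cl un sf t φ c0 d D r z e E kap K1) (hp : 1 ≤ p)
    (zi : ℕ → ℕ) (s E0 K : ℕ) (W : Finset V) (lam : V → ℕ)
    (hW : Wz G Δ p k ty nd cl t c0 zi s z W lam)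
    (a : ℕ → ℕ → ℕ) (hA : Dn G Δ p k ty nd cl t c0 z E0 K W lam a)
    (ac : ℕ → ℕ → ℕ → ℕ) (hB : Dc Δ p k nd cl W a ac)
    (hn : 2 * (e + 2 * k * r + 2 * k * e) < z)
    (hn1 : 40 * (2 * K * d + 2 * k * s * d + 28 * k * K * d + z + 2 * k * r) < Δ)
    (hn2 : 40 * (t + 2 * p + z + 2 * k * r) ≤ Δ) (hkap : 16 * (kap + 8 * p + 8) ≤ Δ) :
    ∃ cc : V → ℕ, (∀ v, cc v < Δ + 2 * p) ∧ (∀ v, ∀ ℓ ∈ BB p (Δ + 2 * p) (cc v), φ ℓ v = v) ∧
      (∀ a b, G.Adj a b → cc a ≠ cc b) ∧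
      (∀ v, nd v < 2 * k → qt v < 2 → ∀ ℓ ∈ BB p (Δ + 2 * p) (cc v), ¬ T1 p t ℓ) ∧
      (∀ v, nd v < 2 * k → 2 ≤ qt v → ∀ ℓ ∈ BB p (Δ + 2 * p) (cc v), ¬ T2 p t ℓ) ∧
      (∀ w ∈ pt nd (2 * k), cc w = c0 w) ∧
      ∀ j < 2 * k, ∀ ℓ < Δ + 2 * p, ow nd cc j ℓ = a j ℓ + wn nd W lam j ℓ := by
  obtain ⟨T, lb, hT1, hT2, hT3, hT4, hT5⟩ :=
    saz G Δ p k ty nd qt cl un sf t φ c0 d D r z e E kap K1 hF E0 K W lam a hA hn
  obtain ⟨c1, hc1, hc2, hc3⟩ := sbz G Δ p k ty nd qt cl un sf t φ c0 d D r z e E kap K1 hF hp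
    zi s E0 K W lam hW a hA ac hB hn1 hn2 hkap T lb hT1 hT2 (fun v hv => (hT3 v hv).1) hT4
  have hL : 6 * p + 2 * t ≤ Δ + 2 * p := by omega
  have hL16 : 16 * p ≤ Δ + 2 * p := by omega
  have hz1 : ∀ j, 6 * p + 2 * t ≤ j → ∀ ℓ ∈ BB p (Δ + 2 * p) j, ¬ T1 p t ℓ := by
    intro j hj ℓ hℓ hT
    have := (zz1 p (Δ + 2 * p) t j ℓ hp hL hℓ hT).2
    omega
  have hz2 : ∀ j, 6 * p + 2 * t ≤ j → ∀ ℓ ∈ BB p (Δ + 2 * p) j, ¬ T2 p t ℓ := by
    intro j hj ℓ hℓ hT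
    have := (zz2 p (Δ + 2 * p) t j ℓ hp hL hℓ hT).2
    omega
  have hpt : ∀ j v, v ∈ pt nd j ↔ nd v = j := by
    intro j v
    simp only [pt, mem_filter, mem_univ, true_and]
  obtain ⟨cc, hcc⟩ : ∃ cc : V → ℕ, cc = fun v => if nd v = 2 * k then c0 v else
      if v ∈ W then lam v else if v ∈ T then c0 (lb v) else c1 v := ⟨_, rfl⟩
  have e1 : ∀ v, nd v = 2 * k → cc v = c0 v := by
    intro v hv
    rw [hcc]
    exact if_pos hv
  have e2 : ∀ v ∈ W, cc v = lam v := by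
    intro v hv
    have h1 : nd v ≠ 2 * k := ne_of_lt (hW.sub v hv).1
    simp only [hcc, if_neg h1, if_pos hv]
  have e3 : ∀ v ∈ T, cc v = c0 (lb v) := by
    intro v hv
    have h1 : nd v ≠ 2 * k := ne_of_lt (hT1 v hv).1
    simp only [hcc, if_neg h1, if_neg (hT1 v hv).2.1, if_pos hv]
  have e4 : ∀ v, nd v < 2 * k → v ∉ W → v ∉ T → cc v = c1 v := by
    intro v h1 h2 h3
    have h1' : nd v ≠ 2 * k := ne_of_lt h1
    simp only [hcc, if_neg h1', if_neg h2, if_neg h3]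
  have hcs : ∀ v, nd v = 2 * k ∨ v ∈ W ∨ v ∈ T ∨ (nd v < 2 * k ∧ v ∉ W ∧ v ∉ T) := by
    intro v
    by_cases h1 : nd v = 2 * k
    · exact Or.inl h1
    · have h1' : nd v < 2 * k := lt_of_le_of_ne (hF.le v) h1
      by_cases h2 : v ∈ W
      · exact Or.inr (Or.inl h2)
      · by_cases h3 : v ∈ T
        · exact Or.inr (Or.inr (Or.inl h3))
        · exact Or.inr (Or.inr (Or.inr ⟨h1', h2, h3⟩))
  have hk0 : ∀ v, nd v = 2 * k → bx (Δ + 2 * p) 7 + 2 * p ≤ c0 v :=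
    fun v hv => (hF.c1 v ((hpt _ v).2 hv)).1
  have hk1 : ∀ v, nd v = 2 * k → 6 * p + 2 * t ≤ c0 v ∧ c0 v + p < Δ + 2 * p := by
    intro v hv
    have h1 := hF.c1 v ((hpt _ v).2 hv)
    unfold bx at h1
    omega
  have hav : ∀ v x, nd v < 2 * k → lo p (Δ + 2 * p) (cl v) ≤ x → x < hi p (Δ + 2 * p) (cl v) →
      ∀ ℓ ∈ BB p (Δ + 2 * p) x, φ ℓ v = v := by
    intro v x hv h1 h2 ℓ hℓ
    have h3 := bb_cls p (Δ + 2 * p) (cl v) x ℓ hp hL16 (hF.clt v) h1 h2 hℓ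
    exact hF.av v hv ℓ h3.1 h3.2
  have hk2 : ∀ v, nd v = 2 * k → ∀ ℓ ∈ BB p (Δ + 2 * p) (c0 v), φ ℓ v = v := by
    intro v hv ℓ hℓ
    have h1 := hk1 v hv
    have h2 := (bb_mid p (Δ + 2 * p) (c0 v) ℓ hp (by omega) (by omega)).1 hℓ
    unfold Nr at h2
    exact hF.c3 v ((hpt _ v).2 hv) ℓ (by omega) (by omega)
  have hkT : ∀ v ∈ T, nd (lb v) = 2 * k := fun v hv => (hpt _ _).1 (hT3 v hv).1
  have p11 : ∀ a b, G.Adj a b → nd a = 2 * k → nd b = 2 * k → cc a ≠ cc b := by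
    intro a b hab ha hb h
    rw [e1 a ha, e1 b hb] at h
    exact hab.ne (hF.c2 a ((hpt _ a).2 ha) b ((hpt _ b).2 hb) h)
  have p12 : ∀ a b, G.Adj a b → nd a = 2 * k → b ∈ W → cc a ≠ cc b := by
    intro a b hab ha hb h
    rw [e1 a ha, e2 b hb] at h
    exact hW.sp b hb a ((hpt _ a).2 ha) h.symm
  have p13 : ∀ a b, G.Adj a b → nd a = 2 * k → b ∈ T → cc a ≠ cc b := by
    intro a b hab ha hb h
    rw [e1 a ha, e3 b hb] at h
    have := hF.c2 a ((hpt _ a).2 ha) (lb b) (hT3 b hb).1 h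
    rw [this] at hab
    exact (hT3 b hb).2 hab
  have p14 : ∀ a b, G.Adj a b → nd a = 2 * k → (nd b < 2 * k ∧ b ∉ W ∧ b ∉ T) →
      cc a ≠ cc b := by
    intro a b hab ha hb h
    rw [e1 a ha, e4 b hb.1 hb.2.1 hb.2.2] at h
    exact (hc1 b hb.1 hb.2.1 hb.2.2).2.1 a ((hpt _ a).2 ha) h.symm
  have p22 : ∀ a b, G.Adj a b → a ∈ W → b ∈ W → cc a ≠ cc b := by
    intro a b hab ha hb h
    rw [e2 a ha, e2 b hb] at h
    exact hW.pr a ha b hb hab h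
  have p23 : ∀ a b, G.Adj a b → a ∈ W → b ∈ T → cc a ≠ cc b := by
    intro a b hab ha hb h
    rw [e2 a ha, e3 b hb] at h
    exact hW.sp a ha (lb b) (hT3 b hb).1 h
  have p24 : ∀ a b, G.Adj a b → a ∈ W → (nd b < 2 * k ∧ b ∉ W ∧ b ∉ T) → cc a ≠ cc b := by
    intro a b hab ha hb h
    rw [e2 a ha, e4 b hb.1 hb.2.1 hb.2.2] at h
    exact (hc1 b hb.1 hb.2.1 hb.2.2).2.2.2.1 a ha hab h
  have p33 : ∀ a b, G.Adj a b → a ∈ T → b ∈ T → cc a ≠ cc b := by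
    intro a b hab ha hb h
    rw [e3 a ha, e3 b hb] at h
    exact hT5 a ha b hb (hF.c2 (lb a) (hT3 a ha).1 (lb b) (hT3 b hb).1 h) hab
  have p34 : ∀ a b, G.Adj a b → a ∈ T → (nd b < 2 * k ∧ b ∉ W ∧ b ∉ T) → cc a ≠ cc b := by
    intro a b hab ha hb h
    rw [e3 a ha, e4 b hb.1 hb.2.1 hb.2.2] at h
    exact (hc1 b hb.1 hb.2.1 hb.2.2).2.1 (lb a) (hT3 a ha).1 h.symm
  have p44 : ∀ a b, G.Adj a b → (nd a < 2 * k ∧ a ∉ W ∧ a ∉ T) →
      (nd b < 2 * k ∧ b ∉ W ∧ b ∉ T) → cc a ≠ cc b := by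
    intro a b hab ha hb h
    rw [e4 a ha.1 ha.2.1 ha.2.2, e4 b hb.1 hb.2.1 hb.2.2] at h
    exact hc2 a b ha.1 ha.2.1 ha.2.2 hb.1 hb.2.1 hb.2.2 hab h
  refine ⟨cc, ?_, ?_, ?_, ?_, ?_, ?_, ?_⟩
  · intro v
    rcases hcs v with h | h | h | h
    · rw [e1 v h]
      have := (hk1 v h).2
      omega
    · rw [e2 v h]
      exact (hW.rg v h).2
    · rw [e3 v h]
      have := (hk1 _ (hkT v h)).2
      omega
    · rw [e4 v h.1 h.2.1 h.2.2]
      exact (hc1 v h.1 h.2.1 h.2.2).1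
  · intro v
    rcases hcs v with h | h | h | h
    · rw [e1 v h]
      exact hk2 v h
    · rw [e2 v h]
      exact hav v _ (hW.sub v h).1 (hW.rc v h).1 (hW.rc v h).2
    · rw [e3 v h]
      have h1 := hk0 _ (hkT v h)
      have h2 := (hk1 _ (hkT v h)).2
      refine hav v _ (hT1 v h).1 ?_ ?_
      · rw [(hT1 v h).2.2]
        unfold lo
        rw [if_neg (by omega)]
        unfold bx at h1 ⊢
        omega
      · rw [(hT1 v h).2.2]
        unfold Pool.Agent.H46.G2.hi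
        rw [if_pos rfl]
        omega
    · rw [e4 v h.1 h.2.1 h.2.2]
      have h1 := (hc1 v h.1 h.2.1 h.2.2).2.2.1
      exact hav v _ h.1 h1.1 h1.2
  · intro a b hab
    rcases hcs a with ha | ha | ha | ha <;> rcases hcs b with hb | hb | hb | hb
    · exact p11 a b hab ha hb
    · exact p12 a b hab ha hb
    · exact p13 a b hab ha hb
    · exact p14 a b hab ha hb
    · exact (p12 b a hab.symm hb ha).symm
    · exact p22 a b hab ha hb
    · exact p23 a b hab ha hb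
    · exact p24 a b hab ha hb
    · exact (p13 b a hab.symm hb ha).symm
    · exact (p23 b a hab.symm hb ha).symm
    · exact p33 a b hab ha hb
    · exact p34 a b hab ha hb
    · exact (p14 b a hab.symm hb ha).symm
    · exact (p24 b a hab.symm hb ha).symm
    · exact (p34 b a hab.symm hb ha).symm
    · exact p44 a b hab ha hb
  · intro v hv hq
    rcases hcs v with h | h | h | h
    · omega
    · rw [e2 v h]
      exact hz1 _ (hW.rg v h).1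
    · rw [e3 v h]
      exact hz1 _ (hk1 _ (hkT v h)).1
    · rw [e4 v h.1 h.2.1 h.2.2]
      exact (hc1 v h.1 h.2.1 h.2.2).2.2.2.2.1 hq
  · intro v hv hq
    rcases hcs v with h | h | h | h
    · omega
    · rw [e2 v h]
      exact hz2 _ (hW.rg v h).1
    · rw [e3 v h]
      exact hz2 _ (hk1 _ (hkT v h)).1
    · rw [e4 v h.1 h.2.1 h.2.2]
      exact (hc1 v h.1 h.2.1 h.2.2).2.2.2.2.2 (by omega)
  · intro w hw
    exact e1 w ((hpt _ w).1 hw)
  · intro j hj ℓ hℓ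
    have hset : (pt nd j).filter (fun v => cc v = ℓ) =
        (W.filter fun v => nd v = j ∧ lam v = ℓ) ∪
        ((T.filter fun v => nd v = j ∧ c0 (lb v) = ℓ) ∪
          (univ.filter fun v => nd v = j ∧ v ∉ W ∧ v ∉ T ∧ c1 v = ℓ)) := by
      ext v
      simp only [mem_union, mem_filter, mem_univ, true_and, hpt]
      constructor
      · rintro ⟨h1, h2⟩
        rcases hcs v with h | h | h | h
        · omega
        · rw [e2 v h] at h2
          exact Or.inl ⟨h, h1, h2⟩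
        · rw [e3 v h] at h2
          exact Or.inr (Or.inl ⟨h, h1, h2⟩)
        · rw [e4 v h.1 h.2.1 h.2.2] at h2
          exact Or.inr (Or.inr ⟨h1, h.2.1, h.2.2, h2⟩)
      · rintro (⟨h, h1, h2⟩ | ⟨h, h1, h2⟩ | ⟨h1, h3, h4, h2⟩)
        · exact ⟨h1, by rw [e2 v h]; exact h2⟩
        · exact ⟨h1, by rw [e3 v h]; exact h2⟩
        · exact ⟨h1, by rw [e4 v (by omega) h3 h4]; exact h2⟩
    have hd1 : Disjoint (W.filter fun v => nd v = j ∧ lam v = ℓ)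
        ((T.filter fun v => nd v = j ∧ c0 (lb v) = ℓ) ∪
          (univ.filter fun v => nd v = j ∧ v ∉ W ∧ v ∉ T ∧ c1 v = ℓ)) := by
      rw [disjoint_left]
      intro v h1 h2
      simp only [mem_union, mem_filter, mem_univ, true_and] at h1 h2
      rcases h2 with h2 | h2
      · exact (hT1 v h2.1).2.1 h1.1
      · exact h2.2.1 h1.1
    have hd2 : Disjoint (T.filter fun v => nd v = j ∧ c0 (lb v) = ℓ)
        (univ.filter fun v => nd v = j ∧ v ∉ W ∧ v ∉ T ∧ c1 v = ℓ) := by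
      rw [disjoint_left]
      intro v h1 h2
      simp only [mem_filter, mem_univ, true_and] at h1 h2
      exact h2.2.2.1 h1.1
    have hmain : (T.filter fun v => nd v = j ∧ c0 (lb v) = ℓ).card +
        (univ.filter fun v => nd v = j ∧ v ∉ W ∧ v ∉ T ∧ c1 v = ℓ).card = a j ℓ := by
      by_cases hsp : ∃ w ∈ pt nd (2 * k), ℓ = c0 w
      · obtain ⟨w, hw, rfl⟩ := hsp
        have h1 : (univ.filter fun v => nd v = j ∧ v ∉ W ∧ v ∉ T ∧ c1 v = c0 w) = ∅ := by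
          rw [filter_eq_empty_iff]
          rintro v - ⟨h1, h2, h3, h4⟩
          exact (hc1 v (by omega) h2 h3).2.1 w hw h4
        have h2 : (T.filter fun v => nd v = j ∧ c0 (lb v) = c0 w) =
            T.filter fun v => nd v = j ∧ lb v = w := by
          ext v
          simp only [mem_filter]
          constructor
          · rintro ⟨h1, h2, h3⟩
            exact ⟨h1, h2, hF.c2 _ (hT3 v h1).1 w hw h3⟩
          · rintro ⟨h1, h2, h3⟩
            exact ⟨h1, h2, by rw [h3]⟩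
        rw [h1, h2, hT4 w hw j hj, card_empty, add_zero]
      · have hsp' : ∀ w ∈ pt nd (2 * k), ℓ ≠ c0 w := fun w hw h => hsp ⟨w, hw, h⟩
        have h1 : (T.filter fun v => nd v = j ∧ c0 (lb v) = ℓ) = ∅ := by
          rw [filter_eq_empty_iff]
          rintro v hv ⟨h1, h2⟩
          exact hsp' _ (hT3 v hv).1 h2.symm
        rw [h1, card_empty, zero_add]
        exact hc3 j hj ℓ hℓ hsp'
    have h1 : ow nd cc j ℓ = ((pt nd j).filter fun v => cc v = ℓ).card := rfl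
    have h2 : wn nd W lam j ℓ = (W.filter fun v => nd v = j ∧ lam v = ℓ).card := rfl
    rw [h1, h2, hset, card_union_of_disjoint hd1, card_union_of_disjoint hd2, hmain]
    omega

end Pool.Agent.H46.G2
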