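import Mathlib
import Pool.Agent.H46.GA.Grl

/-!
GRM: variant of `grl` (`GA/Grl.lean`; use its STATEMENT) with the number of classes counted by an image, no bad labels.

Proof.  For `a ∈ W` let `I (prt a) := ({b ∈ W : prt b = prt a}).image un` and `γ a := #{y ∈ I (prt a) : y < un a}` (the rank of `un a`). For `a, b ∈ W` with `prt a = prt b`: `γ a = γ b ↔ un a = un b` (if `un a < un b` then the first set is contained in the second one, which contains also `un a`), and `γ a < #(I (prt a))`. Apply `grl` with this `γ`, `m P := #(I P)`, `f := 0`, `bad := ∅`.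
-/

set_option autoImplicit false

namespace Pool.Agent.H46.G2

open Finset Classical
open Pool.Agent.H71.DN
open Pool.Agent.H46.GA

theorem Grm_rank {I : Finset ℕ} {x y : ℕ} (hx : x ∈ I) (hy : y ∈ I) :
    ((I.filter fun z => z < x).card = (I.filter fun z => z < y).card ↔ x = y) ∧
      (I.filter fun z => z < x).card < I.card := by
  have key : ∀ {u v : ℕ}, u ∈ I → u < v →
      (I.filter fun z => z < u).card < (I.filter fun z => z < v).card := by
    intro u v hu huv
    refine card_lt_card ?_
    rw [Finset.ssubset_iff_of_subset (fun z hz => ?_)]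
    · exact ⟨u, mem_filter.2 ⟨hu, huv⟩, fun h => lt_irrefl _ (mem_filter.1 h).2⟩
    · rw [mem_filter] at hz ⊢
      exact ⟨hz.1, hz.2.trans huv⟩
  constructor
  · constructor
    · intro h
      rcases lt_trichotomy x y with h1 | h1 | h1
      · have := key hx h1
        omega
      · exact h1
      · have := key hy h1
        omega
    · intro h
      rw [h]
  · refine card_lt_card ?_
    rw [Finset.ssubset_iff_of_subset (filter_subset _ _)]
    exact ⟨x, hx, fun h => lt_irrefl _ (mem_filter.1 h).2⟩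

theorem grm {V : Type} [Fintype V] (F : SimpleGraph V) (W : Finset V) (prt un : V → ℕ)
    (s d : ℕ) (Rs : ℕ → Finset ℕ)
    (hsz : ∀ a ∈ W, (W.filter fun b => prt b = prt a ∧ un b = un a).card ≤ s)
    (hd : ∀ v ∈ W, dg F v ≤ d)
    (hR : ∀ a ∈ W, ((W.filter fun b => prt b = prt a).image un).card + s * d ≤
      (Rs (prt a)).card) :
    ∃ lam : V → ℕ, ∀ a ∈ W, lam a ∈ Rs (prt a) ∧
      (∀ b ∈ W, prt b = prt a → (lam a = lam b ↔ un a = un b)) ∧
      ∀ b ∈ W, F.Adj a b → prt a ≠ prt b → lam a ≠ lam b := by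
  set I : ℕ → Finset ℕ := fun P => (W.filter fun b => prt b = P).image un with hI
  set γ : V → ℕ := fun a => ((I (prt a)).filter fun y => y < un a).card with hγ
  have hmem : ∀ a ∈ W, un a ∈ I (prt a) := by
    intro a ha
    rw [hI]
    exact mem_image_of_mem _ (mem_filter.2 ⟨ha, rfl⟩)
  have hγe : ∀ a ∈ W, ∀ b ∈ W, prt b = prt a → (γ a = γ b ↔ un a = un b) := by
    intro a ha b hb hab
    have h1 := hmem a ha
    have h2 := hmem b hb
    rw [hab] at h2
    have h3 := (Grm_rank h1 h2).1
    rw [hγ]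
    simp only [hab]
    exact h3
  have hsz' : ∀ a ∈ W, (W.filter fun b => prt b = prt a ∧ γ b = γ a).card ≤ s := by
    intro a ha
    refine le_trans (card_le_card ?_) (hsz a ha)
    intro b hb
    rw [mem_filter] at hb ⊢
    obtain ⟨h1, h2, h3⟩ := hb
    exact ⟨h1, h2, ((hγe a ha b h1 h2).1 h3.symm).symm⟩
  obtain ⟨lam, hlam⟩ := grl F W prt γ s d 0 (fun P => (I P).card) Rs (fun _ => ∅) hsz'
    (fun a ha => (Grm_rank (hmem a ha) (hmem a ha)).2) hd (fun _ _ => by rw [card_empty])
    (fun a ha => by rw [add_zero]; exact hR a ha)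
  refine ⟨lam, fun a ha => ?_⟩
  obtain ⟨h1, -, h3, h4⟩ := hlam a ha
  exact ⟨h1, fun b hb hab => (h3 b hb hab).trans (hγe a ha b hb hab), h4⟩

end Pool.Agent.H46.G2
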