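import Mathlib
import Pool.Agent.H46.G2.Grm
import Pool.Agent.H46.G2.Bcl

/-!
WTZ: the labels of the groups in the expanding parts. Adaptation of `wtp` (`Pool/Agent/H46/GP/Wtp.lean`, proved). Use the STATEMENTS of `grm` (`G2/Grm.lean`) and `G2/Bcl.lean`.

Proof.  `L := Δ + 2 p`, `F := Fg G k ty nd`. Apply `grm` with `prt v := 7 (nd v / 2) + cl v` (`cl v < 7`: so `prt` determines `nd v / 2` and `cl v`), `un`, and for `P = 7 i + j` (`i = P / 7`, `j = P % 7`) `Rs P := (Ico (j L / 7) ((j + 1) L / 7) \ range (6 p + 2 t)) \ Ico (bx L 7 + 2 p) (bx L 7 + 2 p + kap)`;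
 `#(Rs P) ≥ L / 7 - (6 p + 2 t) - kap` (natural division; `(j + 1) L / 7 - j L / 7 ≥ L / 7`). `hR`: `a ∈ W`, `i = nd a / 2`, `j = cl a`; the vertices `b ∈ W` with `prt b = prt a` are in `pt nd (2 i)` (`hF.odd`) and have `cl b = j`. First alternative of `hU.alt`: by `hF.szu` `7 #(image) ≤ #(image un (pt nd (2 i))) + 7 E ≤ Δ - q + 7 E`, and `hq`.
 Second alternative: `#(image) ≤ #(image of {v ∈ W : nd v = 2 i}) ≤ #{v ∈ W : nd v = 2 i} ≤ z`, and `hz`.
 Let `lam` be given. `rg`: clear (`(j + 1) L / 7 ≤ L`). `rc`: for `1 ≤ j`: `lo p L j = j L / 8 + p ≤ j L / 7` by `hz` (`L ≥ 56 (p + 2)`); `j ≤ 5`: `(j + 1) L / 7 ≤ (j + 2) L / 8 - p`; `hi p L 6 = L`. `sp`: `c0 w` is in the removed interval (`hF.c1`).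
 `pr`: `a, b ∈ W` adjacent. If `nd a / 2 = nd b / 2` and `cl a = cl b`: `lam a = lam b` would give `un a = un b`, against `hU.pr`. If `nd a / 2 = nd b / 2`, `cl a ≠ cl b`: `Rs (prt a)`, `Rs (prt b)` are disjoint. If `nd a / 2 ≠ nd b / 2`: `a b` is an edge of `F`, `prt a ≠ prt b`.
 `sz`: if `{v ∈ W : nd v = j, lam v = ℓ}` contains `a` then all its elements `v` have `cl v = cl a` (disjointness of the `Rs`), so `prt v = prt a`, so `un v = un a`: at most `s`. `alt`: second alternative: `Λ := ({v ∈ W : nd v = 2 i}).image lam`; for `a, b ∈ W` in `pt nd (2 i)` we have `lam a = lam b ↔ un a = un b` (as for `sz`; `un a = un b` implies `cl a = cl b` by `hF.cu`),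
 so `#Λ = #(image un)`, and `wn nd W lam (2 i) ℓ = 2` for `ℓ ∈ Λ` (the unit of `a`; its elements are in `W` by `hU.si`). `zi i ∉ Λ` since `zi i` is in the removed interval.
-/

set_option autoImplicit false

namespace Pool.Agent.H46.G2

open Finset Classical
open Pool.Agent.H71.DN Pool.Agent.H71.DX Pool.Agent.H71.DR Pool.Agent.H71.HL Pool.Agent.H71.DC
open Pool.Agent.H71.TD Pool.Agent.H90.TDP Pool.Agent.H46.GA Pool.Agent.H46.GP

theorem wtz_img {V : Type} (S : Finset V) (f g : V → ℕ)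
    (h : ∀ a ∈ S, ∀ b ∈ S, g a = g b → f a = f b) :
    (S.image f).card ≤ (S.image g).card := by
  have h1 : ∀ y : ℕ, ∃ x : ℕ, ∀ a ∈ S, g a = y → f a = x := by
    intro y
    by_cases hy : ∃ a ∈ S, g a = y
    · obtain ⟨a, ha, h2⟩ := hy
      exact ⟨f a, fun b hb h3 => h b hb a ha (h3.trans h2.symm)⟩
    · exact ⟨0, fun b hb h3 => absurd ⟨b, hb, h3⟩ hy⟩
  choose c hc using h1
  have h2 : S.image f ⊆ (S.image g).image c := by
    intro x hx
    obtain ⟨a, ha, rfl⟩ := mem_image.1 hx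
    exact mem_image.2 ⟨g a, mem_image_of_mem g ha, (hc (g a) a ha rfl).symm⟩
  exact (card_le_card h2).trans card_image_le

theorem wtz_dis (L j j' x : ℕ) (h1 : j * L / 7 ≤ x) (h2 : x < (j + 1) * L / 7)
    (h3 : j' * L / 7 ≤ x) (h4 : x < (j' + 1) * L / 7) : j = j' := by
  rcases lt_trichotomy j j' with h | h | h
  · have h5 : (j + 1) * L / 7 ≤ j' * L / 7 :=
      Nat.div_le_div_right (Nat.mul_le_mul_right _ (by omega))
    omega
  · exact h
  · have h5 : (j' + 1) * L / 7 ≤ j * L / 7 :=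
      Nat.div_le_div_right (Nat.mul_le_mul_right _ (by omega))
    omega

theorem wtz_loc (p L c x : ℕ) (hL : 56 * (p + 2) ≤ L) (hc : c < 7)
    (h1 : c * L / 7 ≤ x) (h2 : x < (c + 1) * L / 7) :
    x < L ∧ lo p L c ≤ x ∧ x < hi p L c := by
  unfold lo hi bx
  have h8 : c = 0 ∨ c = 1 ∨ c = 2 ∨ c = 3 ∨ c = 4 ∨ c = 5 ∨ c = 6 := by omega
  rcases h8 with rfl | rfl | rfl | rfl | rfl | rfl | rfl
  · rw [if_pos rfl, if_neg (by omega)]
    omega
  · rw [if_neg (by omega), if_neg (by omega)]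
    omega
  · rw [if_neg (by omega), if_neg (by omega)]
    omega
  · rw [if_neg (by omega), if_neg (by omega)]
    omega
  · rw [if_neg (by omega), if_neg (by omega)]
    omega
  · rw [if_neg (by omega), if_neg (by omega)]
    omega
  · rw [if_neg (by omega), if_pos rfl]
    omega

theorem wtz {V : Type} [Fintype V] (G : SimpleGraph V) (Δ p k : ℕ) (ty : ℕ → Prop)
    (nd qt cl un : V → ℕ) (sf : ℕ → Finset V) (t : ℕ) (φ : ℕ → V → V) (c0 : V → ℕ)
    (d D r z e E kap K1 : ℕ)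
    (hF : Fz G Δ p k ty nd qt cl un sf t φ c0 d D r z e E kap K1) (hp : 1 ≤ p) (s q : ℕ)
    (W : Finset V) (hU : Uz G Δ p k ty nd s q z W un)
    (hq : 7 * (E + s * d + 6 * p + 2 * t + kap + 2) ≤ q)
    (hz : 56 * (z + s * d + 6 * p + 2 * t + kap + 2) ≤ Δ) (zi : ℕ → ℕ)
    (hzi : ∀ i < k, bx (Δ + 2 * p) 7 + 2 * p ≤ zi i ∧ zi i < bx (Δ + 2 * p) 7 + 2 * p + kap) :
    ∃ lam : V → ℕ, Wz G Δ p k ty nd cl t c0 zi s z W lam := by
  obtain ⟨L, hLd⟩ : ∃ L : ℕ, L = Δ + 2 * p := ⟨_, rfl⟩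
  have hL : 56 * (p + 2) ≤ L := by omega
  obtain ⟨prt, hprt⟩ : ∃ prt : V → ℕ, prt = fun v => 7 * (nd v / 2) + cl v := ⟨_, rfl⟩
  have hpq : ∀ v, prt v = 7 * (nd v / 2) + cl v := fun v => by rw [hprt]
  obtain ⟨Rs, hRs⟩ : ∃ Rs : ℕ → Finset ℕ, Rs = fun P =>
    ((Ico (P % 7 * L / 7) ((P % 7 + 1) * L / 7)) \ range (6 * p + 2 * t)) \
      Ico (bx L 7 + 2 * p) (bx L 7 + 2 * p + kap) := ⟨_, rfl⟩
  have hmod : ∀ v, prt v % 7 = cl v := by
    intro v
    have := hF.clt v
    rw [hpq]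
    omega
  have hnd : ∀ v ∈ W, nd v / 2 < k ∧ ty (nd v / 2) ∧ nd v = 2 * (nd v / 2) := by
    intro v hv
    obtain ⟨h1, h2⟩ := hU.sub v hv
    have h3 : nd v / 2 < k := by omega
    refine ⟨h3, h2, ?_⟩
    by_contra h4
    have h5 : nd v = 2 * (nd v / 2) + 1 := by omega
    have h6 : v ∈ pt nd (2 * (nd v / 2) + 1) := by
      unfold pt
      rw [mem_filter]
      exact ⟨mem_univ _, h5⟩
    rw [hF.odd _ h3 h2] at h6
    exact absurd h6 (notMem_empty _)
  have hRc : ∀ P, L / 7 ≤ (Rs P).card + (6 * p + 2 * t) + kap := by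
    intro P
    rw [hRs]
    show L / 7 ≤ (((Ico (P % 7 * L / 7) ((P % 7 + 1) * L / 7)) \ range (6 * p + 2 * t)) \
      Ico (bx L 7 + 2 * p) (bx L 7 + 2 * p + kap)).card + (6 * p + 2 * t) + kap
    have h1 := le_card_sdiff (Ico (bx L 7 + 2 * p) (bx L 7 + 2 * p + kap))
      ((Ico (P % 7 * L / 7) ((P % 7 + 1) * L / 7)) \ range (6 * p + 2 * t))
    have h2 := le_card_sdiff (range (6 * p + 2 * t))
      (Ico (P % 7 * L / 7) ((P % 7 + 1) * L / 7))
    rw [Nat.card_Ico] at h1 h2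
    rw [card_range] at h2
    have h3 : (P % 7 + 1) * L = P % 7 * L + L := by ring
    rw [h3] at h1 h2 ⊢
    generalize P % 7 * L = y at h1 h2 ⊢
    omega
  obtain ⟨lam, hlam⟩ := grm (Fg G k ty nd) W prt un s d Rs
    (fun a ha => by
      refine (card_le_card ?_).trans (hU.sz a)
      intro b hb
      rw [mem_filter] at hb ⊢
      exact ⟨mem_univ _, hb.2.2⟩)
    (fun v hv => hF.dF v (hU.sub v hv).1)
    (fun a ha => by
      obtain ⟨h1, h2, h3⟩ := hnd a ha
      have h4 := hRc (prt a)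
      have h5 : ∀ b ∈ W, prt b = prt a → nd b = 2 * (nd a / 2) ∧ cl b = cl a := by
        intro b hb h6
        have h7 := (hnd b hb).2.2
        have h8 := hF.clt a
        have h9 := hF.clt b
        rw [hpq, hpq] at h6
        omega
      rcases hU.alt _ h1 h2 with ⟨a1, a2, a3⟩ | ⟨a1, a2, a3⟩
      · have h6 : ((W.filter fun b => prt b = prt a).image un).card ≤
            (((pt nd (2 * (nd a / 2))).filter fun v => cl v = cl a).image un).card := by
          refine card_le_card (image_subset_image ?_)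
          intro b hb
          rw [mem_filter] at hb
          have h7 := h5 b hb.1 hb.2
          rw [mem_filter]
          refine ⟨?_, h7.2⟩
          unfold pt
          rw [mem_filter]
          exact ⟨mem_univ _, h7.1⟩
        have h7 := hF.szu _ h1 h2 (cl a) (hF.clt a)
        omega
      · have h6 : ((W.filter fun b => prt b = prt a).image un).card ≤
            (W.filter fun v => nd v = 2 * (nd a / 2)).card := by
          refine card_image_le.trans (card_le_card ?_)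
          intro b hb
          rw [mem_filter] at hb
          rw [mem_filter]
          exact ⟨hb.1, (h5 b hb.1 hb.2).1⟩
        omega)
  have hRm : ∀ v ∈ W, cl v * L / 7 ≤ lam v ∧ lam v < (cl v + 1) * L / 7 ∧
      6 * p + 2 * t ≤ lam v ∧ ¬ (bx L 7 + 2 * p ≤ lam v ∧ lam v < bx L 7 + 2 * p + kap) := by
    intro v hv
    have h1 := (hlam v hv).1
    rw [hRs] at h1
    simp only [mem_sdiff, mem_Ico, mem_range, hmod] at h1
    exact ⟨h1.1.1.1, h1.1.1.2, not_lt.1 h1.1.2, h1.2⟩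
  have hloc : ∀ v ∈ W, lam v < L ∧ lo p L (cl v) ≤ lam v ∧ lam v < hi p L (cl v) := by
    intro v hv
    obtain ⟨h1, h2, h3, h4⟩ := hRm v hv
    exact wtz_loc p L (cl v) (lam v) hL (hF.clt v) h1 h2
  have hkey : ∀ a ∈ W, ∀ b ∈ W, nd a / 2 = nd b / 2 → (lam a = lam b ↔ un a = un b) := by
    intro a ha b hb h
    constructor
    · intro h1
      obtain ⟨h2, h3, h4, h5⟩ := hRm a ha
      obtain ⟨h6, h7, h8, h9⟩ := hRm b hb
      rw [← h1] at h6 h7
      have h10 := wtz_dis L (cl a) (cl b) (lam a) h2 h3 h6 h7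
      exact ((hlam a ha).2.1 b hb (by rw [hpq, hpq, h, h10])).1 h1
    · intro h1
      have h10 := hF.cu a b h1
      exact ((hlam a ha).2.1 b hb (by rw [hpq, hpq, h, h10])).2 h1
  rw [← hLd] at hzi
  refine ⟨lam, ⟨hU.sub, ?_, ?_, ?_, ?_, ?_, ?_⟩⟩
  · intro v hv
    rw [← hLd]
    exact ⟨(hRm v hv).2.2.1, (hloc v hv).1⟩
  · intro v hv
    rw [← hLd]
    exact (hloc v hv).2
  · intro v hv w hw h
    have h1 := hF.c1 w hw
    rw [← hLd, ← h] at h1
    exact (hRm v hv).2.2.2 h1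
  · intro a ha b hb hab heq
    by_cases h : nd a / 2 = nd b / 2
    · exact hU.pr a b ((hkey a ha b hb h).1 heq) hab
    · refine (hlam a ha).2.2 b hb ⟨hab, fun h1 => h h1.2.2.2.1⟩ ?_ heq
      intro h1
      have h8 := hF.clt a
      have h9 := hF.clt b
      rw [hpq, hpq] at h1
      omega
  · intro j ℓ
    unfold wn
    rcases (W.filter fun v => nd v = j ∧ lam v = ℓ).eq_empty_or_nonempty with h | ⟨a, ha⟩
    · rw [h, card_empty]
      exact Nat.zero_le _
    · obtain ⟨h1, h2, h3⟩ := mem_filter.1 ha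
      refine (card_le_card fun b hb => ?_).trans (hU.sz a)
      obtain ⟨h4, h5, h6⟩ := mem_filter.1 hb
      rw [mem_filter]
      exact ⟨mem_univ _, (hkey b h4 a h1 (by rw [h2, h5])).1 (h6.trans h3.symm)⟩
  · intro i hi hty
    rcases hU.alt i hi hty with ⟨h1, h2, h3⟩ | ⟨h1, h2, h3⟩
    · exact Or.inl ⟨h1, h2⟩
    · right
      refine ⟨h1, (W.filter fun v => nd v = 2 * i).image lam, ?_, ?_, ?_, ?_, ?_⟩
      · intro ℓ hℓ
        obtain ⟨v, hv, rfl⟩ := mem_image.1 hℓ
        rw [← hLd]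
        exact mem_range.2 (hloc v (mem_filter.1 hv).1).1
      · intro hℓ
        obtain ⟨v, hv, h4⟩ := mem_image.1 hℓ
        have h5 := (hRm v (mem_filter.1 hv).1).2.2.2
        rw [h4] at h5
        exact h5 (hzi i hi)
      · rw [← h2]
        refine le_antisymm (wtz_img _ _ _ ?_) (wtz_img _ _ _ ?_)
        · intro a ha b hb h4
          obtain ⟨h5, h6⟩ := mem_filter.1 ha
          obtain ⟨h7, h8⟩ := mem_filter.1 hb
          exact (hkey a h5 b h7 (by rw [h6, h8])).2 h4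
        · intro a ha b hb h4
          obtain ⟨h5, h6⟩ := mem_filter.1 ha
          obtain ⟨h7, h8⟩ := mem_filter.1 hb
          exact (hkey a h5 b h7 (by rw [h6, h8])).1 h4
      · intro v hv h4
        refine mem_image_of_mem lam ?_
        rw [mem_filter]
        exact ⟨hv, h4⟩
      · intro ℓ hℓ
        obtain ⟨a, ha, rfl⟩ := mem_image.1 hℓ
        obtain ⟨h5, h6⟩ := mem_filter.1 ha
        have h4 : (W.filter fun v => nd v = 2 * i ∧ lam v = lam a) =
            univ.filter fun u => un u = un a := by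
          ext v
          rw [mem_filter, mem_filter]
          constructor
          · rintro ⟨h7, h8, h9⟩
            exact ⟨mem_univ _, (hkey v h7 a h5 (by rw [h6, h8])).1 h9⟩
          · rintro ⟨-, h7⟩
            have h8 : v ∈ W := by
              by_contra h8
              exact h8 (hU.si v a h7 h8 ▸ h5)
            have h9 := hU.nu v a h7
            exact ⟨h8, h9.trans h6, (hkey v h8 a h5 (by rw [h9])).2 h7⟩
        unfold wn
        rw [h4]
        exact h3 a h5 h6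

end Pool.Agent.H46.G2
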