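import Mathlib
import Pool.Agent.H46.G2.Wtz
import Pool.Agent.H46.G2.Dnz
import Pool.Agent.H46.G2.Dcz
import Pool.Agent.H46.G2.Sgz

/-!
COZ: the colours, from `wtz`, `dnz`, `dcz`, `sgz` (`G2/Wtz, Dnz, Dcz, Sgz`), `GP/Bbl.lean`; use only their STATEMENTS. Adaptation of `cop` (`Pool/Agent/H46/GP/Cop.lean`, proved).

Proof.  `zi i := c0 w` if there is `w ∈ pt nd (2 k)` with `w ∈ sf i` (choose one), `bx (Δ + 2 p) 7 + 2 p` otherwise (`hF.c1`, `hkap0`); for `ty i` the set `sf i` has at most one element (`hF.sf1`). `wtz` gives `lam`, `dnz` gives `a` (with `E0`, `M`, `K`), `dcz` gives `ac`, `sgz` gives `cc`. `L := Δ + 2 p`.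
 `Cz .. (4 p (K + s)) (16 K + K1) φ cc`: as for `cop` (`bw_sw`, `sw_le`). `kg`: for `¬ ty i` no vertex of `W` is in the pieces `2 i`, `2 i + 1`, so `gp = sw (a (2 i + 1)) - sw (a (2 i)) - uu`, `|gp| ≤ 16 K + K1` (`dnz`, `hF.uK`). `bt`: `gp = - uu` and `hF.ub` (labels of `T1, T2` are smaller than `4 p + 2 t ≤ bx L 7`, by `hn2`).
 `cl`: `hF.c1`, `hF.c3`, `hkap`.
-/

set_option autoImplicit false

namespace Pool.Agent.H46.G2

open Finset Classical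
open Pool.Agent.H71.DN Pool.Agent.H71.DX Pool.Agent.H71.DR Pool.Agent.H71.HL Pool.Agent.H71.DC
open Pool.Agent.H71.TD Pool.Agent.H90.TDP Pool.Agent.H46.GA Pool.Agent.H46.GP

theorem coz {V : Type} [Fintype V] (G : SimpleGraph V) (Δ p k : ℕ) (ty : ℕ → Prop)
    (nd qt cl un : V → ℕ) (sf : ℕ → Finset V) (t : ℕ) (φ : ℕ → V → V) (c0 : V → ℕ)
    (d D r z e E kap K1 : ℕ)
    (hF : Fz G Δ p k ty nd qt cl un sf t φ c0 d D r z e E kap K1) (hp : 2 ≤ p) (s q : ℕ)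
    (W : Finset V) (hU : Uz G Δ p k ty nd s q z W un)
    (hq : 7 * (E + s * d + 6 * p + 2 * t + kap + 2) ≤ q)
    (hz : 56 * (z + s * d + 6 * p + 2 * t + kap + 2) ≤ Δ)
    (E0 M K : ℕ) (hE0 : p + z + 3 ≤ E0) (hN : 70 * (7 * E + z + E0) ≤ Δ)
    (hM : Fintype.card V ≤ M * Δ) (hK : 6 * M + 4 ≤ K)
    (hΔ : 400 * p + 40 * t + 20 * kap + 200 ≤ Δ) (hKΔ : 960 * p * K ≤ Δ)
    (hn : 2 * (e + 2 * k * r + 2 * k * e) < z)
    (hn1 : 40 * (2 * K * d + 2 * k * s * d + 28 * k * K * d + z + 2 * k * r) < Δ)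
    (hn2 : 40 * (t + 2 * p + z + 2 * k * r) ≤ Δ) (hkap : 16 * (kap + 8 * p + 8) ≤ Δ)
    (hkap0 : 1 ≤ kap) :
    ∃ cc : V → ℕ, Cz G Δ p k ty nd qt t (4 * p * (K + s)) (16 * K + K1) φ cc := by
  classical
  have hp1 : 1 ≤ p := by omega
  have hzD : z ≤ Δ := by omega
  have hL : 2 * p - 1 ≤ Δ + 2 * p := by omega
  have hbx : bx (Δ + 2 * p) 7 = 7 * (Δ + 2 * p) / 8 := rfl
  set zi : ℕ → ℕ := fun i =>
    if h : ∃ w, w ∈ pt nd (2 * k) ∧ w ∈ sf i then c0 (Classical.choose h)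
    else bx (Δ + 2 * p) 7 + 2 * p with hzidef
  have hzi : ∀ i < k, bx (Δ + 2 * p) 7 + 2 * p ≤ zi i ∧
      zi i < bx (Δ + 2 * p) 7 + 2 * p + kap := by
    intro i _
    by_cases h : ∃ w, w ∈ pt nd (2 * k) ∧ w ∈ sf i
    · have h1 : zi i = c0 (Classical.choose h) := by
        rw [hzidef]
        simp only [h, dif_pos]
      rw [h1]
      exact hF.c1 _ (Classical.choose_spec h).1
    · have h1 : zi i = bx (Δ + 2 * p) 7 + 2 * p := by
        rw [hzidef]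
        simp only [h, dif_neg, not_false_iff]
      rw [h1]
      omega
  have hzi2 : ∀ i < k, ty i → ∀ w ∈ pt nd (2 * k), w ∈ sf i → c0 w = zi i := by
    intro i hi hty w hw hwi
    have h : ∃ w, w ∈ pt nd (2 * k) ∧ w ∈ sf i := ⟨w, hw, hwi⟩
    have h1 : zi i = c0 (Classical.choose h) := by
      rw [hzidef]
      simp only [h, dif_pos]
    have h2 : w = Classical.choose h :=
      Finset.card_le_one.1 (hF.sf1 i hi hty) w hwi _ (Classical.choose_spec h).2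
    rw [h1, ← h2]
  obtain ⟨lam, hW⟩ := wtz G Δ p k ty nd qt cl un sf t φ c0 d D r z e E kap K1 hF hp1 s q W hU hq
    hz zi hzi
  obtain ⟨a, hA, hev, hbt, hkg, hba⟩ := dnz G Δ p k ty nd qt cl un sf t φ c0 d D r z e E kap K1
    hF zi s E0 W lam hW hp hzD hE0 M K hM hK hΔ hKΔ hzi hzi2
  obtain ⟨ac, hB⟩ := dcz G Δ p k ty nd qt cl un sf t φ c0 d D r z e E kap K1 hF E0 K W lam a hA hN
  obtain ⟨cc, h1, h2, h3, h4, h5, h5', h6⟩ := sgz G Δ p k ty nd qt cl un sf t φ c0 d D r z e E kap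
    K1 hF hp1 zi s E0 K W lam hW a hA ac hB hn hn1 hn2 hkap
  have hbw : ∀ j < 2 * k, ∀ ℓ, bw p (Δ + 2 * p) nd cc j ℓ =
      sw p (Δ + 2 * p) (fun m => a j m + wn nd W lam j m) ℓ := by
    intro j hj ℓ
    rw [bw_sw p (Δ + 2 * p) nd cc h1 j ℓ]
    unfold sw
    refine Finset.sum_congr rfl fun m hm => ?_
    exact h6 j hj m (Finset.mem_range.1 (Finset.mem_filter.1 hm).1)
  have hw0 : ∀ i < k, ¬ ty i → ∀ ℓ, wn nd W lam (2 * i) ℓ = 0 := by
    intro i _ hty ℓ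
    unfold wn
    rw [Finset.card_eq_zero, Finset.filter_eq_empty_iff]
    intro v hv hc
    apply hty
    have h7 := (hW.sub v hv).2
    have h8 : nd v / 2 = i := by
      have := hc.1
      omega
    rw [h8] at h7
    exact h7
  have hw1 : ∀ i < k, ¬ ty i → ∀ ℓ, wn nd W lam (2 * i + 1) ℓ = 0 := by
    intro i _ hty ℓ
    unfold wn
    rw [Finset.card_eq_zero, Finset.filter_eq_empty_iff]
    intro v hv hc
    apply hty
    have h7 := (hW.sub v hv).2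
    have h8 : nd v / 2 = i := by
      have := hc.1
      omega
    rw [h8] at h7
    exact h7
  have hb0 : ∀ i < k, ¬ ty i → ∀ ℓ, bw p (Δ + 2 * p) nd cc (2 * i) ℓ =
      sw p (Δ + 2 * p) (a (2 * i)) ℓ := by
    intro i hi hty ℓ
    rw [hbw (2 * i) (by omega) ℓ]
    simp only [hw0 i hi hty, Nat.add_zero]
  have hb1 : ∀ i < k, ¬ ty i → ∀ ℓ, bw p (Δ + 2 * p) nd cc (2 * i + 1) ℓ =
      sw p (Δ + 2 * p) (a (2 * i + 1)) ℓ := by
    intro i hi hty ℓ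
    rw [hbw (2 * i + 1) (by omega) ℓ]
    simp only [hw1 i hi hty, Nat.add_zero]
  have hgg : ∀ i < k, ¬ ty i → ∀ ℓ, gp p (Δ + 2 * p) nd φ cc i ℓ =
      (sw p (Δ + 2 * p) (a (2 * i + 1)) ℓ : ℤ) - sw p (Δ + 2 * p) (a (2 * i)) ℓ -
        uu nd (φ ℓ) i := by
    intro i hi hty ℓ
    unfold gp
    rw [hb0 i hi hty ℓ, hb1 i hi hty ℓ]
  refine ⟨cc, ?_⟩
  refine ⟨h1, h2, h3, h4, h5, ?_, ?_, ?_, ?_, ?_, ?_⟩
  · intro j hj ℓ _
    rw [hbw j hj ℓ]
    exact sw_le p (Δ + 2 * p) hp1 hL _ (K + s) (fun m => Nat.add_le_add (hA.le j m) (hW.sz j m)) ℓ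
  · intro i hi hty ℓ hℓ
    rw [hgg i hi hty ℓ]
    have h7 := abs_le.1 (hkg i hi hty ℓ hℓ)
    have h8 := abs_le.1 (hF.uK i hi hty ℓ hℓ)
    rw [abs_le]
    push_cast
    constructor
    · linarith [h7.1, h8.2]
    · linarith [h7.2, h8.1]
  · intro i hi hty
    have h7 := hev i hi hty
    simp only [hbw (2 * i) (by omega)]
    exact h7
  · intro i hi hty
    simp only [hgg i hi hty]
    exact hba i hi hty
  · intro i hi hty ℓ hℓ
    have h7 := hbt i hi hty ℓ hℓ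
    rw [hgg i hi hty ℓ, h7.1, h7.2]
    have h8 : ℓ < bx (Δ + 2 * p) 7 := by
      rw [hbx]
      rcases hℓ with h | h
      · unfold T1 at h
        omega
      · unfold T2 at h
        omega
    have h9 := hF.ub i hi hty ℓ h8
    simp only [Nat.cast_zero, sub_zero, zero_sub, abs_neg]
    exact h9
  · intro w hw
    rw [h5' w hw]
    have h7 := hF.c1 w hw
    rw [hbx] at h7
    exact ⟨by omega, by omega, hF.c3 w hw⟩

end Pool.Agent.H46.G2
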