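import Mathlib
import Pool.Agent.H46.G2.Defs

/-!
The facts about the graph alone that are needed for the choice of the units.
-/

set_option autoImplicit false

namespace Pool.Agent.H46.G2

open Finset Classical
open Pool.Agent.H71.DN Pool.Agent.H71.DX Pool.Agent.H71.DR Pool.Agent.H71.HL Pool.Agent.H71.DC
open Pool.Agent.H71.TD Pool.Agent.H90.TDP Pool.Agent.H46.GA Pool.Agent.H46.GP

/-- The facts about the graph and the pieces. -/
structure F0 {V : Type} [Fintype V] (G : SimpleGraph V) (Δ k : ℕ) (ty : ℕ → Prop)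
    (nd : V → ℕ) (d e r : ℕ) : Prop where
  le : ∀ v, nd v ≤ 2 * k
  odd : ∀ i < k, ty i → pt nd (2 * i + 1) = ∅
  even : ∀ i < k, ty i → Even (pt nd (2 * i)).card
  bal : ∀ i < k, ¬ ty i → (pt nd (2 * i)).card = (pt nd (2 * i + 1)).card
  big : ∀ i < k, 9 * Δ ≤ 10 * (pt nd (2 * i)).card
  dF : ∀ v, nd v < 2 * k → dg (Fg G k ty nd) v ≤ d
  hi : (univ.filter fun v => nd v < 2 * k ∧ e < dg (Fg G k ty nd) v).card ≤ e
  lo : (pt nd (2 * k)).card ≤ r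
  cod : ∀ i < k, ty i → ∀ v ∈ pt nd (2 * i),
    ((pt nd (2 * i)).filter fun u => u ≠ v ∧ ¬ G.Adj v u).card + (Δ + 1) =
      (pt nd (2 * i)).card + dg (Fg G k ty nd) v
  dlo : ∀ w ∈ pt nd (2 * k), dg (Fg G k ty nd) w = Δ
  dgi : ∀ i < k, (ty i → ∀ v ∈ pt nd (2 * i),
      dg (Fg G k ty nd) v + dgi G (pt nd (2 * i)) v = Δ) ∧
    (¬ ty i → (∀ v ∈ pt nd (2 * i),
      dg (Fg G k ty nd) v + dgi G (pt nd (2 * i + 1)) v = Δ) ∧
      ∀ v ∈ pt nd (2 * i + 1), dg (Fg G k ty nd) v + dgi G (pt nd (2 * i)) v = Δ)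

end Pool.Agent.H46.G2
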