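import Mathlib
import Pool.Agent.H46.GA.Fdg
import Pool.Agent.H46.G2.Defs2

/-!
FNZ: the facts `F0` from `Str`. All of this is contained in the proofs of `fct` (`Pool/Agent/H46/GA/Fct.lean`, proved) and `fyc` (`Pool/Agent/H46/GP/Fyc.lean`, proved). Use the STATEMENTS of `fdE, fdA, fdB, fdL` (`GA/Fdg.lean`).
-/

set_option autoImplicit false

namespace Pool.Agent.H46.G2

open Finset Classical
open Pool.Agent.H71.DN Pool.Agent.H71.DX Pool.Agent.H71.DR Pool.Agent.H71.HL Pool.Agent.H71.DC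
open Pool.Agent.H71.TD Pool.Agent.H90.TDP Pool.Agent.H46.GA Pool.Agent.H46.GP

theorem fnz {V : Type} [Fintype V] (G : SimpleGraph V) (Δ k : ℕ) (c x ξ ζ f : ℝ)
    (ty : ℕ → Prop) (nd : V → ℕ) (sf : ℕ → Finset V) (d r e : ℕ)
    (hS : Str G Δ c x ξ ζ f k ty nd sf) (hd : ξ * Fintype.card V ≤ d)
    (hr : f * Fintype.card V ≤ r) (he : f * (Fintype.card V : ℝ) ^ 2 ≤ (e : ℝ) ^ 2)
    (hdΔ : 10 * d ≤ Δ) : F0 G Δ k ty nd d e r := by
  have hodd : ∀ i < k, ty i → pt nd (2 * i + 1) = ∅ := fun i hi ht => (hS.e1 i hi ht).1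
  have hbal : ∀ i < k, ¬ ty i → (pt nd (2 * i)).card = (pt nd (2 * i + 1)).card :=
    fun i hi ht => hS.b1 i hi ht
  have hbig : ∀ i < k, 9 * Δ ≤ 10 * (pt nd (2 * i)).card := by
    intro i hi
    have h1 : (Δ : ℝ) ≤ (pt nd (2 * i)).card + (d : ℝ) := le_trans (hS.big i hi) (by linarith)
    have h2 : Δ ≤ (pt nd (2 * i)).card + d := by exact_mod_cast h1
    omega
  have hmem : ∀ v j, v ∈ pt nd j ↔ nd v = j := by
    intro v j
    unfold pt
    rw [Finset.mem_filter]
    exact ⟨fun h => h.2, fun h => ⟨Finset.mem_univ v, h⟩⟩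
  have hdF : ∀ v, nd v < 2 * k → dg (Fg G k ty nd) v ≤ d := by
    intro v hv
    have hi : nd v / 2 < k := by omega
    by_cases ht : ty (nd v / 2)
    · have h0 : nd v = 2 * (nd v / 2) := by
        by_contra hne
        have h1 : nd v = 2 * (nd v / 2) + 1 := by omega
        have h2 : v ∈ pt nd (2 * (nd v / 2) + 1) := (hmem _ _).2 h1
        rw [hodd _ hi ht] at h2
        exact absurd h2 (Finset.notMem_empty _)
      have h3 : v ∈ pt nd (2 * (nd v / 2)) := (hmem _ _).2 h0
      have h4 := fdE G Δ k ty nd hS.reg (nd v / 2) hi ht (hodd _ hi ht) v h3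
      have h5 : (Δ : ℝ) ≤ dgi G (pt nd (2 * (nd v / 2))) v + (d : ℝ) :=
        le_trans (hS.e2 _ hi ht v h3) (by linarith)
      have h6 : Δ ≤ dgi G (pt nd (2 * (nd v / 2))) v + d := by exact_mod_cast h5
      omega
    · rcases (by omega : nd v = 2 * (nd v / 2) ∨ nd v = 2 * (nd v / 2) + 1) with h0 | h0
      · have h3 : v ∈ pt nd (2 * (nd v / 2)) := (hmem _ _).2 h0
        have h4 := fdA G Δ k ty nd hS.reg (nd v / 2) hi ht v h3
        have h5 : (Δ : ℝ) ≤ dgi G (pt nd (2 * (nd v / 2) + 1)) v + (d : ℝ) :=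
          le_trans (hS.b2 _ hi ht v h3) (by linarith)
        have h6 : Δ ≤ dgi G (pt nd (2 * (nd v / 2) + 1)) v + d := by exact_mod_cast h5
        omega
      · have h3 : v ∈ pt nd (2 * (nd v / 2) + 1) := (hmem _ _).2 h0
        have h4 := fdB G Δ k ty nd hS.reg (nd v / 2) hi ht v h3
        have h5 : (Δ : ℝ) ≤ dgi G (pt nd (2 * (nd v / 2))) v + (d : ℝ) :=
          le_trans (hS.b3 _ hi ht v h3) (by linarith)
        have h6 : Δ ≤ dgi G (pt nd (2 * (nd v / 2))) v + d := by exact_mod_cast h5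
        omega
  have hhi : (univ.filter fun v => nd v < 2 * k ∧ e < dg (Fg G k ty nd) v).card ≤ e := by
    by_contra hlt
    rw [not_le] at hlt
    have h1 : ∑ v ∈ univ.filter (fun v => nd v < 2 * k), dg (Fg G k ty nd) v ≤ e ^ 2 := by
      have h2 := le_trans hS.sm he
      exact_mod_cast h2
    have h3 : ∑ v ∈ univ.filter (fun v => nd v < 2 * k ∧ e < dg (Fg G k ty nd) v),
        dg (Fg G k ty nd) v ≤ ∑ v ∈ univ.filter (fun v => nd v < 2 * k), dg (Fg G k ty nd) v := by
      apply Finset.sum_le_sum_of_subset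
      intro v hv
      rw [Finset.mem_filter] at hv ⊢
      exact ⟨hv.1, hv.2.1⟩
    have h4 : (univ.filter fun v => nd v < 2 * k ∧ e < dg (Fg G k ty nd) v).card * (e + 1) ≤
        ∑ v ∈ univ.filter (fun v => nd v < 2 * k ∧ e < dg (Fg G k ty nd) v),
        dg (Fg G k ty nd) v := by
      rw [← smul_eq_mul]
      apply Finset.card_nsmul_le_sum
      intro v hv
      rw [Finset.mem_filter] at hv
      exact hv.2.2
    have h5 : (e + 1) * (e + 1) ≤
        (univ.filter fun v => nd v < 2 * k ∧ e < dg (Fg G k ty nd) v).card * (e + 1) :=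
      Nat.mul_le_mul_right _ hlt
    nlinarith
  have hcod : ∀ i < k, ty i → ∀ v ∈ pt nd (2 * i),
      ((pt nd (2 * i)).filter fun u => u ≠ v ∧ ¬ G.Adj v u).card + (Δ + 1) =
      (pt nd (2 * i)).card + dg (Fg G k ty nd) v := by
    intro i hi ht v hv
    have h1 := fdE G Δ k ty nd hS.reg i hi ht (hodd i hi ht) v hv
    have h2 := Finset.card_filter_add_card_filter_not (s := pt nd (2 * i)) (fun u => G.Adj v u)
    have h3 : (pt nd (2 * i)).filter (fun u => ¬ G.Adj v u) =
        insert v ((pt nd (2 * i)).filter fun u => u ≠ v ∧ ¬ G.Adj v u) := by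
      ext u
      rw [Finset.mem_insert, Finset.mem_filter, Finset.mem_filter]
      constructor
      · rintro ⟨h, h'⟩
        by_cases huv : u = v
        · exact Or.inl huv
        · exact Or.inr ⟨h, huv, h'⟩
      · rintro (h | ⟨h, _, h'⟩)
        · rw [h]
          exact ⟨hv, G.irrefl⟩
        · exact ⟨h, h'⟩
    have h4 : v ∉ ((pt nd (2 * i)).filter fun u => u ≠ v ∧ ¬ G.Adj v u) := by
      intro h
      rw [Finset.mem_filter] at h
      exact h.2.1 rfl
    rw [h3, Finset.card_insert_of_notMem h4] at h2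
    unfold dgi at h1
    omega
  exact
    { le := hS.le
      odd := hodd
      even := fun i hi ht => (hS.e1 i hi ht).2
      bal := hbal
      big := hbig
      dF := hdF
      hi := hhi
      lo := by exact_mod_cast le_trans hS.lo hr
      cod := hcod
      dlo := fdL G Δ k ty nd hS.reg
      dgi := fun i hi =>
        ⟨fun ht => fdE G Δ k ty nd hS.reg i hi ht (hodd i hi ht),
          fun ht => ⟨fdA G Δ k ty nd hS.reg i hi ht, fdB G Δ k ty nd hS.reg i hi ht⟩⟩ }

end Pool.Agent.H46.G2
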