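import Mathlib
import Pool.Agent.H2.F2.Ifu
import Pool.Agent.H46.GA.Fhf
import Pool.Agent.H46.GA.Fdg
import Pool.Agent.H46.G2.Defs2

/-!
FZC: the facts `Fz` from `Str`, `Spl`, `Spl2`, `FcU` and `F0`. Adaptation of `fyc` (`Pool/Agent/H46/GP/Fyc.lean`, proved). `bx L j` is by definition `Pool.Agent.H2.F2.bt L j`. Use the STATEMENTS of `fhf` (`GA/Fhf.lean`), `fcl` (`GA/Fdg.lean`).

Proof.  `fcnu`: as `fcnp` in `GP/Fyc.lean`. `fzc`:
 * `le, odd, even, bal, big, dF, hi, lo, dlo`: `h0`. `clt, cu`: `Spl2`. `half`: `fhf`. `szc`: from `Spl2.sz`: `|#{..} - #pt / 7| ≤ e1 n ≤ E`, times `7` (cast to `ℝ`). `szu`: from `Spl2.szu` in the same way.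
 * `halfc`: `v` with `nd v < 2 k`, `P := nd v`, `j := cl v`: by `half` `4 #{u ∈ pt nd P : qt u < 2} ≥ Δ`, by `Spl2.szX` `#{qt u < 2, cl u = j} ≥ Δ / 28 - E ≥ Δ / 40` by `hE` (`100 E ≤ Δ`; `1/28 - 1/100 ≥ 1/40`). The same with `szY` (`¬ qt u < 2 ↔ 2 ≤ qt u`).
 * `nn`: `ty i`, `w ∉ sf i`: `Str.s3` gives `#{v ∈ pt nd (2 i) : ¬ Adj w v} ≥ ζ n`, `Spl2.nn` (`j = 6`) gives `#{.. cl v = 6 ..} ≥ ζ n / 7 - e1 n ≥ z` by `hz`.
 * `sf1`: `Str.s2`. `cnt`: `fcnu`. `av, t1, t2, c2, c3, ub, uK, us`: `FcU`. `c1`: `FcU.c1`, `3 p + 2 #pt nd (2 k) ≤ 3 p + 2 r ≤ kap` (and `bt .. 7 = bx .. 7` by `rfl`). `sm`: `FcU.sm`, `δ n ≤ D`. `sE, sB`: as for `fyc` with `h0.dgi`, `fcl`, `fcnu`.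
-/

set_option autoImplicit false

namespace Pool.Agent.H46.G2

open Finset Classical
open Pool.Agent.H71.DN Pool.Agent.H71.DX Pool.Agent.H71.DR Pool.Agent.H71.HL Pool.Agent.H71.DC
open Pool.Agent.H71.TD Pool.Agent.H90.TDP Pool.Agent.H46.GA Pool.Agent.H46.GP

theorem fcnu {V : Type} [Fintype V] (G : SimpleGraph V) (Δ p k : ℕ) (ty : ℕ → Prop)
    (nd qt cl : V → ℕ) (t K1 : ℕ) (δ : ℝ) (φ : ℕ → V → V) (c0 : V → ℕ)
    (hφ : Pool.Agent.H2.F2.FcU G Δ p k ty nd qt cl t K1 δ φ c0) (v : V) :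
    ((range (Δ + 2 * p)).filter fun ℓ => φ ℓ v ≠ v).card = dg (Fg G k ty nd) v := by
  unfold dg
  refine card_bij (fun ℓ _ => φ ℓ v) ?_ ?_ ?_
  · intro ℓ hℓ
    rw [mem_filter, mem_range] at hℓ
    rw [mem_filter]
    exact ⟨mem_univ _, hφ.adj ℓ hℓ.1 v hℓ.2⟩
  · intro ℓ hℓ ℓ' hℓ' h
    rw [mem_filter, mem_range] at hℓ hℓ'
    by_contra hne
    exact hφ.dis ℓ hℓ.1 ℓ' hℓ'.1 hne v hℓ.2 h
  · intro b hb
    rw [mem_filter] at hb
    obtain ⟨ℓ, hℓ, h⟩ := hφ.cov v b hb.2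
    refine ⟨ℓ, ?_, h⟩
    rw [mem_filter, mem_range]
    refine ⟨hℓ, ?_⟩
    rw [h]
    exact hb.2.ne'

private theorem fzc_even_dgi {V : Type} [Fintype V] (G : SimpleGraph V) (C : Finset V) :
    Even (∑ v ∈ C, dgi G C v) := by
  let G' : SimpleGraph V :=
    { Adj := fun a b => G.Adj a b ∧ a ∈ C ∧ b ∈ C
      symm := ⟨fun _ _ h => ⟨h.1.symm, h.2.2, h.2.1⟩⟩
      loopless := ⟨fun _ h => G.irrefl h.1⟩ }
  have h1 : ∑ v ∈ C, dgi G C v = ∑ v, G'.degree v := by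
    rw [← Finset.sum_subset (Finset.subset_univ C)]
    · refine Finset.sum_congr rfl fun v hv => ?_
      unfold dgi
      rw [← SimpleGraph.card_neighborFinset_eq_degree]
      congr 1
      ext u
      rw [Finset.mem_filter, SimpleGraph.mem_neighborFinset]
      constructor
      · rintro ⟨h, h'⟩
        exact ⟨h', hv, h⟩
      · rintro ⟨h, _, h'⟩
        exact ⟨h', h⟩
    · intro v _ hv
      rw [← SimpleGraph.card_neighborFinset_eq_degree, Finset.card_eq_zero]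
      apply Finset.eq_empty_of_forall_notMem
      intro u hu
      rw [SimpleGraph.mem_neighborFinset] at hu
      exact hv hu.2.1
  rw [h1, SimpleGraph.sum_degrees_eq_twice_card_edges]
  exact even_two_mul _

private theorem fzc_dc {V : Type} [Fintype V] (G : SimpleGraph V) (A B : Finset V) :
    ∑ v ∈ A, dgi G B v = ∑ v ∈ B, dgi G A v := by
  have h := Finset.sum_card_bipartiteAbove_eq_sum_card_bipartiteBelow (s := A) (t := B) G.Adj
  unfold Finset.bipartiteAbove Finset.bipartiteBelow at h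
  unfold dgi
  rw [h]
  refine Finset.sum_congr rfl fun v _ => ?_
  congr 1
  ext u
  rw [Finset.mem_filter, Finset.mem_filter, G.adj_comm]

theorem fzc {V : Type} [Fintype V] (G : SimpleGraph V) (Δ p k KE KB t K1 : ℕ)
    (c x ξ ζ f η f1 e1 δ : ℝ)
    (ty : ℕ → Prop) (nd qt cl un : V → ℕ) (sf : ℕ → Finset V) (φ : ℕ → V → V) (c0 : V → ℕ)
    (d D r z e E kap : ℕ) (hS : Str G Δ c x ξ ζ f k ty nd sf)
    (hP : Spl G k ty nd qt η KE KB f1) (hP2 : Pool.Agent.H2.F2.Spl2 G k ty nd qt cl un e1 f1)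
    (hφ : Pool.Agent.H2.F2.FcU G Δ p k ty nd qt cl t K1 δ φ c0)
    (h0 : F0 G Δ k ty nd d e r) (hη : η ≤ 1 / 100) (hD : δ * Fintype.card V ≤ D)
    (hz : 7 * (z : ℝ) + 7 * e1 * Fintype.card V ≤ ζ * Fintype.card V)
    (hE : e1 * Fintype.card V ≤ E) (hEΔ : 100 * E ≤ Δ) (hkap : 2 * r + 3 * p ≤ kap) :
    Fz G Δ p k ty nd qt cl un sf t φ c0 d D r z e E kap K1 := by
  have hmem : ∀ v j, v ∈ pt nd j ↔ nd v = j := by
    intro v j
    unfold pt
    rw [Finset.mem_filter]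
    exact ⟨fun h => h.2, fun h => ⟨Finset.mem_univ v, h⟩⟩
  have hcnt := fcnu G Δ p k ty nd qt cl t K1 δ φ c0 hφ
  have hEΔ' : 100 * (E : ℝ) ≤ Δ := by exact_mod_cast hEΔ
  have hhalf := fhf G Δ k KE KB ty nd qt η f1 hP hη h0.odd h0.bal h0.big
  have hszc : ∀ P < 2 * k, ∀ j < 7,
      7 * ((pt nd P).filter fun v => cl v = j).card ≤ (pt nd P).card + 7 * E ∧
      (pt nd P).card ≤ 7 * ((pt nd P).filter fun v => cl v = j).card + 7 * E := by
    intro P hPk j hj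
    have h1 := abs_le.1 (le_trans (hP2.sz P hPk j hj) hE)
    have h2 : 7 * (((pt nd P).filter fun v => cl v = j).card : ℝ) ≤ (pt nd P).card + 7 * E := by
      linarith [h1.2]
    have h3 : ((pt nd P).card : ℝ) ≤
        7 * (((pt nd P).filter fun v => cl v = j).card : ℝ) + 7 * E := by
      linarith [h1.1]
    exact ⟨by exact_mod_cast h2, by exact_mod_cast h3⟩
  have hszu : ∀ i < k, ty i → ∀ j < 7,
      7 * (((pt nd (2 * i)).filter fun v => cl v = j).image un).card ≤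
        ((pt nd (2 * i)).image un).card + 7 * E := by
    intro i hi ht j hj
    have h1 := abs_le.1 (le_trans (hP2.szu i hi ht j hj) hE)
    have h2 : 7 * ((((pt nd (2 * i)).filter fun v => cl v = j).image un).card : ℝ) ≤
        ((pt nd (2 * i)).image un).card + 7 * E := by
      linarith [h1.2]
    exact_mod_cast h2
  have hq : ∀ A B : ℕ, Δ ≤ 4 * A → |(B : ℝ) - (A : ℝ) / 7| ≤ e1 * Fintype.card V →
      Δ ≤ 40 * B := by
    intro A B hA hB
    have h1 := (abs_le.1 (le_trans hB hE)).1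
    have h2 : (Δ : ℝ) ≤ 4 * A := by exact_mod_cast hA
    have h4 : (0 : ℝ) ≤ Δ := by positivity
    have h3 : (Δ : ℝ) ≤ 40 * B := by linarith
    exact_mod_cast h3
  have hhalfc : ∀ v, nd v < 2 * k →
      Δ ≤ 40 * (univ.filter fun u => nd u = nd v ∧ cl u = cl v ∧ qt u < 2).card ∧
      Δ ≤ 40 * (univ.filter fun u => nd u = nd v ∧ cl u = cl v ∧ ¬ qt u < 2).card := by
    intro v hv
    obtain ⟨h1, h2⟩ := hhalf v hv
    have e1' : (univ.filter fun u => nd u = nd v ∧ qt u < 2) =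
        (pt nd (nd v)).filter fun u => qt u < 2 := by
      unfold pt
      rw [Finset.filter_filter]
    have e2' : (univ.filter fun u => nd u = nd v ∧ ¬ qt u < 2) =
        (pt nd (nd v)).filter fun u => 2 ≤ qt u := by
      unfold pt
      rw [Finset.filter_filter]
      apply Finset.filter_congr
      intro u _
      rw [not_lt]
    have e3' : (univ.filter fun u => nd u = nd v ∧ cl u = cl v ∧ qt u < 2) =
        (pt nd (nd v)).filter fun u => qt u < 2 ∧ cl u = cl v := by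
      unfold pt
      rw [Finset.filter_filter]
      apply Finset.filter_congr
      intro u _
      rw [and_comm (a := cl u = cl v)]
    have e4' : (univ.filter fun u => nd u = nd v ∧ cl u = cl v ∧ ¬ qt u < 2) =
        (pt nd (nd v)).filter fun u => 2 ≤ qt u ∧ cl u = cl v := by
      unfold pt
      rw [Finset.filter_filter]
      apply Finset.filter_congr
      intro u _
      rw [and_comm (a := cl u = cl v), not_lt]
    rw [e1'] at h1
    rw [e2'] at h2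
    rw [e3', e4']
    exact ⟨hq _ _ h1 (hP2.szX (nd v) hv (cl v) (hP2.lt v)),
      hq _ _ h2 (hP2.szY (nd v) hv (cl v) (hP2.lt v))⟩
  have hnn : ∀ i < k, ty i → ∀ w ∈ pt nd (2 * k), w ∉ sf i →
      z ≤ ((pt nd (2 * i)).filter fun v => cl v = 6 ∧ ¬ G.Adj w v).card := by
    intro i hi _ w hw hws
    obtain ⟨h1, _⟩ := hS.s3 i hi w hw hws
    have h2 := (abs_le.1 (hP2.nn w hw (2 * i) (by omega) 6 (by norm_num))).1
    have h3 : (z : ℝ) ≤ (((pt nd (2 * i)).filter fun v => cl v = 6 ∧ ¬ G.Adj w v).card : ℝ) := by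
      linarith
    exact_mod_cast h3
  have hc1 : ∀ w ∈ pt nd (2 * k), bx (Δ + 2 * p) 7 + 2 * p ≤ c0 w ∧
      c0 w < bx (Δ + 2 * p) 7 + 2 * p + kap := by
    intro w hw
    have h1 := hφ.c1 w hw
    have h2 : Pool.Agent.H2.F2.bt (Δ + 2 * p) 7 = bx (Δ + 2 * p) 7 := rfl
    rw [h2] at h1
    have h3 := h0.lo
    omega
  have hsE : ∀ i < k, ty i → Even (∑ ℓ ∈ range (Δ + 2 * p), cv nd (φ ℓ) (2 * i)) := by
    intro i hi ht
    rw [fcl, Finset.sum_congr rfl fun v _ => hcnt v]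
    have h1 : ∑ v ∈ pt nd (2 * i), (dg (Fg G k ty nd) v + dgi G (pt nd (2 * i)) v) =
        (pt nd (2 * i)).card * Δ := by
      rw [Finset.sum_congr rfl fun v hv => (h0.dgi i hi).1 ht v hv, Finset.sum_const, smul_eq_mul]
    rw [Finset.sum_add_distrib] at h1
    have h2 : Even ((pt nd (2 * i)).card * Δ) := (h0.even i hi ht).mul_right Δ
    rw [← h1, Nat.even_add] at h2
    exact h2.2 (fzc_even_dgi G (pt nd (2 * i)))
  have hsB : ∀ i < k, ¬ ty i → ∑ ℓ ∈ range (Δ + 2 * p), uu nd (φ ℓ) i = 0 := by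
    intro i hi ht
    have h0' : ∀ ℓ, uu nd (φ ℓ) i = (cv nd (φ ℓ) (2 * i) : ℤ) - (cv nd (φ ℓ) (2 * i + 1) : ℤ) :=
      fun ℓ => rfl
    rw [Finset.sum_congr rfl fun ℓ _ => h0' ℓ, Finset.sum_sub_distrib, ← Nat.cast_sum,
      ← Nat.cast_sum, fcl, fcl, Finset.sum_congr rfl fun v _ => hcnt v,
      Finset.sum_congr (s₁ := pt nd (2 * i + 1)) rfl fun v _ => hcnt v]
    have h1 : ∑ v ∈ pt nd (2 * i), (dg (Fg G k ty nd) v + dgi G (pt nd (2 * i + 1)) v) =
        (pt nd (2 * i)).card * Δ := by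
      rw [Finset.sum_congr rfl fun v hv => ((h0.dgi i hi).2 ht).1 v hv, Finset.sum_const,
        smul_eq_mul]
    have h2 : ∑ v ∈ pt nd (2 * i + 1), (dg (Fg G k ty nd) v + dgi G (pt nd (2 * i)) v) =
        (pt nd (2 * i + 1)).card * Δ := by
      rw [Finset.sum_congr rfl fun v hv => ((h0.dgi i hi).2 ht).2 v hv, Finset.sum_const,
        smul_eq_mul]
    rw [Finset.sum_add_distrib] at h1 h2
    rw [← h0.bal i hi ht, ← h1, fzc_dc G (pt nd (2 * i)) (pt nd (2 * i + 1))] at h2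
    have h3 := Nat.add_right_cancel h2
    rw [h3, sub_self]
  exact
    { le := h0.le
      odd := h0.odd
      even := h0.even
      bal := h0.bal
      big := h0.big
      clt := hP2.lt
      cu := hP2.cu
      half := hhalf
      halfc := hhalfc
      szc := hszc
      szu := hszu
      dF := h0.dF
      hi := h0.hi
      lo := h0.lo
      sf1 := hS.s2
      nn := hnn
      cnt := hcnt
      av := hφ.av
      t1 := hφ.t1
      t2 := hφ.t2
      c1 := hc1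
      c2 := hφ.c2
      c3 := hφ.c3
      dlo := h0.dlo
      sm := fun ℓ hℓ => by exact_mod_cast le_trans (hφ.sm ℓ hℓ) hD
      ub := hφ.ub
      uK := hφ.uK
      us := hφ.us
      sE := hsE
      sB := hsB }

end Pool.Agent.H46.G2
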