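import Mathlib
import Pool.Agent.H46.GA.Mxp
import Pool.Agent.H46.G2.Defs2

/-!
GRZ: `gry` (`Pool/Agent/H46/GP/Gry.lean`, proved) for the structure `F0` instead of `Fy`: copy its proof (only the fields `cod`, `dF`, `hi` are used). Use the STATEMENT of `prm` (`GA/Mxp.lean`).
-/

set_option autoImplicit false

namespace Pool.Agent.H46.G2

open Finset Classical
open Pool.Agent.H71.DN Pool.Agent.H71.DX Pool.Agent.H71.DR Pool.Agent.H71.HL Pool.Agent.H71.DC
open Pool.Agent.H71.TD Pool.Agent.H90.TDP Pool.Agent.H46.GA Pool.Agent.H46.GP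

theorem grz {V : Type} [Fintype V] (G : SimpleGraph V) (Δ k : ℕ) (ty : ℕ → Prop)
    (nd : V → ℕ) (d e r z : ℕ) (hF : F0 G Δ k ty nd d e r) (s q : ℕ) (hs : 2 ≤ s)
    (hq : 10 * q ≤ Δ) (he : 240 * e ≤ z) (hd : d ≤ Δ)
    (hch : ∀ i < k, ty i → 11 * Δ < 10 * (pt nd (2 * i)).card →
      ∃ (m : ℕ) (γ : V → ℕ), Grp G (pt nd (2 * i)) m s γ ∧ m + q ≤ Δ) :
    ∀ i < k, ty i → z < 16 * ((pt nd (2 * i)).card - (Δ + 1)) →
      ∃ (m : ℕ) (γ : V → ℕ), Grp G (pt nd (2 * i)) m s γ ∧ m + q ≤ Δ := by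
  intro i hi hty hz
  by_cases h11 : 11 * Δ < 10 * (pt nd (2 * i)).card
  · exact hch i hi hty h11
  have hnd : ∀ v ∈ pt nd (2 * i), nd v = 2 * i := by
    intro v hv
    unfold pt at hv
    exact (mem_filter.1 hv).2
  have hcod := hF.cod i hi hty
  obtain ⟨m, γ, hG, hm⟩ := prm G (pt nd (2 * i)) ((pt nd (2 * i)).card - (Δ + 1)) d e
    (by
      intro v hv
      have h1 := hcod v hv
      omega)
    (by
      intro v hv
      have h1 := hcod v hv
      have h2 := hF.dF v (by rw [hnd v hv]; omega)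
      omega)
    (by
      refine le_trans (card_le_card ?_) hF.hi
      intro v hv
      rw [mem_filter] at hv
      rw [mem_filter]
      have h1 := hcod v hv.1
      have h2 := hv.2
      have h3 := hnd v hv.1
      refine ⟨mem_univ _, by omega, by omega⟩)
    (by omega) (by omega) (by omega)
  refine ⟨m, γ, ⟨hG.lt, hG.pr, fun j => (hG.sz j).trans hs⟩, ?_⟩
  omega

end Pool.Agent.H46.G2
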