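import Mathlib
import Pool.Agent.H46.GP.Hap
import Pool.Agent.H46.G2.Bcl

/-!
HAZ: the numbers of holes in all pieces, `p ≥ 1`. Adaptation of `hap` (`Pool/Agent/H46/GP/Hap.lean`, proved) for the structures `Fz`, `Cz`: the only change is that `|gp| ≤ Kg` is given (`hC.kg`). Use the STATEMENTS of `hnE` (`GA/Hnm.lean`), `hnC` (`GP/Hap.lean`), `GP/Bbl.lean`.
 `hnC` with `K1 := Kg`: `2 M + Kg + 1 ≤ 4 M + Kg + 4`; `hnE`: `4 M + 3`.
-/

set_option autoImplicit false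

namespace Pool.Agent.H46.G2

open Finset Classical
open Pool.Agent.H71.DN Pool.Agent.H71.DX Pool.Agent.H71.DR Pool.Agent.H71.HL Pool.Agent.H71.DC
open Pool.Agent.H71.TD Pool.Agent.H90.TDP Pool.Agent.H46.GA Pool.Agent.H46.GP

theorem haz_one {V : Type} [Fintype V] (G : SimpleGraph V) (Δ p k : ℕ) (ty : ℕ → Prop)
    (nd qt cl un : V → ℕ) (sf : ℕ → Finset V) (t : ℕ) (φ : ℕ → V → V) (c0 : V → ℕ)
    (d D r z e E kap K1 : ℕ)
    (hF : Fz G Δ p k ty nd qt cl un sf t φ c0 d D r z e E kap K1) (hp : 1 ≤ p)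
    (Kb Kg : ℕ) (cc : V → ℕ) (hC : Cz G Δ p k ty nd qt t Kb Kg φ cc) (M : ℕ)
    (hM : Fintype.card V ≤ M * Δ) (ht : 12 * p + 4 * t < Δ) (i : ℕ) :
    ∃ f0 f1 : ℕ → ℕ, (i < k → ∑ ℓ ∈ range (Δ + 2 * p), f0 ℓ = (pt nd (2 * i)).card ∧
        ∑ ℓ ∈ range (Δ + 2 * p), f1 ℓ = (pt nd (2 * i + 1)).card) ∧
      (∀ ℓ, f0 ℓ ≤ 4 * M + Kg + 4 ∧ f1 ℓ ≤ 4 * M + Kg + 4) ∧
      (∀ ℓ, (T1 p t ℓ ∨ T2 p t ℓ) → f0 ℓ ≤ 3 ∧ f1 ℓ ≤ 3) ∧
      (i < k → ty i → ∀ ℓ < Δ + 2 * p, Even ((pt nd (2 * i)).card + cv nd (φ ℓ) (2 * i) +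
        bw p (Δ + 2 * p) nd cc (2 * i) ℓ + f0 ℓ)) ∧
      (i < k → ¬ ty i → ∀ ℓ < Δ + 2 * p, (f0 ℓ : ℤ) - f1 ℓ =
        gp p (Δ + 2 * p) nd φ cc i ℓ) := by
  have hL : 2 * p - 1 ≤ Δ + 2 * p := by omega
  have hT : ∀ ℓ, (T1 p t ℓ ∨ T2 p t ℓ) → ℓ < 6 * p + 2 * t := by
    intro ℓ h
    unfold T1 T2 at h
    omega
  have hK : ∀ j, (pt nd j).card ≤ 2 * M * (Δ + 2 * p - (6 * p + 2 * t)) := by
    intro j
    have h1 : (pt nd j).card ≤ Fintype.card V := Finset.card_le_univ _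
    have h2 : Δ ≤ 2 * (Δ + 2 * p - (6 * p + 2 * t)) := by omega
    have h3 : M * Δ ≤ M * (2 * (Δ + 2 * p - (6 * p + 2 * t))) := Nat.mul_le_mul_left M h2
    have h4 : M * (2 * (Δ + 2 * p - (6 * p + 2 * t))) = 2 * M * (Δ + 2 * p - (6 * p + 2 * t)) := by ring
    omega
  by_cases hi : i < k
  · by_cases hty : ty i
    · have hN := hF.even i hi hty
      have how := hap_bw p (Δ + 2 * p) nd cc hL hC.lt (2 * i)
      have hsum : Even (∑ ℓ ∈ range (Δ + 2 * p), ((pt nd (2 * i)).card + cv nd (φ ℓ) (2 * i) +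
          bw p (Δ + 2 * p) nd cc (2 * i) ℓ)) := by
        rw [Finset.sum_add_distrib, Finset.sum_add_distrib, how, Finset.sum_const,
          Finset.card_range, smul_eq_mul]
        exact ((hN.mul_left _).add (hF.sE i hi hty)).add (hN.mul_left _)
      obtain ⟨q, h1, h2, h3, h4⟩ := hnE (Δ + 2 * p) (6 * p + 2 * t) (pt nd (2 * i)).card (2 * M)
        (fun ℓ => (pt nd (2 * i)).card + cv nd (φ ℓ) (2 * i) + bw p (Δ + 2 * p) nd cc (2 * i) ℓ) hN hsum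
        (hC.ev i hi hty) (by omega) (hK _)
      refine ⟨q, fun _ => 0, ?_, ?_, ?_, ?_, ?_⟩
      · intro _
        refine ⟨h2, ?_⟩
        rw [hF.odd i hi hty]
        exact Finset.sum_const_zero
      · intro ℓ
        have h5 := h4 ℓ
        exact ⟨by omega, Nat.zero_le _⟩
      · intro ℓ hℓ
        exact ⟨(h3 ℓ (hT ℓ hℓ)).trans (by omega), Nat.zero_le _⟩
      · intro _ _ ℓ hℓ
        exact h1 ℓ hℓ
      · intro _ h
        exact absurd hty h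
    · have hbal := hF.bal i hi hty
      have how0 := hap_bw p (Δ + 2 * p) nd cc hL hC.lt (2 * i)
      have how1 := hap_bw p (Δ + 2 * p) nd cc hL hC.lt (2 * i + 1)
      have hs : ∑ ℓ ∈ range (Δ + 2 * p), gp p (Δ + 2 * p) nd φ cc i ℓ = 0 := by
        unfold gp
        rw [Finset.sum_sub_distrib, Finset.sum_sub_distrib, hF.sB i hi hty, ← Nat.cast_sum,
          ← Nat.cast_sum, how0, how1, hbal]
        ring
      have hg : ∀ ℓ < Δ + 2 * p, |gp p (Δ + 2 * p) nd φ cc i ℓ| ≤ (Kg : ℤ) :=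
        hC.kg i hi hty
      obtain ⟨qA, qB, h1, h2, h3, h4, h5⟩ := hnC (Δ + 2 * p) (6 * p + 2 * t) (pt nd (2 * i)).card (2 * M)
        Kg (gp p (Δ + 2 * p) nd φ cc i) hs (hC.ba i hi hty) hg (by omega) (hK _)
      refine ⟨qA, qB, ?_, ?_, ?_, ?_, ?_⟩
      · intro _
        exact ⟨h2, by rw [h3, hbal]⟩
      · intro ℓ
        have h6 := h5 ℓ
        exact ⟨by omega, by omega⟩
      · intro ℓ hℓ
        have h6 := h4 ℓ (hT ℓ hℓ)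
        have h7 := abs_le.1 (hC.bt i hi hty ℓ hℓ)
        exact ⟨by omega, by omega⟩
      · intro _ h
        exact absurd h hty
      · intro _ _ ℓ hℓ
        exact h1 ℓ hℓ
  · refine ⟨fun _ => 0, fun _ => 0, fun h => absurd h hi, fun ℓ => ⟨Nat.zero_le _, Nat.zero_le _⟩,
      fun ℓ _ => ⟨Nat.zero_le _, Nat.zero_le _⟩, fun h => absurd h hi, fun h => absurd h hi⟩

theorem haz {V : Type} [Fintype V] (G : SimpleGraph V) (Δ p k : ℕ) (ty : ℕ → Prop)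
    (nd qt cl un : V → ℕ) (sf : ℕ → Finset V) (t : ℕ) (φ : ℕ → V → V) (c0 : V → ℕ)
    (d D r z e E kap K1 : ℕ)
    (hF : Fz G Δ p k ty nd qt cl un sf t φ c0 d D r z e E kap K1) (hp : 1 ≤ p)
    (Kb Kg : ℕ) (cc : V → ℕ) (hC : Cz G Δ p k ty nd qt t Kb Kg φ cc) (M : ℕ)
    (hM : Fintype.card V ≤ M * Δ) (ht : 12 * p + 4 * t < Δ) :
    ∃ b : ℕ → ℕ → ℕ, (∀ j < 2 * k, ∑ ℓ ∈ range (Δ + 2 * p), b j ℓ = (pt nd j).card) ∧
      (∀ j ℓ, b j ℓ ≤ 4 * M + Kg + 4) ∧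
      (∀ j < 2 * k, ∀ ℓ, (T1 p t ℓ ∨ T2 p t ℓ) → b j ℓ ≤ 3) ∧
      (∀ i < k, ty i → ∀ ℓ < Δ + 2 * p, Even ((pt nd (2 * i)).card + cv nd (φ ℓ) (2 * i) +
        bw p (Δ + 2 * p) nd cc (2 * i) ℓ + b (2 * i) ℓ)) ∧
      ∀ i < k, ¬ ty i → ∀ ℓ < Δ + 2 * p,
        (b (2 * i) ℓ : ℤ) - b (2 * i + 1) ℓ = gp p (Δ + 2 * p) nd φ cc i ℓ := by
  have h0 := haz_one G Δ p k ty nd qt cl un sf t φ c0 d D r z e E kap K1 hF hp Kb Kg cc hC M hM ht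
  choose f0 f1 h1 h2 h3 h4 h5 using h0
  have e0 : ∀ i ℓ, (if 2 * i % 2 = 0 then f0 (2 * i / 2) ℓ else f1 (2 * i / 2) ℓ) = f0 i ℓ := by
    intro i ℓ
    rw [if_pos (by omega), show 2 * i / 2 = i by omega]
  have e1 : ∀ i ℓ, (if (2 * i + 1) % 2 = 0 then f0 ((2 * i + 1) / 2) ℓ else
      f1 ((2 * i + 1) / 2) ℓ) = f1 i ℓ := by
    intro i ℓ
    rw [if_neg (by omega), show (2 * i + 1) / 2 = i by omega]
  refine ⟨fun j ℓ => if j % 2 = 0 then f0 (j / 2) ℓ else f1 (j / 2) ℓ, ?_, ?_, ?_, ?_, ?_⟩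
  · intro j hj
    dsimp only
    by_cases hpj : j % 2 = 0
    · have hj2 : 2 * (j / 2) = j := by omega
      simp only [if_pos hpj]
      have h6 := (h1 (j / 2) (by omega)).1
      rw [hj2] at h6
      exact h6
    · have hj2 : 2 * (j / 2) + 1 = j := by omega
      simp only [if_neg hpj]
      have h6 := (h1 (j / 2) (by omega)).2
      rw [hj2] at h6
      exact h6
  · intro j ℓ
    dsimp only
    split_ifs
    · exact (h2 _ ℓ).1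
    · exact (h2 _ ℓ).2
  · intro j _ ℓ hℓ
    dsimp only
    split_ifs
    · exact (h3 _ ℓ hℓ).1
    · exact (h3 _ ℓ hℓ).2
  · intro i hi hty ℓ hℓ
    dsimp only
    rw [e0]
    exact h4 i hi hty ℓ hℓ
  · intro i hi hty ℓ hℓ
    dsimp only
    rw [e0, e1]
    exact h5 i hi hty ℓ hℓ

end Pool.Agent.H46.G2
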