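import Mathlib
import Pool.Agent.H46.G2.Haz
import Pool.Agent.H46.GP.Cl3

/-!
HOZ: the holes and the output `GaP`, `p ≥ 1`. Adaptation of `hop` (`Pool/Agent/H46/GP/Hop.lean`, proved) for the structures `Fz`, `Cz` (two constants `Kb`, `Kg` instead of `K`: `bw ≤ Kb`, numbers of holes `≤ 4 M + Kg + 4`). Use the STATEMENTS of `haz` (`G2/Haz.lean`), `cl3` (`GP/Cl3.lean`), `GP/Bbl.lean`.
-/

set_option autoImplicit false

namespace Pool.Agent.H46.G2

open Finset Classical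
open Pool.Agent.H71.DN Pool.Agent.H71.DX Pool.Agent.H71.DR Pool.Agent.H71.HL Pool.Agent.H71.DC
open Pool.Agent.H71.TD Pool.Agent.H90.TDP Pool.Agent.H46.GA Pool.Agent.H46.GP

private theorem Hoz_card {V : Type} [Fintype V] {p q : V → Prop} {i1 : DecidablePred p}
    {i2 : DecidablePred q} (h : ∀ v, p v ↔ q v) :
    (@Finset.filter V p i1 univ).card = (@Finset.filter V q i2 univ).card := by
  apply congrArg Finset.card
  ext v
  rw [Finset.mem_filter, Finset.mem_filter, h v]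

private theorem Hoz_cards {α : Type} {s : Finset α} {p q : α → Prop} {i1 : DecidablePred p}
    {i2 : DecidablePred q} (h : ∀ v, p v ↔ q v) :
    (@Finset.filter α p i1 s).card = (@Finset.filter α q i2 s).card := by
  apply congrArg Finset.card
  ext v
  rw [Finset.mem_filter, Finset.mem_filter, h v]

private theorem Hoz_sub {V : Type} [Fintype V] {p : V → Prop} {q : {v // p v} → Prop}
    {r : V → Prop} {i1 : DecidablePred q} {i2 : DecidablePred r} {fi : Fintype {v // p v}}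
    (h1 : ∀ u : {v // p v}, q u ↔ r u.1) (h2 : ∀ v, r v → p v) :
    (@Finset.filter {v // p v} q i1 (@Finset.univ _ fi)).card =
      (@Finset.filter V r i2 univ).card := by
  refine card_bij (fun u _ => u.1) ?_ ?_ ?_
  · intro u hu
    rw [mem_filter] at hu ⊢
    exact ⟨mem_univ _, (h1 u).1 hu.2⟩
  · intro u _ u' _ h
    exact Subtype.ext h
  · intro v hv
    rw [mem_filter] at hv
    exact ⟨⟨v, h2 v hv.2⟩, mem_filter.2 ⟨@Finset.mem_univ _ fi _, (h1 ⟨v, h2 v hv.2⟩).2 hv.2⟩, rfl⟩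

private theorem Hoz_sum0 {V : Type} [Fintype V] (nd : V → ℕ) (P : V → Prop) (k K : ℕ)
    (h : ∀ j < 2 * k, ((pt nd j).filter fun v => P v).card ≤ K) :
    (univ.filter fun v => nd v < 2 * k ∧ P v).card ≤ 2 * k * K := by
  have h1 : (univ.filter fun v => nd v < 2 * k ∧ P v) ⊆
      (range (2 * k)).biUnion fun j => (pt nd j).filter fun v => P v := by
    intro v hv
    rw [mem_filter] at hv
    rw [mem_biUnion]
    refine ⟨nd v, mem_range.2 hv.2.1, ?_⟩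
    rw [mem_filter]
    unfold pt
    rw [mem_filter]
    exact ⟨⟨mem_univ _, rfl⟩, hv.2.2⟩
  refine (card_le_card h1).trans ?_
  have h2 := card_biUnion_le_card_mul (range (2 * k))
    (fun j => (pt nd j).filter fun v => P v) K (fun j hj => h j (mem_range.1 hj))
  rw [card_range] at h2
  exact h2

private theorem Hoz_sum {V : Type} [Fintype V] (nd : V → ℕ) (P : V → Prop) (k K : ℕ)
    {i1 : DecidablePred P} {i2 : DecidablePred fun v => nd v < 2 * k ∧ P v}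
    (h : ∀ j < 2 * k, (@Finset.filter V P i1 (pt nd j)).card ≤ K) :
    (@Finset.filter V (fun v => nd v < 2 * k ∧ P v) i2 univ).card ≤ 2 * k * K := by
  have h0 := Hoz_sum0 nd P k K fun j hj => (Hoz_cards fun v => Iff.rfl).trans_le (h j hj)
  exact (Hoz_cards fun v => Iff.rfl).trans_le h0

/-- the vertices of a piece at the label `ℓ` -/
private theorem Hoz_part {V : Type} [Fintype V] (p L : ℕ) (nd : V → ℕ) (φ : ℕ → V → V)
    (cc hh : V → ℕ) (hc : ∀ v, ∀ ℓ ∈ BB p L (cc v), φ ℓ v = v) (hh1 : ∀ v, φ (hh v) v = v)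
    (hne : ∀ v, hh v ∉ BB p L (cc v)) (j ℓ : ℕ) :
    ((pt nd j).filter fun v => ¬ (φ ℓ v ≠ v ∨ ℓ ∈ insert (hh v) (BB p L (cc v)))).card +
      cv nd (φ ℓ) j + bw p L nd cc j ℓ + ow nd hh j ℓ = (pt nd j).card := by
  unfold cv ow bw
  rw [card_filter, card_filter, card_filter, card_filter, ← sum_add_distrib, ← sum_add_distrib,
    ← sum_add_distrib, card_eq_sum_ones]
  refine sum_congr rfl fun v _ => ?_
  by_cases h1 : φ ℓ v ≠ v
  · have h2 : ℓ ∉ BB p L (cc v) := fun h => h1 (hc v ℓ h)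
    have h3 : hh v ≠ ℓ := fun h => h1 (h ▸ hh1 v)
    rw [if_neg (fun h => h (Or.inl h1)), if_pos h1, if_neg h2, if_neg h3]
  · by_cases h2 : ℓ ∈ BB p L (cc v)
    · have h3 : hh v ≠ ℓ := fun h => hne v (h ▸ h2)
      rw [if_neg (fun h => h (Or.inr (mem_insert_of_mem h2))), if_neg h1, if_pos h2, if_neg h3]
    · by_cases h3 : hh v = ℓ
      · rw [if_neg (fun h => h (Or.inr (mem_insert.2 (Or.inl h3.symm)))), if_neg h1, if_neg h2,
          if_pos h3]
      · rw [if_pos (fun h => h.elim h1 fun h => (mem_insert.1 h).elim (fun h => h3 h.symm) h2),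
          if_neg h1, if_neg h2, if_neg h3]

theorem hoz {V : Type} [Fintype V] (G : SimpleGraph V) (Δ p k : ℕ) (ty : ℕ → Prop)
    (nd qt cl un : V → ℕ) (sf : ℕ → Finset V) (t : ℕ) (φ : ℕ → V → V) (c0 : V → ℕ)
    (d D r z e E kap K1 : ℕ)
    (hF : Fz G Δ p k ty nd qt cl un sf t φ c0 d D r z e E kap K1) (hp : 1 ≤ p)
    (Kb Kg : ℕ) (cc : V → ℕ) (hC : Cz G Δ p k ty nd qt t Kb Kg φ cc) (M : ℕ)
    (hM : Fintype.card V ≤ M * Δ) (ht : 12 * p + 12 * t < Δ)
    (hn : 4 * ((4 * M + Kg + 4) * (d + 2 * p) + D + 2 * k * Kb) < Δ) (κ : ℝ)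
    (hκ : ((D + 2 * k * (4 * M + Kb + Kg + 4) : ℕ) : ℝ) ≤ κ * Fintype.card V) :
    ∃ S : V → Finset ℕ, GaP G Δ p k ty nd qt t κ φ cc S := by
  have hL1 : 2 * p - 1 ≤ Δ + 2 * p := by omega
  obtain ⟨b, hb1, hb2, hb3, hb4, hb5⟩ :=
    haz G Δ p k ty nd qt cl un sf t φ c0 d D r z e E kap K1 hF hp Kb Kg cc hC M hM (by omega)
  obtain ⟨Z1, hZ1⟩ : ∃ Z : Finset ℕ, ∀ ℓ, ℓ ∈ Z ↔ ℓ < Δ + 2 * p ∧ T1 p t ℓ :=
    ⟨(range (Δ + 2 * p)).filter fun ℓ => T1 p t ℓ, fun ℓ => by rw [mem_filter, mem_range]⟩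
  obtain ⟨Z2, hZ2⟩ : ∃ Z : Finset ℕ, ∀ ℓ, ℓ ∈ Z ↔ ℓ < Δ + 2 * p ∧ T2 p t ℓ :=
    ⟨(range (Δ + 2 * p)).filter fun ℓ => T2 p t ℓ, fun ℓ => by rw [mem_filter, mem_range]⟩
  have hZ1c : Z1.card ≤ t := by
    have h1 : Z1 ⊆ Ico (2 * p) (2 * p + t) := fun ℓ hℓ => by
      have h := ((hZ1 ℓ).1 hℓ).2
      exact mem_Ico.2 ⟨h.1, h.2⟩
    have h2 := card_le_card h1
    rw [Nat.card_Ico] at h2
    omega
  have hZ2c : Z2.card ≤ t := by
    have h1 : Z2 ⊆ Ico (4 * p + t) (4 * p + 2 * t) := fun ℓ hℓ => by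
      have h := ((hZ2 ℓ).1 hℓ).2
      exact mem_Ico.2 ⟨h.1, h.2⟩
    have h2 := card_le_card h1
    rw [Nat.card_Ico] at h2
    omega
  -- sums over the blocks
  have hblk : ∀ j < 2 * k, ∀ (I : Finset ℕ), (∀ ℓ ∈ I, T1 p t ℓ ∨ T2 p t ℓ) → I.card ≤ t →
      ∑ ℓ ∈ I, b j ℓ ≤ 3 * t := by
    intro j hj I hI hIc
    have h1 : ∑ ℓ ∈ I, b j ℓ ≤ I.card • 3 :=
      sum_le_card_nsmul I (fun ℓ => b j ℓ) 3 fun ℓ hℓ => hb3 j hj ℓ (hI ℓ hℓ)
    rw [smul_eq_mul] at h1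
    omega
  have hblk0 : ∀ j < 2 * k, ∀ (I : Finset ℕ), (∀ ℓ ∈ I, ℓ < Δ + 2 * p) → pt nd j = ∅ →
      ∑ ℓ ∈ I, b j ℓ = 0 := by
    intro j hj I hI hem
    have h1 := hb1 j hj
    rw [hem, card_empty] at h1
    exact Nat.le_zero.1 (le_trans (sum_le_sum_of_subset fun ℓ hℓ => mem_range.2 (hI ℓ hℓ)) h1.le)
  obtain ⟨hh0, g1, g2, g3, g4, g5⟩ : ∃ c : {v : V // nd v < 2 * k} → ℕ,
      (∀ v, c v < Δ + 2 * p) ∧
      (∀ v, φ (c v) v.1 = v.1 ∧ c v ∉ BB p (Δ + 2 * p) (cc v.1)) ∧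
      (∀ j < 2 * k, ∀ ℓ < Δ + 2 * p,
        (univ.filter fun v : {v : V // nd v < 2 * k} => nd v.1 = j ∧ c v = ℓ).card = b j ℓ) ∧
      (∀ v : {v : V // nd v < 2 * k}, qt v.1 < 2 → ¬ T1 p t (c v)) ∧
      ∀ v : {v : V // nd v < 2 * k}, ¬ qt v.1 < 2 → ¬ T2 p t (c v) := by
    obtain ⟨G0, hG0⟩ : ∃ G0 : SimpleGraph {v : V // nd v < 2 * k}, ∀ a b, ¬ G0.Adj a b :=
      ⟨⊥, fun _ _ h => h⟩
    obtain ⟨c, c1, c2, _, c4, c5, c6⟩ := cl3 (V := {v : V // nd v < 2 * k}) (ι := Fin (2 * k))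
      G0 (Δ + 2 * p) Z1 Z2 (fun ℓ hℓ => mem_range.2 ((hZ1 ℓ).1 hℓ).1)
      (fun ℓ hℓ => mem_range.2 ((hZ2 ℓ).1 hℓ).1)
      (by
        rw [disjoint_left]
        intro ℓ h1 h2
        have h3 := ((hZ1 ℓ).1 h1).2.2
        have h4 := ((hZ2 ℓ).1 h2).2.1
        omega)
      (fun v => ⟨nd v.1, v.2⟩) (fun v => qt v.1 < 2)
      (fun ℓ => univ.filter fun v : {v : V // nd v < 2 * k} =>
        φ ℓ v.1 ≠ v.1 ∨ ℓ ∈ BB p (Δ + 2 * p) (cc v.1))
      (fun i => b i) (4 * M + Kg + 4) 0 (d + 2 * p) (D + 2 * k * Kb)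
      (fun i ℓ => hb2 i ℓ)
      (fun i => by
        rw [hb1 i i.2]
        unfold pt
        refine (Hoz_sub (fun u => ?_) fun v hv => ?_).symm
        · exact ⟨fun h => congrArg Fin.val h, fun h => Fin.ext h⟩
        · rw [hv]
          exact i.2)
      (fun i => by
        rw [Hoz_sub (r := fun v => nd v = i ∧ qt v < 2)
          (fun u => and_congr ⟨fun h => congrArg Fin.val h, fun h => Fin.ext h⟩ Iff.rfl)
          (fun v hv => by rw [hv.1]; exact i.2)]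
        rcases (pt nd i).eq_empty_or_nonempty with h | ⟨v, hv⟩
        · rw [hblk0 i i.2 _ (fun ℓ hℓ => ((hZ2 ℓ).1 hℓ).1) h]
          exact Nat.zero_le _
        · unfold pt at hv
          have hv2 := (mem_filter.1 hv).2
          have h1 := (hF.half v (by rw [hv2]; exact i.2)).1
          rw [hv2] at h1
          have h2 := hblk i i.2 Z2 (fun ℓ hℓ => Or.inr ((hZ2 ℓ).1 hℓ).2) hZ2c
          rw [Hoz_card (q := fun v => nd v = i ∧ qt v < 2) (fun v => Iff.rfl)] at h1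
          omega)
      (fun i => by
        rw [Hoz_sub (r := fun v => nd v = i ∧ ¬ qt v < 2)
          (fun u => and_congr ⟨fun h => congrArg Fin.val h, fun h => Fin.ext h⟩ Iff.rfl)
          (fun v hv => by rw [hv.1]; exact i.2)]
        rcases (pt nd i).eq_empty_or_nonempty with h | ⟨v, hv⟩
        · rw [hblk0 i i.2 _ (fun ℓ hℓ => ((hZ1 ℓ).1 hℓ).1) h]
          exact Nat.zero_le _
        · unfold pt at hv
          have hv2 := (mem_filter.1 hv).2
          have h1 := (hF.half v (by rw [hv2]; exact i.2)).2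
          rw [hv2] at h1
          have h2 := hblk i i.2 Z1 (fun ℓ hℓ => Or.inl ((hZ1 ℓ).1 hℓ).2) hZ1c
          rw [Hoz_card (q := fun v => nd v = i ∧ ¬ qt v < 2) (fun v => Iff.rfl)] at h1
          omega)
      (fun v => by
        unfold dg
        rw [Nat.le_zero, card_eq_zero]
        refine eq_empty_of_forall_notMem fun u hu => ?_
        exact hG0 _ _ (mem_filter.1 hu).2)
      (fun v => by
        have h1 : ((range (Δ + 2 * p)).filter fun ℓ => φ ℓ v.1 ≠ v.1 ∨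
              ℓ ∈ BB p (Δ + 2 * p) (cc v.1)) ⊆
            ((range (Δ + 2 * p)).filter fun ℓ => φ ℓ v.1 ≠ v.1) ∪
              BB p (Δ + 2 * p) (cc v.1) := by
          intro ℓ hℓ
          rw [mem_filter] at hℓ
          rw [mem_union, mem_filter]
          rcases hℓ.2 with h | h
          · exact Or.inl ⟨hℓ.1, h⟩
          · exact Or.inr h
        have h2 : ((range (Δ + 2 * p)).filter fun ℓ => φ ℓ v.1 ≠ v.1 ∨
            ℓ ∈ BB p (Δ + 2 * p) (cc v.1)).card ≤ d + 2 * p := by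
          refine (card_le_card h1).trans ((card_union_le _ _).trans ?_)
          rw [hF.cnt v.1, bb_card]
          exact Nat.add_le_add (hF.dF v.1 v.2) (Nat.sub_le _ _)
        refine (Hoz_cards fun ℓ => ?_).trans_le h2
        exact ⟨fun h => (mem_filter.1 h).2, fun h => mem_filter.2 ⟨mem_univ _, h⟩⟩)
      (fun ℓ hℓ => by
        rw [Hoz_sub (r := fun v => nd v < 2 * k ∧ (φ ℓ v ≠ v ∨ ℓ ∈ BB p (Δ + 2 * p) (cc v)))
          (fun u => ⟨fun h => ⟨u.2, h⟩, fun h => h.2⟩) (fun v hv => hv.1)]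
        have h1 : (univ.filter fun v => nd v < 2 * k ∧
              (φ ℓ v ≠ v ∨ ℓ ∈ BB p (Δ + 2 * p) (cc v))) ⊆
            (univ.filter fun v => nd v < 2 * k ∧ φ ℓ v ≠ v) ∪
            (univ.filter fun v => nd v < 2 * k ∧ ℓ ∈ BB p (Δ + 2 * p) (cc v)) := by
          intro v hv
          rw [mem_filter] at hv
          rw [mem_union, mem_filter, mem_filter]
          rcases hv.2.2 with h | h
          · exact Or.inl ⟨mem_univ _, hv.2.1, h⟩
          · exact Or.inr ⟨mem_univ _, hv.2.1, h⟩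
        refine (card_le_card h1).trans ((card_union_le _ _).trans ?_)
        exact Nat.add_le_add (hF.sm ℓ hℓ)
          (Hoz_sum nd (fun v => ℓ ∈ BB p (Δ + 2 * p) (cc v)) k Kb fun j hj => hC.ct j hj ℓ hℓ))
      (fun v => by
        have h1 := hF.half v.1 v.2
        rw [Hoz_sub (r := fun u => nd u = nd v.1 ∧ (qt u < 2 ↔ qt v.1 < 2))
          (fun u => and_congr ⟨fun h => congrArg Fin.val h, fun h => Fin.ext h⟩ Iff.rfl)
          (fun u hu => by rw [hu.1]; exact v.2)]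
        have h2 : Δ ≤ 4 * (univ.filter fun u => nd u = nd v.1 ∧ (qt u < 2 ↔ qt v.1 < 2)).card := by
          by_cases h3 : qt v.1 < 2
          · refine h1.1.trans (Nat.mul_le_mul_left 4 (card_le_card fun u hu => ?_))
            rw [mem_filter] at hu ⊢
            exact ⟨mem_univ _, hu.2.1, iff_of_true hu.2.2 h3⟩
          · refine h1.2.trans (Nat.mul_le_mul_left 4 (card_le_card fun u hu => ?_))
            rw [mem_filter] at hu ⊢
            exact ⟨mem_univ _, hu.2.1, iff_of_false hu.2.2 h3⟩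
        simp only [Nat.mul_zero, Nat.add_zero]
        omega)
    refine ⟨c, c1, fun v => ?_, fun j hj ℓ hℓ => ?_, fun v hv hT => ?_, fun v hv hT => ?_⟩
    · have h1 := c2 v
      rw [mem_filter] at h1
      have h2 : ¬ (φ (c v) v.1 ≠ v.1 ∨ c v ∈ BB p (Δ + 2 * p) (cc v.1)) :=
        fun h => h1 ⟨mem_univ _, h⟩
      rw [not_or, not_not] at h2
      exact h2
    · rw [← c4 ⟨j, hj⟩ ℓ hℓ]
      exact Hoz_card fun v => and_congr ⟨fun h => Fin.ext h, fun h => congrArg Fin.val h⟩ Iff.rfl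
    · exact c5 v hv ((hZ1 _).2 ⟨c1 v, hT⟩)
    · exact c6 v hv ((hZ2 _).2 ⟨c1 v, hT⟩)
  -- the exceptional vertices
  have hex : ∀ v, ¬ nd v < 2 * k → cc v + p < Δ + 2 * p ∧ φ (cc v + p) v = v ∧
      cc v + p ∉ BB p (Δ + 2 * p) (cc v) := by
    intro v hv
    have h1 : v ∈ pt nd (2 * k) := by
      unfold pt
      rw [mem_filter]
      have := hF.le v
      exact ⟨mem_univ _, by omega⟩
    obtain ⟨h2, h3, h4⟩ := hC.cl v h1
    refine ⟨h3, h4 _ (by omega) le_rfl, fun h5 => ?_⟩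
    rw [bb_mid p (Δ + 2 * p) (cc v) (cc v + p) hp (by omega) (by omega)] at h5
    exact lt_irrefl _ h5.2
  obtain ⟨hh, k1, k2⟩ : ∃ hh : V → ℕ, (∀ v (h : nd v < 2 * k), hh v = hh0 ⟨v, h⟩) ∧
      ∀ v, ¬ nd v < 2 * k → hh v = cc v + p := by
    refine ⟨fun v => if h : nd v < 2 * k then hh0 ⟨v, h⟩ else cc v + p, ?_, ?_⟩
    · intro v h
      simp only [dif_pos h]
    · intro v h
      simp only [dif_neg h]
  have m1 : ∀ v, hh v < Δ + 2 * p ∧ φ (hh v) v = v ∧ hh v ∉ BB p (Δ + 2 * p) (cc v) := by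
    intro v
    by_cases h : nd v < 2 * k
    · rw [k1 v h]
      exact ⟨g1 _, (g2 ⟨v, h⟩).1, (g2 ⟨v, h⟩).2⟩
    · rw [k2 v h]
      exact hex v h
  have m2 : ∀ j < 2 * k, ∀ ℓ < Δ + 2 * p, ow nd hh j ℓ = b j ℓ := by
    intro j hj ℓ hℓ
    rw [← g3 j hj ℓ hℓ]
    unfold ow pt
    rw [filter_filter]
    refine (Hoz_sub (fun u => ?_) fun v hv => ?_).symm
    · rw [k1 u.1 u.2]
    · rw [hv.1]
      exact hj
  have hpart := Hoz_part p (Δ + 2 * p) nd φ cc hh hC.fr (fun v => (m1 v).2.1)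
    (fun v => (m1 v).2.2)
  refine ⟨fun v => insert (hh v) (BB p (Δ + 2 * p) (cc v)), ⟨?_, ?_, ?_, ?_, ?_, ?_, ?_, ?_, ?_, ?_⟩⟩
  · exact hC.lt
  · intro v
    constructor
    · intro ℓ hℓ
      rcases mem_insert.1 hℓ with h | h
      · rw [h]
        exact mem_range.2 (m1 v).1
      · exact bb_sub p (Δ + 2 * p) (cc v) hL1 h
    · show (insert (hh v) (BB p (Δ + 2 * p) (cc v))).card = 2 * p
      rw [card_insert_of_notMem (m1 v).2.2, bb_card]
      omega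
  · intro v ℓ hℓ h
    exact mem_insert_of_mem (bb_win p (Δ + 2 * p) (cc v) ℓ hp hL1 (hC.lt v) hℓ h)
  · intro v ℓ hℓ
    rcases mem_insert.1 hℓ with h | h
    · rw [h]
      exact (m1 v).2.1
    · exact hC.fr v ℓ h
  · exact hC.pr
  · intro v hv hq ℓ hℓ
    rcases mem_insert.1 hℓ with h | h
    · rw [h, k1 v hv]
      exact g4 ⟨v, hv⟩ hq
    · exact hC.t1 v hv hq ℓ h
  · intro v hv hq ℓ hℓ
    rcases mem_insert.1 hℓ with h | h
    · rw [h, k1 v hv]
      exact g5 ⟨v, hv⟩ (by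
        show ¬ qt v < 2
        omega)
    · exact hC.t2 v hv hq ℓ h
  · intro i hi hty ℓ hℓ
    have h1 := hpart (2 * i) ℓ
    rw [m2 (2 * i) (by omega) ℓ hℓ] at h1
    have h2 := hb4 i hi hty ℓ hℓ
    obtain ⟨x, hx⟩ := h2
    rw [Nat.even_iff]
    omega
  · intro i hi hty ℓ hℓ
    have h1 := hpart (2 * i) ℓ
    have h2 := hpart (2 * i + 1) ℓ
    rw [m2 (2 * i) (by omega) ℓ hℓ] at h1
    rw [m2 (2 * i + 1) (by omega) ℓ hℓ] at h2
    have h3 := hb5 i hi hty ℓ hℓ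
    have h4 := hF.bal i hi hty
    unfold gp uu at h3
    unfold cv at h1 h2
    omega
  · intro ℓ hℓ
    refine le_trans ?_ hκ
    have h1 : (univ.filter fun v => nd v < 2 * k ∧
          (φ ℓ v ≠ v ∨ ℓ ∈ insert (hh v) (BB p (Δ + 2 * p) (cc v)))) ⊆
        ((univ.filter fun v => nd v < 2 * k ∧ φ ℓ v ≠ v) ∪
        (univ.filter fun v => nd v < 2 * k ∧ ℓ ∈ BB p (Δ + 2 * p) (cc v))) ∪
        (univ.filter fun v => nd v < 2 * k ∧ hh v = ℓ) := by
      intro v hv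
      rw [mem_filter] at hv
      rw [mem_union, mem_union, mem_filter, mem_filter, mem_filter]
      rcases hv.2.2 with h | h
      · exact Or.inl (Or.inl ⟨mem_univ _, hv.2.1, h⟩)
      · rcases mem_insert.1 h with h | h
        · exact Or.inr ⟨mem_univ _, hv.2.1, h.symm⟩
        · exact Or.inl (Or.inr ⟨mem_univ _, hv.2.1, h⟩)
    have h2 := (card_le_card h1).trans ((card_union_le _ _).trans
      (Nat.add_le_add_right (card_union_le _ _) _))
    have h3 := hF.sm ℓ hℓ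
    have h4 : (univ.filter fun v => nd v < 2 * k ∧ ℓ ∈ BB p (Δ + 2 * p) (cc v)).card ≤
        2 * k * Kb :=
      Hoz_sum nd (fun v => ℓ ∈ BB p (Δ + 2 * p) (cc v)) k Kb fun j hj => hC.ct j hj ℓ hℓ
    have h5 : (univ.filter fun v => nd v < 2 * k ∧ hh v = ℓ).card ≤
        2 * k * (4 * M + Kg + 4) :=
      Hoz_sum nd (fun v => hh v = ℓ) k (4 * M + Kg + 4) fun j hj =>
        (m2 j hj ℓ hℓ).le.trans (hb2 j ℓ)
    have h6 : 2 * k * (4 * M + Kb + Kg + 4) = 2 * k * Kb + 2 * k * (4 * M + Kg + 4) := by ring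
    have h7 : (univ.filter fun v => nd v < 2 * k ∧
        (φ ℓ v ≠ v ∨ ℓ ∈ insert (hh v) (BB p (Δ + 2 * p) (cc v)))).card ≤
        D + 2 * k * (4 * M + Kb + Kg + 4) := by omega
    exact_mod_cast h7

end Pool.Agent.H46.G2
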