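import Mathlib
import Pool.Agent.H46.GA.Mxp
import Pool.Agent.H46.G2.Defs2

/-!
USZ: the units. Adaptation of `wsp` (`Pool/Agent/H46/GP/Wsp.lean`, proved) and of the beginning of `wtp` (`GP/Wtp.lean`, proved). Use the STATEMENT of `prs` (`GA/Mxp.lean`).

Proof.  For `i < k` with `ty i`, `C := pt nd (2 i)`, `N := #C`, `m1 := N - (Δ + 2 p - 1)`, choose `Wi, m, γ`:
 * If `z < 16 m1`: then `z < 16 (N - (Δ + 1))`, `hgr` gives `m, γ` with `m + q ≤ Δ`; `Wi := C` (`Δ + 2 p ≤ N`).
 * Otherwise `16 m1 ≤ z`. If `m1 = 0`: `Wi := ∅`, `m := 0`. If `0 < m1`: `prs` with `p := m1`, `d := d + (2 p - 2)` (for `v ∈ C` the number of `u ∈ C`, `u ≠ v`, not adjacent to `v`, is `m1 + (2 p - 2) + dg F v` by `hF.cod`; `4 m1 + 2 (d + (2 p - 2)) < N` by `hz`) gives `Wi`, `γ` with `m := m1` classes of two elements; `8 #Wi = 16 m1 ≤ z`.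
 `W := {v : nd v < 2 k, ty (nd v / 2), v ∈ Wi (nd v / 2)}`; `v ∈ W` implies `nd v = 2 (nd v / 2)`. `un v := 2 * Nat.pair (nd v) (γ (nd v / 2) v) + 1` for `v ∈ W`, `un v := 2 * Nat.pair (nd v) (em v)` for `v ∉ W`, `em : V → ℕ` injective (`Fintype.equivFin`).
 `nu, si`: clear (`Nat.pair` is injective, parity). `pr`: `Grp.pr` for `a, b ∈ W`; for `a ∉ W` `a = b`. `sz`: `Grp.sz`, and `1 ≤ s`. `alt`: in the first case the image of `C` under `un` has at most `m` elements (all `γ v < m`); in the second case `{v ∈ W : nd v = 2 i} = Wi`, its image has exactly `m1` elements (the classes `j < m1` are not empty), every unit has `2` elements.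
-/

set_option autoImplicit false

namespace Pool.Agent.H46.G2

open Finset Classical
open Pool.Agent.H71.DN Pool.Agent.H71.DX Pool.Agent.H71.DR Pool.Agent.H71.HL Pool.Agent.H71.DC
open Pool.Agent.H71.TD Pool.Agent.H90.TDP Pool.Agent.H46.GA Pool.Agent.H46.GP

private theorem usz_one {V : Type} [Fintype V] (G : SimpleGraph V) (Δ p k : ℕ) (ty : ℕ → Prop)
    (nd : V → ℕ) (d e r z : ℕ) (hF : F0 G Δ k ty nd d e r) (s q : ℕ) (hp : 1 ≤ p)
    (hs : 2 ≤ s) (hz : z + 2 * d + 4 * p ≤ Δ)
    (hgr : ∀ i < k, ty i → z < 16 * ((pt nd (2 * i)).card - (Δ + 1)) →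
      ∃ (m : ℕ) (γ : V → ℕ), Grp G (pt nd (2 * i)) m s γ ∧ m + q ≤ Δ)
    (i : ℕ) (hi : i < k) (hty : ty i) :
    ∃ (Wi : Finset V) (m : ℕ) (γ : V → ℕ), Wi ⊆ pt nd (2 * i) ∧ Grp G Wi m s γ ∧
      ((Wi = pt nd (2 * i) ∧ Δ + 2 * p ≤ (pt nd (2 * i)).card ∧ m + q ≤ Δ) ∨
        (8 * Wi.card ≤ z ∧ m = (pt nd (2 * i)).card - (Δ + 2 * p - 1) ∧
          ∀ j < m, (Wi.filter fun v => γ v = j).card = 2)) := by
  obtain ⟨C, hC⟩ : ∃ C, C = pt nd (2 * i) := ⟨_, rfl⟩
  by_cases hcase : z < 16 * ((pt nd (2 * i)).card - (Δ + 2 * p - 1))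
  · have hcase' : z < 16 * ((pt nd (2 * i)).card - (Δ + 1)) := by omega
    obtain ⟨m, γ, hG, hm⟩ := hgr i hi hty hcase'
    exact ⟨pt nd (2 * i), m, γ, Finset.Subset.refl _, hG, Or.inl ⟨rfl, by omega, hm⟩⟩
  · rw [not_lt] at hcase
    have hcod := hF.cod i hi hty
    have hnd : ∀ v ∈ pt nd (2 * i), nd v < 2 * k := by
      intro v hv
      unfold pt at hv
      rw [mem_filter] at hv
      omega
    rw [← hC] at hcase hcod hnd ⊢
    obtain ⟨m1, hm1⟩ : ∃ m1, m1 = C.card - (Δ + 2 * p - 1) := ⟨_, rfl⟩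
    rw [← hm1] at hcase
    rcases Nat.eq_zero_or_pos m1 with hp0 | hp0
    · refine ⟨∅, 0, fun _ => 0, Finset.empty_subset _, ⟨?_, ?_, ?_⟩, Or.inr ⟨?_, ?_, ?_⟩⟩
      · intro v hv
        exact absurd hv (Finset.notMem_empty v)
      · intro v hv
        exact absurd hv (Finset.notMem_empty v)
      · intro j
        rw [Finset.filter_empty, Finset.card_empty]
        exact Nat.zero_le _
      · rw [Finset.card_empty, Nat.mul_zero]
        exact Nat.zero_le _
      · omega
      · intro j hj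
        exact absurd hj (Nat.not_lt_zero j)
    · have hN : C.card = Δ + 2 * p - 1 + m1 := by omega
      have h1 : ∀ v ∈ C, m1 ≤ (C.filter fun u => u ≠ v ∧ ¬ G.Adj v u).card := by
        intro v hv
        have h := hcod v hv
        omega
      have h2 : ∀ v ∈ C, (C.filter fun u => u ≠ v ∧ ¬ G.Adj v u).card ≤
          m1 + (d + (2 * p - 2)) := by
        intro v hv
        have h := hcod v hv
        have h3 := hF.dF v (hnd v hv)
        omega
      obtain ⟨W, γ, hW, hG, hj⟩ := prs G C m1 (d + (2 * p - 2)) h1 h2 (by omega)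
      have hWc : W.card = 2 * m1 := by
        have h3 : W.card = ∑ j ∈ range m1, (W.filter fun v => γ v = j).card :=
          Finset.card_eq_sum_card_fiberwise fun v hv => by
            rw [Finset.mem_coe, mem_range]
            exact hG.lt v hv
        rw [h3, Finset.sum_congr rfl fun j hj' => hj j (mem_range.1 hj'), Finset.sum_const,
          card_range, smul_eq_mul, Nat.mul_comm]
      refine ⟨W, m1, γ, hW, ⟨hG.lt, hG.pr, fun j => (hG.sz j).trans hs⟩,
        Or.inr ⟨by omega, hm1, hj⟩⟩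

theorem usz {V : Type} [Fintype V] (G : SimpleGraph V) (Δ p k : ℕ) (ty : ℕ → Prop)
    (nd : V → ℕ) (d e r z : ℕ) (hF : F0 G Δ k ty nd d e r) (s q : ℕ) (hp : 1 ≤ p)
    (hs : 2 ≤ s) (hz : z + 2 * d + 4 * p ≤ Δ)
    (hgr : ∀ i < k, ty i → z < 16 * ((pt nd (2 * i)).card - (Δ + 1)) →
      ∃ (m : ℕ) (γ : V → ℕ), Grp G (pt nd (2 * i)) m s γ ∧ m + q ≤ Δ) :
    ∃ (W : Finset V) (un : V → ℕ), Uz G Δ p k ty nd s q z W un := by
  have hex : ∀ i, ∃ (Wi : Finset V) (m : ℕ) (γ : V → ℕ), (¬ (i < k ∧ ty i) → Wi = ∅) ∧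
      (i < k → ty i → Wi ⊆ pt nd (2 * i) ∧ Grp G Wi m s γ ∧
      ((Wi = pt nd (2 * i) ∧ Δ + 2 * p ≤ (pt nd (2 * i)).card ∧ m + q ≤ Δ) ∨
        (8 * Wi.card ≤ z ∧ m = (pt nd (2 * i)).card - (Δ + 2 * p - 1) ∧
          ∀ j < m, (Wi.filter fun v => γ v = j).card = 2))) := by
    intro i
    by_cases h : i < k ∧ ty i
    · obtain ⟨Wi, m, γ, h1⟩ := usz_one G Δ p k ty nd d e r z hF s q hp hs hz hgr i h.1 h.2
      exact ⟨Wi, m, γ, fun h2 => absurd h h2, fun _ _ => h1⟩
    · exact ⟨∅, 0, fun _ => 0, fun _ => rfl, fun h1 h2 => absurd ⟨h1, h2⟩ h⟩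
  choose Wi m γ hW0 hW using hex
  obtain ⟨W, hWdef⟩ : ∃ W : Finset V, W = univ.filter fun v => v ∈ Wi (nd v / 2) := ⟨_, rfl⟩
  have hWm : ∀ v ∈ W, nd v / 2 < k ∧ ty (nd v / 2) ∧ nd v = 2 * (nd v / 2) ∧
      v ∈ Wi (nd v / 2) := by
    intro v hv
    rw [hWdef, mem_filter] at hv
    have h1 : nd v / 2 < k ∧ ty (nd v / 2) := by
      by_contra h2
      rw [hW0 _ h2] at hv
      exact absurd hv.2 (notMem_empty _)
    have h2 := (hW _ h1.1 h1.2).1 hv.2
    unfold pt at h2
    rw [mem_filter] at h2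
    exact ⟨h1.1, h1.2, h2.2, hv.2⟩
  have hWi : ∀ i < k, ty i → ∀ v, v ∈ Wi i → nd v = 2 * i ∧ v ∈ W := by
    intro i hi hty v hv
    have h2 := (hW i hi hty).1 hv
    unfold pt at h2
    rw [mem_filter] at h2
    refine ⟨h2.2, ?_⟩
    rw [hWdef, mem_filter]
    refine ⟨mem_univ _, ?_⟩
    have h3 : nd v / 2 = i := by
      have := h2.2
      omega
    rw [h3]
    exact hv
  obtain ⟨em, hem⟩ : ∃ em : V → ℕ, Function.Injective em :=
    ⟨fun v => (Fintype.equivFin V v : ℕ), fun a b h => (Fintype.equivFin V).injective (Fin.ext h)⟩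
  obtain ⟨un, hun⟩ : ∃ un : V → ℕ, un = fun v =>
    if v ∈ W then 2 * Nat.pair (nd v) (γ (nd v / 2) v) + 1 else 2 * Nat.pair (nd v) (em v) :=
    ⟨_, rfl⟩
  have hu1 : ∀ v ∈ W, un v = 2 * Nat.pair (nd v) (γ (nd v / 2) v) + 1 := by
    intro v hv
    rw [hun]
    exact if_pos hv
  have hu0 : ∀ v, v ∉ W → un v = 2 * Nat.pair (nd v) (em v) := by
    intro v hv
    rw [hun]
    exact if_neg hv
  have key1 : ∀ a b, un a = un b → a ∈ W → b ∈ W ∧ nd a = nd b ∧
      γ (nd a / 2) a = γ (nd a / 2) b := by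
    intro a b hab ha
    by_cases hb : b ∈ W
    · rw [hu1 a ha, hu1 b hb] at hab
      have h1 : Nat.pair (nd a) (γ (nd a / 2) a) = Nat.pair (nd b) (γ (nd b / 2) b) := by omega
      rw [Nat.pair_eq_pair] at h1
      refine ⟨hb, h1.1, ?_⟩
      rw [h1.2, h1.1]
    · rw [hu1 a ha, hu0 b hb] at hab
      omega
  have key0 : ∀ a b, un a = un b → a ∉ W → a = b := by
    intro a b hab ha
    by_cases hb : b ∈ W
    · rw [hu0 a ha, hu1 b hb] at hab
      omega
    · rw [hu0 a ha, hu0 b hb] at hab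
      have h1 : Nat.pair (nd a) (em a) = Nat.pair (nd b) (em b) := by omega
      rw [Nat.pair_eq_pair] at h1
      exact hem h1.2
  have key2 : ∀ a b, a ∈ W → b ∈ W → nd a = nd b → γ (nd a / 2) a = γ (nd a / 2) b →
      un a = un b := by
    intro a b ha hb h1 h2
    rw [hu1 a ha, hu1 b hb, h2, h1]
  refine ⟨W, un, ⟨?_, ?_, ?_, ?_, ?_, ?_⟩⟩
  · intro v hv
    obtain ⟨h1, h2, h3, h4⟩ := hWm v hv
    exact ⟨by omega, h2⟩
  · intro a b hab
    by_cases ha : a ∈ W
    · exact (key1 a b hab ha).2.1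
    · rw [key0 a b hab ha]
  · exact key0
  · intro a b hab hadj
    by_cases ha : a ∈ W
    · obtain ⟨hb, h1, h2⟩ := key1 a b hab ha
      obtain ⟨h3, h4, h5, h6⟩ := hWm a ha
      have h7 := (hWm b hb).2.2.2
      rw [← h1] at h7
      exact (hW _ h3 h4).2.1.pr a h6 b h7 hadj h2
    · rw [key0 a b hab ha] at hadj
      exact G.irrefl hadj
  · intro a
    by_cases ha : a ∈ W
    · obtain ⟨h3, h4, h5, h6⟩ := hWm a ha
      refine (card_le_card fun b hb => ?_).trans ((hW _ h3 h4).2.1.sz (γ (nd a / 2) a))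
      rw [mem_filter] at hb
      obtain ⟨hbW, h1, h2⟩ := key1 a b hb.2.symm ha
      have h7 := (hWm b hbW).2.2.2
      rw [← h1] at h7
      rw [mem_filter]
      exact ⟨h7, h2.symm⟩
    · have h1 : (univ.filter fun b => un b = un a) ⊆ {a} := by
        intro b hb
        rw [mem_filter] at hb
        rw [mem_singleton]
        exact (key0 a b hb.2.symm ha).symm
      have h2 := card_le_card h1
      rw [card_singleton] at h2
      omega
  · intro i hi hty
    obtain ⟨a1, a2, a3⟩ := hW i hi hty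
    have hWieq : (W.filter fun v => nd v = 2 * i) = Wi i := by
      ext v
      rw [mem_filter]
      constructor
      · rintro ⟨h1, h2⟩
        have h3 := (hWm v h1).2.2.2
        have h4 : nd v / 2 = i := by omega
        rw [h4] at h3
        exact h3
      · intro h1
        have h2 := hWi i hi hty v h1
        exact ⟨h2.2, h2.1⟩
    have hdiv : ∀ v ∈ Wi i, nd v / 2 = i := by
      intro v hv
      have := (hWi i hi hty v hv).1
      omega
    have hunW : ∀ v ∈ Wi i, un v = 2 * Nat.pair (2 * i) (γ i v) + 1 := by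
      intro v hv
      have h1 := hWi i hi hty v hv
      rw [hu1 v h1.2, hdiv v hv, h1.1]
    rcases a3 with ⟨h1, h2, h3⟩ | ⟨h1, h2, h3⟩
    · left
      refine ⟨fun v hv => ?_, h2, ?_⟩
      · rw [← h1] at hv
        exact (hWi i hi hty v hv).2
      · have h4 : (pt nd (2 * i)).image un ⊆
            (range (m i)).image fun j => 2 * Nat.pair (2 * i) j + 1 := by
          intro x hx
          obtain ⟨v, hv, rfl⟩ := mem_image.1 hx
          rw [← h1] at hv
          exact mem_image.2 ⟨γ i v, mem_range.2 (a2.lt v hv), (hunW v hv).symm⟩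
        have h5 := (card_le_card h4).trans card_image_le
        rw [card_range] at h5
        omega
    · right
      rw [hWieq]
      refine ⟨h1, ?_, ?_⟩
      · have h4 : (Wi i).image un = (range (m i)).image fun j => 2 * Nat.pair (2 * i) j + 1 := by
          apply Finset.Subset.antisymm
          · intro x hx
            obtain ⟨v, hv, rfl⟩ := mem_image.1 hx
            exact mem_image.2 ⟨γ i v, mem_range.2 (a2.lt v hv), (hunW v hv).symm⟩
          · intro x hx
            obtain ⟨j, hj, rfl⟩ := mem_image.1 hx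
            have h5 : 0 < ((Wi i).filter fun v => γ i v = j).card := by
              rw [h3 j (mem_range.1 hj)]
              norm_num
            obtain ⟨a, ha⟩ := card_pos.1 h5
            obtain ⟨h6, h7⟩ := mem_filter.1 ha
            refine mem_image.2 ⟨a, h6, ?_⟩
            rw [hunW a h6, h7]
        rw [h4, card_image_of_injective, card_range, h2]
        intro x y hxy
        have h5 : Nat.pair (2 * i) x = Nat.pair (2 * i) y := by
          change 2 * Nat.pair (2 * i) x + 1 = 2 * Nat.pair (2 * i) y + 1 at hxy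
          omega
        rw [Nat.pair_eq_pair] at h5
        exact h5.2
      · intro v hv hnv
        have hdv : nd v / 2 = i := by omega
        have hvi : v ∈ Wi i := by
          have h4 := (hWm v hv).2.2.2
          rw [hdv] at h4
          exact h4
        rw [← h3 (γ i v) (a2.lt v hvi)]
        congr 1
        ext u
        simp only [mem_filter, mem_univ, true_and]
        constructor
        · intro h4
          obtain ⟨h5, h6, h7⟩ := key1 v u h4.symm hv
          have h8 := (hWm u h5).2.2.2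
          rw [← h6, hdv] at h8
          rw [hdv] at h7
          exact ⟨h8, h7.symm⟩
        · rintro ⟨h4, h5⟩
          rw [hunW u h4, hunW v hvi, h5]

end Pool.Agent.H46.G2
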