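import Mathlib
import Pool.Agent.H46.GA.Chg
import Pool.Agent.H46.G2.St
import Pool.Agent.H46.G2.Fnz
import Pool.Agent.H46.G2.Grz
import Pool.Agent.H46.G2.Usz
import Pool.Agent.H46.G2.Fzc
import Pool.Agent.H46.G2.Coz
import Pool.Agent.H46.G2.Hoz

/-!
GAZ: the colours and the blocked sets of the vertices, uniformly in `p ≥ 2`. Assembled from the rows in `Pool/Agent/H46/G2`;
here only the constants are chosen.
-/

set_option autoImplicit false

namespace Pool.Agent.H46.G2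

open Finset Classical
open Pool.Agent.H71.DN Pool.Agent.H71.DX Pool.Agent.H71.DR Pool.Agent.H71.HL Pool.Agent.H71.DC
open Pool.Agent.H71.TD Pool.Agent.H90.TDP Pool.Agent.H46.GA Pool.Agent.H46.GP

theorem gz_big (a b : ℝ) (hb : 0 < b) : ∃ N0 : ℕ, ∀ n : ℕ, N0 ≤ n → a ≤ b * (n : ℝ) := by
  refine ⟨⌈a / b⌉₊, fun n hn => ?_⟩
  have h1 : a / b ≤ n := (Nat.le_ceil _).trans (by exact_mod_cast hn)
  rw [div_le_iff₀ hb] at h1
  linarith

/-- The natural number inequalities, from bounds for the parameters. -/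
theorem gz_num (M K Kg s A P B Δ p k d D r z e E t q : ℕ) (hM1 : 1 ≤ M) (hp : 2 ≤ p)
    (hA : 200 * (2 * K + 4 * M * s + 56 * M * K) + 64 * (4 * M + Kg + 4) + 1000 * s + 1000
      ≤ A)
    (hP : 64 * (4 * M + Kg + 4) + 512 * (M * (K + s)) + 9600 * K + 20000 ≤ P)
    (hB : 2000 ≤ B)
    (hk : k ≤ 2 * M) (hAd : A * d ≤ Δ) (ht : 1200 * t ≤ Δ) (hPp : P * p ≤ Δ)
    (hD : 10000 * M * D ≤ Δ) (hr : 10000 * M * r ≤ Δ) (he : 10000 * M * e ≤ Δ)
    (hE : 10000 * M * E ≤ Δ)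
    (hz : 10000 * z ≤ Δ) (hrz : 500 * M * r ≤ z) (hez : 500 * M * e ≤ z) (hz0 : 0 < z)
    (hBΔ : B ≤ Δ) (qE : 70 * E ≤ q) (qd : 70 * (s * d) ≤ q) (qp : 420 * p ≤ q)
    (qt : 140 * t ≤ q) (qr : 140 * r ≤ q) (q0 : 200 ≤ q) :
    10 * d ≤ Δ ∧ 240 * e ≤ z ∧ d ≤ Δ ∧ z + 2 * d + 4 * p ≤ Δ ∧ 100 * E ≤ Δ ∧
    7 * (E + s * d + 6 * p + 2 * t + (2 * r + 3 * p) + 2) ≤ q ∧
    56 * (z + s * d + 6 * p + 2 * t + (2 * r + 3 * p) + 2) ≤ Δ ∧
    70 * (7 * E + z + (p + z + 3)) ≤ Δ ∧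
    400 * p + 40 * t + 20 * (2 * r + 3 * p) + 200 ≤ Δ ∧ 960 * p * K ≤ Δ ∧
    2 * (e + 2 * k * r + 2 * k * e) < z ∧
    40 * (2 * K * d + 2 * k * s * d + 28 * k * K * d + z + 2 * k * r) < Δ ∧
    40 * (t + 2 * p + z + 2 * k * r) ≤ Δ ∧ 16 * ((2 * r + 3 * p) + 8 * p + 8) ≤ Δ ∧
    12 * p + 12 * t < Δ ∧
    4 * ((4 * M + Kg + 4) * (d + 2 * p) + D + 2 * k * (4 * p * (K + s))) < Δ := by
  have eA : (200 * (2 * K + 4 * M * s + 56 * M * K) + 64 * (4 * M + Kg + 4) + 1000 * s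
      + 1000) * d ≤ Δ := (Nat.mul_le_mul_right d hA).trans hAd
  have eA2 : 400 * (K * d) + 800 * (M * s * d) + 11200 * (M * K * d) + 256 * (M * d)
      + 64 * (Kg * d) + 256 * d + 1000 * (s * d) + 1000 * d ≤ Δ := by
    refine le_trans (le_of_eq ?_) eA
    ring
  have eP : (64 * (4 * M + Kg + 4) + 512 * (M * (K + s)) + 9600 * K + 20000) * p ≤ Δ :=
    (Nat.mul_le_mul_right p hP).trans hPp
  have eP2 : 64 * ((4 * M + Kg + 4) * p) + 512 * (M * (p * (K + s))) + 9600 * (p * K) +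
      20000 * p ≤ Δ := by
    refine le_trans (le_of_eq ?_) eP
    ring
  have l1 : ∀ y : ℕ, y ≤ M * y := fun y => Nat.le_mul_of_pos_left y hM1
  have l4 : ∀ y : ℕ, k * y ≤ 2 * (M * y) := fun y => by
    have := Nat.mul_le_mul_right y hk
    calc k * y ≤ 2 * M * y := this
      _ = 2 * (M * y) := by ring
  have g1 : 10000 * (M * D) ≤ Δ := by
    refine le_trans (le_of_eq ?_) hD
    ring
  have g2 : 10000 * (M * r) ≤ Δ := by
    refine le_trans (le_of_eq ?_) hr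
    ring
  have g3 : 10000 * (M * e) ≤ Δ := by
    refine le_trans (le_of_eq ?_) he
    ring
  have g4 : 10000 * (M * E) ≤ Δ := by
    refine le_trans (le_of_eq ?_) hE
    ring
  have g5 : 500 * (M * r) ≤ z := by
    refine le_trans (le_of_eq ?_) hrz
    ring
  have g6 : 500 * (M * e) ≤ z := by
    refine le_trans (le_of_eq ?_) hez
    ring
  have hkr := l4 r
  have hke := l4 e
  have hksd := l4 (s * d)
  have hkKd := l4 (K * d)
  have hkb := l4 (p * (K + s))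
  have a1 := l1 D
  have a2 := l1 r
  have a3 := l1 e
  have a4 := l1 E
  have i4 : 2 * k * r = 2 * (k * r) := by ring
  have i5 : 2 * k * e = 2 * (k * e) := by ring
  have i6 : 2 * K * d = 2 * (K * d) := by ring
  have i7 : 2 * k * s * d = 2 * (k * (s * d)) := by ring
  have i8 : 28 * k * K * d = 28 * (k * (K * d)) := by ring
  have i9 : (4 * M + Kg + 4) * (d + 2 * p) = 4 * (M * d) + Kg * d + 4 * d +
      2 * ((4 * M + Kg + 4) * p) := by ring
  have i10 : 2 * k * (4 * p * (K + s)) = 8 * (k * (p * (K + s))) := by ring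
  have i11 : M * (s * d) = M * s * d := by ring
  have i12 : M * (K * d) = M * K * d := by ring
  have i13 : 960 * p * K = 960 * (p * K) := by ring
  rw [i11] at hksd
  rw [i12] at hkKd
  rw [i4, i5, i6, i7, i8, i9, i10, i13]
  clear i4 i5 i6 i7 i8 i9 i10 i11 i12 i13 eA hA hAd hD hr he hE hrz hez l1 l4 hk eP hP hPp
  generalize hx1 : K * d = x1 at *
  generalize hx2 : M * s * d = x2 at *
  generalize hx3 : M * K * d = x3 at *
  generalize hx4 : s * d = x4 at *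
  generalize hx5 : M * d = x5 at *
  generalize hx6 : Kg * d = x6 at *
  generalize hx7 : M * D = x7 at *
  generalize hx8 : M * r = x8 at *
  generalize hx9 : M * e = x9 at *
  generalize hx0 : M * E = x0 at *
  generalize hy1 : k * r = y1 at *
  generalize hy2 : k * e = y2 at *
  generalize hy3 : k * x4 = y3 at *
  generalize hy4 : k * x1 = y4 at *
  generalize hy6 : (4 * M + Kg + 4) * p = y6 at *
  generalize hy7 : k * (p * (K + s)) = y7 at *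
  generalize hy8 : M * (p * (K + s)) = y8 at *
  generalize hy9 : p * K = y9 at *
  refine ⟨by omega, by omega, by omega, by omega, by omega, by omega, by omega, by omega,
    by omega, by omega, by omega, by omega, by omega, by omega, by omega, by omega⟩

theorem gaz (c x : ℝ) (hc : 0 < c) (hc1 : c ≤ 1) (hx : 0 < x) (hx1 : x ≤ 1) :
    ∃ s g0 : ℕ, ∀ g : ℕ, g0 ≤ g → ∀ (K1 : ℕ) (κ : ℝ), 0 < κ → ∃ ξ0 : ℝ, 0 < ξ0 ∧
      ∀ ξ ζ : ℝ, 0 < ξ → ξ ≤ ξ0 → 0 < ζ →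
        ∃ (e0 δ ε f0 : ℝ) (n0 : ℕ), 0 < e0 ∧ 0 < δ ∧ 0 < ε ∧ 0 < f0 ∧
          ∀ (V : Type) [Fintype V] (G : SimpleGraph V) (Δ p k : ℕ) (f : ℝ) (ty : ℕ → Prop)
            (nd : V → ℕ) (sf : ℕ → Finset V), n0 ≤ Fintype.card V → c * Fintype.card V ≤ Δ →
            2 ≤ p → (p : ℝ) ≤ ε * Fintype.card V → 0 ≤ f → f ≤ f0 →
            Str G Δ c x ξ ζ f k ty nd sf →
            ∃ un : V → ℕ, (∀ a b, un a = un b → nd a = nd b ∧ ¬ G.Adj a b) ∧
              (∀ u, (univ.filter fun v => un v = u).card ≤ s) ∧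
              ∀ (KE KB t : ℕ) (η f1 e1 : ℝ) (qt cl : V → ℕ) (φ : ℕ → V → V) (c0 : V → ℕ),
                η ≤ 1 / 100 → e1 ≤ e0 → 6 * g * t ≤ Δ → Spl G k ty nd qt η KE KB f1 →
                Pool.Agent.H2.F2.Spl2 G k ty nd qt cl un e1 f1 →
                Pool.Agent.H2.F2.FcU G Δ p k ty nd qt cl t K1 δ φ c0 →
                ∃ (cc : V → ℕ) (S : V → Finset ℕ), GaP G Δ p k ty nd qt t κ φ cc S := by
  obtain ⟨η1, s, n1, hη1, hη14, hs, hchg⟩ := chg c x hc hc1 hx hx1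
  obtain ⟨η2, hη2, hη21, hη22⟩ : ∃ η2 : ℝ, 0 < η2 ∧ η2 ≤ η1 ∧ η2 ≤ 1 / 10 :=
    ⟨min η1 (1 / 10), lt_min hη1 (by norm_num), min_le_left _ _, min_le_right _ _⟩
  obtain ⟨M, hM⟩ : ∃ M : ℕ, M = ⌈1 / c⌉₊ := ⟨_, rfl⟩
  have hMc : 1 ≤ (M : ℝ) * c := by
    have h := Nat.le_ceil (1 / c)
    rw [← hM, div_le_iff₀ hc] at h
    exact h
  have hM1 : 1 ≤ M := by
    rcases Nat.eq_zero_or_pos M with h | h
    · rw [h] at hMc; norm_num at hMc
    · exact h
  have hMR : (1 : ℝ) ≤ M := by exact_mod_cast hM1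
  obtain ⟨K, hK⟩ : ∃ K : ℕ, K = 6 * M + 4 := ⟨_, rfl⟩
  refine ⟨s, max 200 ⌈50 / η2⌉₊, fun g hg K1 κ hκ => ?_⟩
  have hg1 : 200 ≤ g := (le_max_left _ _).trans hg
  have hg2 : 50 ≤ η2 * g := by
    have h1 : 50 / η2 ≤ g := by
      refine (Nat.le_ceil _).trans ?_
      exact_mod_cast (le_max_right _ _).trans hg
    rw [div_le_iff₀ hη2] at h1
    linarith
  obtain ⟨Kg, hKg⟩ : ∃ Kg : ℕ, Kg = 16 * K + K1 := ⟨_, rfl⟩
  obtain ⟨A, hA⟩ : ∃ A : ℕ, A = ⌈140 * (s : ℝ) / η2⌉₊ +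
      (200 * (2 * K + 4 * M * s + 56 * M * K) + 64 * (4 * M + Kg + 4) + 1000 * s + 1000) :=
    ⟨_, rfl⟩
  have hA1 : 140 * (s : ℝ) ≤ η2 * A := by
    have h1 : 140 * (s : ℝ) / η2 ≤ A := by
      refine (Nat.le_ceil _).trans ?_
      have : ⌈140 * (s : ℝ) / η2⌉₊ ≤ A := by rw [hA]; exact Nat.le_add_right _ _
      exact_mod_cast this
    rw [div_le_iff₀ hη2] at h1
    linarith
  have hA2 : 200 * (2 * K + 4 * M * s + 56 * M * K) + 64 * (4 * M + Kg + 4) + 1000 * s + 1000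
      ≤ A := by
    rw [hA]; exact Nat.le_add_left _ _
  have hA3 : 100 ≤ A := by omega
  have hA0 : (0 : ℝ) < A := by
    have : 0 < A := by omega
    exact_mod_cast this
  obtain ⟨P, hP⟩ : ∃ P : ℕ, P = 64 * (4 * M + Kg + 4) + 512 * (M * (K + s)) + 9600 * K +
    20000 := ⟨_, rfl⟩
  have hP0 : (0 : ℝ) < P := by
    have : 0 < P := by omega
    exact_mod_cast this
  refine ⟨c / (2 * A), by positivity, fun ξ ζ hξ hξ0 hζ => ?_⟩
  obtain ⟨ζ', hz0, hz1, hz2⟩ : ∃ ζ' : ℝ, 0 < ζ' ∧ 14 * ζ' ≤ ζ ∧ 10000 * ζ' ≤ c := by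
    refine ⟨min (ζ / 14) (c / 10000), lt_min (by positivity) (by positivity), ?_, ?_⟩
    · have := min_le_left (ζ / 14) (c / 10000)
      linarith
    · have := min_le_right (ζ / 14) (c / 10000)
      linarith
  obtain ⟨τ, ht0, ht1, ht2, ht3, ht4⟩ : ∃ τ : ℝ, 0 < τ ∧ 1000 * M * τ ≤ ζ' ∧ τ ≤ κ / 4 ∧
      280 * τ ≤ η2 * c ∧ 10000 * M * τ ≤ c := by
    refine ⟨min (ζ' / (1000 * M)) (min (κ / 4) (min (η2 * c / 280) (c / (10000 * M)))),
      lt_min (by positivity) (lt_min (by positivity) (lt_min (by positivity) (by positivity))),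
      ?_, ?_, ?_, ?_⟩
    · have h1 : min (ζ' / (1000 * M)) (min (κ / 4) (min (η2 * c / 280) (c / (10000 * M)))) ≤
        ζ' / (1000 * M) := min_le_left _ _
      rw [le_div_iff₀ (by positivity)] at h1
      linarith
    · exact (min_le_right _ _).trans (min_le_left _ _)
    · have h1 : min (ζ' / (1000 * M)) (min (κ / 4) (min (η2 * c / 280) (c / (10000 * M)))) ≤
        η2 * c / 280 := (min_le_right _ _).trans ((min_le_right _ _).trans (min_le_left _ _))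
      linarith
    · have h1 : min (ζ' / (1000 * M)) (min (κ / 4) (min (η2 * c / 280) (c / (10000 * M)))) ≤
        c / (10000 * M) := (min_le_right _ _).trans ((min_le_right _ _).trans
          (min_le_right _ _))
      rw [le_div_iff₀ (by positivity)] at h1
      linarith
  obtain ⟨ε, he0, he1, he2, he3⟩ : ∃ ε : ℝ, 0 < ε ∧ P * ε ≤ c ∧ 840 * ε ≤ η2 * c ∧
      64 * (M * (K + s)) * ε ≤ κ := by
    refine ⟨min (c / P) (min (η2 * c / 840) (κ / (64 * (M * (K + s) + 1)))),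
      lt_min (by positivity) (lt_min (by positivity) (by positivity)), ?_, ?_, ?_⟩
    · have h1 : min (c / P) (min (η2 * c / 840) (κ / (64 * (M * (K + s) + 1)))) ≤ c / P :=
        min_le_left _ _
      rw [le_div_iff₀ (by positivity)] at h1
      linarith
    · have h1 : min (c / P) (min (η2 * c / 840) (κ / (64 * (M * (K + s) + 1)))) ≤
        η2 * c / 840 := (min_le_right _ _).trans (min_le_left _ _)
      linarith
    · have h1 : min (c / P) (min (η2 * c / 840) (κ / (64 * (M * (K + s) + 1)))) ≤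
        κ / (64 * (M * (K + s) + 1)) := (min_le_right _ _).trans (min_le_right _ _)
      have h0 : 0 ≤ min (c / P) (min (η2 * c / 840) (κ / (64 * (M * (K + s) + 1)))) :=
        (lt_min (by positivity) (lt_min (by positivity) (by positivity))).le
      rw [le_div_iff₀ (by positivity)] at h1
      nlinarith
  obtain ⟨N1, hN1⟩ := gz_big (2 * A) c hc
  obtain ⟨N2, hN2⟩ := gz_big 2 τ ht0
  obtain ⟨N3, hN3⟩ := gz_big 100 ζ' hz0
  obtain ⟨N4, hN4⟩ := gz_big (4 * (4 * M * (4 * M + Kg + 4) : ℕ)) κ hκ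
  obtain ⟨N5, hN5⟩ := gz_big 2000 c hc
  obtain ⟨N6, hN6⟩ := gz_big 1000 (η2 * c) (mul_pos hη2 hc)
  refine ⟨τ / 2, τ / 2, ε, min (τ / 2) ((τ / 2) ^ 2), n1 + N1 + N2 + N3 + N4 + N5 + N6,
    by positivity, by positivity, he0, lt_min (by positivity) (by positivity), ?_⟩
  intro V _ G Δ p k f ty nd sf hn hcn hp hpn hf0 hf hS
  obtain ⟨n, hnn⟩ : ∃ n : ℝ, n = (Fintype.card V : ℝ) := ⟨_, rfl⟩
  have b1 : 2 * (A : ℝ) ≤ c * n := hnn ▸ hN1 _ (by omega)
  have b2 : 2 ≤ τ * n := hnn ▸ hN2 _ (by omega)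
  have b3 : 100 ≤ ζ' * n := hnn ▸ hN3 _ (by omega)
  have b4 : 4 * ((4 * M * (4 * M + Kg + 4) : ℕ) : ℝ) ≤ κ * n := hnn ▸ hN4 _ (by omega)
  have b5 : 2000 ≤ c * n := hnn ▸ hN5 _ (by omega)
  have b6 : 1000 ≤ η2 * c * n := hnn ▸ hN6 _ (by omega)
  rw [← hnn] at hcn hpn
  have hn0 : 0 ≤ n := hnn ▸ Nat.cast_nonneg _
  have hηcn : η2 * c * n ≤ η2 * Δ := by
    have := mul_le_mul_of_nonneg_left hcn hη2.le
    linarith
  -- the parameters
  obtain ⟨d, hd⟩ : ∃ d : ℕ, d = ⌈ξ * n⌉₊ := ⟨_, rfl⟩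
  obtain ⟨D, hD⟩ : ∃ D : ℕ, D = ⌈τ / 2 * n⌉₊ := ⟨_, rfl⟩
  obtain ⟨r, hr⟩ : ∃ r : ℕ, r = ⌈f * n⌉₊ := ⟨_, rfl⟩
  obtain ⟨e, he⟩ : ∃ e : ℕ, e = ⌈√f * n⌉₊ := ⟨_, rfl⟩
  obtain ⟨z, hz⟩ : ∃ z : ℕ, z = ⌊ζ' * n⌋₊ := ⟨_, rfl⟩
  obtain ⟨q, hq⟩ : ∃ q : ℕ, q = ⌊η2 * Δ⌋₊ := ⟨_, rfl⟩
  have hd1 : ξ * n ≤ d := by rw [hd]; exact Nat.le_ceil _
  have hd2 : (d : ℝ) ≤ ξ * n + 1 := by rw [hd]; exact (Nat.ceil_lt_add_one (by positivity)).le
  have hD1 : τ / 2 * n ≤ D := by rw [hD]; exact Nat.le_ceil _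
  have hD2 : (D : ℝ) ≤ τ * n := by
    have : (D : ℝ) ≤ τ / 2 * n + 1 := by
      rw [hD]; exact (Nat.ceil_lt_add_one (by positivity)).le
    linarith
  have hr1 : f * n ≤ r := by rw [hr]; exact Nat.le_ceil _
  have hr2 : (r : ℝ) ≤ τ * n := by
    have h1 : (r : ℝ) ≤ f * n + 1 := by rw [hr]; exact (Nat.ceil_lt_add_one (by positivity)).le
    have h2 : f * n ≤ τ / 2 * n := mul_le_mul_of_nonneg_right (hf.trans (min_le_left _ _)) hn0
    linarith
  have he0' : √f * n ≤ e := by rw [he]; exact Nat.le_ceil _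
  have he1' : f * n ^ 2 ≤ (e : ℝ) ^ 2 := by
    have h1 : (√f * n) ^ 2 ≤ (e : ℝ) ^ 2 := pow_le_pow_left₀ (by positivity) he0' 2
    rw [mul_pow, Real.sq_sqrt hf0] at h1
    exact h1
  have he2' : (e : ℝ) ≤ τ * n := by
    have h1 : (e : ℝ) ≤ √f * n + 1 := by
      rw [he]; exact (Nat.ceil_lt_add_one (by positivity)).le
    have h2 : √f ≤ τ / 2 := by
      rw [show τ / 2 = √((τ / 2) ^ 2) from (Real.sqrt_sq (by positivity)).symm]
      exact Real.sqrt_le_sqrt (hf.trans (min_le_right _ _))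
    have h3 : √f * n ≤ τ / 2 * n := mul_le_mul_of_nonneg_right h2 hn0
    linarith
  have hz3 : (z : ℝ) ≤ ζ' * n := by rw [hz]; exact Nat.floor_le (by positivity)
  have hz4 : ζ' * n - 1 ≤ z := by
    rw [hz]; exact (Nat.sub_one_lt_floor _).le
  have hz5 : 14 * (ζ' * n) ≤ ζ * n := by
    have := mul_le_mul_of_nonneg_right hz1 hn0
    linarith
  have hz6 : 10000 * (ζ' * n) ≤ c * n := by
    have := mul_le_mul_of_nonneg_right hz2 hn0
    linarith
  have hτn : 1000 * M * (τ * n) ≤ ζ' * n := by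
    have := mul_le_mul_of_nonneg_right ht1 hn0
    linarith
  have hτn4 : 10000 * M * (τ * n) ≤ c * n := by
    have := mul_le_mul_of_nonneg_right ht4 hn0
    linarith
  have hτn3 : 280 * (τ * n) ≤ η2 * c * n := by
    have := mul_le_mul_of_nonneg_right ht3 hn0
    linarith
  have hτn2 : τ * n ≤ κ / 4 * n := mul_le_mul_of_nonneg_right ht2 hn0
  have hAd : A * d ≤ Δ := by
    have h1 : (A : ℝ) * (ξ * n) ≤ c * n / 2 := by
      have h2 : (A : ℝ) * ξ ≤ c / 2 := by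
        have h3 : ξ * (2 * A) ≤ c := by
          rw [le_div_iff₀ (by positivity)] at hξ0
          exact hξ0
        linarith
      have := mul_le_mul_of_nonneg_right h2 hn0
      linarith
    have h4 : (A : ℝ) * d ≤ A * (ξ * n + 1) := mul_le_mul_of_nonneg_left hd2 hA0.le
    have h5 : (A : ℝ) * d ≤ Δ := by linarith
    exact_mod_cast h5
  have hq1 : (q : ℝ) ≤ η2 * Δ := by rw [hq]; exact Nat.floor_le (by positivity)
  have hq2 : η2 * Δ / 2 ≤ q := by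
    have h1 : η2 * Δ - 1 ≤ q := by rw [hq]; exact (Nat.sub_one_lt_floor _).le
    linarith
  have hsmall : ∀ y : ℕ, (y : ℝ) ≤ τ * n →
      10000 * M * y ≤ Δ ∧ 500 * M * y ≤ z ∧ 140 * y ≤ q := by
    intro y hy
    have h1 : (M : ℝ) * y ≤ M * (τ * n) := mul_le_mul_of_nonneg_left hy (by positivity)
    have h2 : 10000 * (M : ℝ) * y ≤ Δ := by linarith
    have h3 : 500 * (M : ℝ) * y ≤ z := by linarith
    have h4 : 140 * (y : ℝ) ≤ q := by linarith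
    exact ⟨by exact_mod_cast h2, by exact_mod_cast h3, by exact_mod_cast h4⟩
  have hk : k ≤ 2 * M := by
    have h1 := hS.kc
    have h2 : (k : ℝ) ≤ 2 * M := by
      rcases le_or_gt (k : ℝ) (2 * M) with h | h
      · exact h
      · nlinarith
    exact_mod_cast h2
  have hBΔ : 2000 ≤ Δ := by
    have := b5.trans hcn
    exact_mod_cast this
  have hzz : 0 < z := by
    have : (0 : ℝ) < z := by linarith
    exact_mod_cast this
  have h10z : 10000 * z ≤ Δ := by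
    have : 10000 * (z : ℝ) ≤ Δ := by linarith
    exact_mod_cast this
  have hPp : P * p ≤ Δ := by
    have h1 : (P : ℝ) * p ≤ P * (ε * n) := mul_le_mul_of_nonneg_left hpn hP0.le
    have h2 := mul_le_mul_of_nonneg_right he1 hn0
    have h3 : (P : ℝ) * p ≤ Δ := by linarith
    exact_mod_cast h3
  have hqd : 70 * (s * d) ≤ q := by
    have h1 : 140 * (s : ℝ) * d ≤ η2 * A * d :=
      mul_le_mul_of_nonneg_right hA1 (Nat.cast_nonneg _)
    have h2 : (A : ℝ) * d ≤ Δ := by exact_mod_cast hAd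
    have h3 := mul_le_mul_of_nonneg_left h2 hη2.le
    have h4 : 70 * ((s : ℝ) * d) ≤ q := by linarith
    exact_mod_cast h4
  have hqp : 420 * p ≤ q := by
    have h1 := mul_le_mul_of_nonneg_right he2 hn0
    have h2 : 420 * (p : ℝ) ≤ q := by linarith
    exact_mod_cast h2
  have hq0 : 200 ≤ q := by
    have : (200 : ℝ) ≤ q := by linarith
    exact_mod_cast this
  -- numbers that do not depend on `t`
  obtain ⟨m1, m2, m3, m4, -, -, -, -, -, -, -, -, -, -, -, -⟩ := gz_num M K Kg s A P 2000 Δ p k d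
    D r z e D 0 q hM1 hp hA2 hP.ge le_rfl hk hAd (by omega) hPp (hsmall D hD2).1 (hsmall r hr2).1
    (hsmall e he2').1 (hsmall D hD2).1 h10z (hsmall r hr2).2.1 (hsmall e he2').2.1 hzz hBΔ
    (by have := (hsmall D hD2).2.2; omega) hqd hqp (by omega) (hsmall r hr2).2.2 hq0
  have hMn : Fintype.card V ≤ M * Δ := by
    have h1 : n ≤ M * Δ := by
      have h2 : (M : ℝ) * (c * n) ≤ M * Δ := mul_le_mul_of_nonneg_left hcn (by linarith)
      nlinarith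
    rw [hnn] at h1
    exact_mod_cast h1
  have hF0 : F0 G Δ k ty nd d e r := fnz G Δ k c x ξ ζ f ty nd sf d r e hS (hnn ▸ hd1)
    (hnn ▸ hr1) (hnn ▸ he1') m1
  have hch : ∀ i < k, ty i → 11 * Δ < 10 * (pt nd (2 * i)).card →
      ∃ (m : ℕ) (γ : V → ℕ), Grp G (pt nd (2 * i)) m s γ ∧ m + q ≤ Δ := by
    intro i hi hty hbig
    obtain ⟨m, γ, hG, hm⟩ := hchg V G Δ (pt nd (2 * i)) (by omega) (fun v => (hS.reg v).le)
      (hnn ▸ hcn) hbig (hS.e3 i hi hty)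
    refine ⟨m, γ, hG, ?_⟩
    have h1 : η2 * (Δ : ℝ) ≤ η1 * Δ := mul_le_mul_of_nonneg_right hη21 (Nat.cast_nonneg _)
    have h2 : (m : ℝ) + q ≤ Δ := by linarith
    exact_mod_cast h2
  have h10q : 10 * q ≤ Δ := by
    have h1 : η2 * (Δ : ℝ) ≤ 1 / 10 * Δ := mul_le_mul_of_nonneg_right hη22 (Nat.cast_nonneg _)
    have h2 : 10 * (q : ℝ) ≤ Δ := by linarith
    exact_mod_cast h2
  have hgr := grz G Δ k ty nd d e r z hF0 s q hs h10q m2 m3 hch
  obtain ⟨W, un, hU⟩ := usz G Δ p k ty nd d e r z hF0 s q (by omega) hs m4 hgr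
  refine ⟨un, fun a b hab => ⟨hU.nu a b hab, hU.pr a b hab⟩, ?_, ?_⟩
  · intro u
    rcases (univ.filter fun v => un v = u).eq_empty_or_nonempty with h | ⟨a, ha⟩
    · rw [h]
      simp
    · rw [mem_filter] at ha
      rw [← ha.2]
      exact hU.sz a
  intro KE KB t η f1 e1 qt cl φ c0 hη he1e htg hP1 hP2 hφ
  have ht1200 : 1200 * t ≤ Δ := (Nat.mul_le_mul_right t (by omega)).trans htg
  have hqt : 140 * t ≤ q := by
    have h1 : 6 * (g : ℝ) * t ≤ Δ := by exact_mod_cast htg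
    have h2 := mul_le_mul_of_nonneg_left h1 hη2.le
    have h3 := mul_le_mul_of_nonneg_right hg2 (Nat.cast_nonneg t : (0 : ℝ) ≤ t)
    have h4 : (0 : ℝ) ≤ t := Nat.cast_nonneg t
    have h5 : 140 * (t : ℝ) ≤ q := by linarith
    exact_mod_cast h5
  obtain ⟨-, -, -, -, m5, m6, m7, m8, m9, m10, m11, m12, m13, m14, m15, m16⟩ := gz_num M K Kg s
    A P 2000 Δ p k d D r z e D t q hM1 hp hA2 hP.ge le_rfl hk hAd ht1200 hPp (hsmall D hD2).1
    (hsmall r hr2).1 (hsmall e he2').1 (hsmall D hD2).1 h10z (hsmall r hr2).2.1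
    (hsmall e he2').2.1 hzz hBΔ (by have := (hsmall D hD2).2.2; omega) hqd hqp hqt
    (hsmall r hr2).2.2 hq0
  have he1n : e1 * n ≤ D := (mul_le_mul_of_nonneg_right he1e hn0).trans hD1
  have hF : Fz G Δ p k ty nd qt cl un sf t φ c0 d D r z e D (2 * r + 3 * p) K1 :=
    fzc G Δ p k KE KB t K1 c x ξ ζ f η f1 e1 (τ / 2) ty nd qt cl un sf φ c0 d D r z e D
      (2 * r + 3 * p) hS hP1 hP2 hφ hF0 hη (hnn ▸ hD1) (by
        rw [← hnn]
        have h1 : e1 * n ≤ τ / 2 * n := mul_le_mul_of_nonneg_right he1e hn0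
        have h2 : (1 : ℝ) * (τ * n) ≤ M * (τ * n) :=
          mul_le_mul_of_nonneg_right hMR (by positivity)
        nlinarith) (hnn ▸ he1n) m5 le_rfl
  obtain ⟨cc, hcc⟩ := coz G Δ p k ty nd qt cl un sf t φ c0 d D r z e D (2 * r + 3 * p) K1 hF hp
    s q W hU m6 m7 (p + z + 3) M K le_rfl m8 hMn hK.ge m9 m10 m11 m12 m13 m14 (by omega)
  rw [← hKg] at hcc
  obtain ⟨S, hS2⟩ := hoz G Δ p k ty nd qt cl un sf t φ c0 d D r z e D (2 * r + 3 * p) K1 hF
    (by omega) (4 * p * (K + s)) Kg cc hcc M hMn m15 m16 κ (by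
    rw [← hnn]
    have h1 : 2 * k * (4 * M + 4 * p * (K + s) + Kg + 4) ≤
        4 * M * (4 * M + 4 * p * (K + s) + Kg + 4) := Nat.mul_le_mul_right _ (by omega)
    have h2 : 4 * M * (4 * M + 4 * p * (K + s) + Kg + 4) = 4 * M * (4 * M + Kg + 4) +
        16 * (M * (K + s)) * p := by ring
    rw [h2] at h1
    have h3 : ((2 * k * (4 * M + 4 * p * (K + s) + Kg + 4) : ℕ) : ℝ) ≤
        ((4 * M * (4 * M + Kg + 4) : ℕ) : ℝ) + 16 * (M * (K + s)) * p := by exact_mod_cast h1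
    have h4 : 16 * ((M : ℝ) * (K + s)) * p ≤ 16 * (M * (K + s)) * (ε * n) :=
      mul_le_mul_of_nonneg_left hpn (by positivity)
    have h5 := mul_le_mul_of_nonneg_right he3 hn0
    rw [Nat.cast_add]
    linarith)
  exact ⟨cc, S, hS2⟩

/-- The statement of the block GA2. -/
theorem gaSt2 (c x : ℝ) (hc : 0 < c) (hc1 : c ≤ 1) (hx : 0 < x) (hx1 : x ≤ 1) : GaSt2 c x := by
  obtain ⟨s, g0, h⟩ := gaz c x hc hc1 hx hx1
  refine ⟨s, g0 + 3, fun g hg K1 κ hκ => ?_⟩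
  obtain ⟨ξ0, hξ0, h1⟩ := h g (by omega) K1 κ hκ
  refine ⟨ξ0, hξ0, fun ξ ζ hξ hξ1 hζ => ?_⟩
  obtain ⟨e0, δ, ε, f0, n0, he0, hδ, hε, hf0, h2⟩ := h1 ξ ζ hξ hξ1 hζ
  refine ⟨e0, δ, min ε (c / 2), f0, n0, he0, hδ, lt_min hε (by positivity), hf0, ?_⟩
  intro V _ G Δ p k f ty nd sf hn hcn hp hpn hf hff hS
  have hn0 : (0 : ℝ) ≤ Fintype.card V := Nat.cast_nonneg _
  obtain ⟨un, hu1, hu2, h3⟩ := h2 V G Δ p k f ty nd sf hn hcn hp
    (hpn.trans (mul_le_mul_of_nonneg_right (min_le_left _ _) hn0)) hf hff hS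
  refine ⟨un, hu1, hu2, ?_⟩
  intro KE KB η f1 e1 qt cl φ c0 hη he1 hP1 hP2 hφ
  refine h3 KE KB _ η f1 e1 qt cl φ c0 hη he1 ?_ hP1 hP2 hφ
  have h4 : 2 * p ≤ Δ := by
    have h5 : (2 * p : ℝ) ≤ Δ := by
      have h6 := hpn.trans (mul_le_mul_of_nonneg_right (min_le_right ε (c / 2)) hn0)
      linarith
    exact_mod_cast h5
  have h5 := Nat.mul_div_le (Δ + 2 * p - 2) (12 * g)
  have h6 : 12 * g * ((Δ + 2 * p - 2) / (12 * g)) =
      2 * (6 * g * ((Δ + 2 * p - 2) / (12 * g))) := by ring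
  omega

end Pool.Agent.H46.G2
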